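import Mathlib

/-!
# (1,1,2^4)-packing edge-colourings of subcubic graphs: definitions
All graphs are simple graphs on a finite vertex type `V`.
-/

set_option autoImplicit false
open Classical

namespace Pool.Agent.H416R4.PK

variable {V : Type*}

/-- degree of `x` (number of neighbours) -/
noncomputable def dg (G : SimpleGraph V) (x : V) : ℕ := (G.neighborSet x).ncard

/-- local form of a (1,1,2^4)-packing edge colouring: symmetric, proper at every vertex, and two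
edges of the same colour `≥ 2` are never joined by an edge -/
def LP (G : SimpleGraph V) (c : V → V → Fin 6) : Prop :=
  (∀ a b, G.Adj a b → c a b = c b a) ∧
  (∀ a b b', G.Adj a b → G.Adj a b' → b ≠ b' → c a b ≠ c a b') ∧
  (∀ a b x y, G.Adj a b → G.Adj b x → G.Adj x y → a ≠ x → b ≠ y → 2 ≤ (c a b).val →
    c a b ≠ c x y)

/-- remove from `G` all edges `{x, m x}` -/
def rm (G : SimpleGraph V) (m : V → V) : SimpleGraph V where
  Adj a b := G.Adj a b ∧ m a ≠ b ∧ m b ≠ a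
  symm := ⟨fun _ _ h => ⟨h.1.symm, h.2.2, h.2.1⟩⟩
  loopless := ⟨fun a h => G.loopless.irrefl a h.1⟩

/-- remove from `G` the edges `{u, vv u}`, `u ∈ U` -/
def gc (G : SimpleGraph V) (U : Set V) (vv : V → V) : SimpleGraph V where
  Adj a b := G.Adj a b ∧ ¬ (a ∈ U ∧ b = vv a) ∧ ¬ (b ∈ U ∧ a = vv b)
  symm := ⟨fun _ _ h => ⟨h.1.symm, h.2.2, h.2.1⟩⟩
  loopless := ⟨fun a h => G.loopless.irrefl a h.1⟩

/-- `m` is a matching of `G` (an involution; `m x = x` means `x` is uncovered) -/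
structure Inv (G : SimpleGraph V) (m : V → V) : Prop where
  inv : ∀ x, m (m x) = x
  adj : ∀ x, m x ≠ x → G.Adj x (m x)

/-! ### structure of a subcubic graph -/

/-- `K` is (the vertex set of) a connected component of the subgraph induced on `A` -/
def IsComp (G : SimpleGraph V) (A K : Set V) : Prop :=
  K ⊆ A ∧ (G.induce K).Connected ∧ ∀ x ∈ K, ∀ y ∈ A, G.Adj x y → y ∈ K

/-- number of odd components of the subgraph induced on `A` -/
noncomputable def oc (G : SimpleGraph V) (A : Set V) : ℕ :=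
  {K : Set V | IsComp G A K ∧ Odd K.ncard}.ncard

/-- `S` maximises `oc(G - S) - |S|` and, subject to this, `|S|` -/
def IsBar (G : SimpleGraph V) (S : Set V) : Prop :=
  ∀ T : Set V, oc G Tᶜ + S.ncard ≤ oc G Sᶜ + T.ncard ∧
    (oc G Sᶜ + T.ncard ≤ oc G Tᶜ + S.ncard → T.ncard ≤ S.ncard)

/-- number of (ordered) edges from `K` to `S` -/
noncomputable def ec (G : SimpleGraph V) (K S : Set V) : ℕ :=
  {p : V × V | p.1 ∈ K ∧ p.2 ∈ S ∧ G.Adj p.1 p.2}.ncard

/-- the structure: a matching `m`, a set `U` of uncovered vertices, each `u ∈ U` lying in a set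
`K u` which only one edge `{u, vv u}` leaves; the sets `K u` are disjoint; the uncovered vertices
not in `U` have degree at most 2 -/
structure Str (G : SimpleGraph V) (m vv : V → V) (U : Set V) (K : V → Set V) : Prop where
  inv : ∀ x, m (m x) = x
  adj : ∀ x, m x ≠ x → G.Adj x (m x)
  free : ∀ x, m x = x → x ∉ U → dg G x ≤ 2
  fixU : ∀ u ∈ U, m u = u
  mem : ∀ u ∈ U, u ∈ K u
  adjv : ∀ u ∈ U, G.Adj u (vv u)
  out : ∀ u ∈ U, ∀ w ∈ U, vv u ∉ K w
  cut : ∀ u ∈ U, ∀ x ∈ K u, ∀ y, y ∉ K u → G.Adj x y → x = u ∧ y = vv u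
  disj : ∀ u ∈ U, ∀ w ∈ U, u ≠ w → Disjoint (K u) (K w)
  cov : ∀ u ∈ U, m (vv u) ≠ vv u

/-! ### the core -/

/-- hypotheses of the core theorem -/
structure Core (H : SimpleGraph V) (m : V → V) (U : Set V) : Prop where
  inv : ∀ x, m (m x) = x
  adj : ∀ x, m x ≠ x → H.Adj x (m x)
  deg3 : ∀ x, dg H x ≤ 3
  deg2 : ∀ x, m x = x → dg H x ≤ 2
  uni : ∀ u ∈ U, ∀ w ∈ U, H.Reachable u w → u = w
  fixU : ∀ u ∈ U, m u = u

/-- `m` minimises the number of components of `H - m` among the matchings covering the same vertices -/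
def Mini (H : SimpleGraph V) (m : V → V) : Prop :=
  ∀ m' : V → V, Inv H m' → (∀ x, m' x = x ↔ m x = x) →
    Nat.card (rm H m).ConnectedComponent ≤ Nat.card (rm H m').ConnectedComponent

/-- `c` is a proper 4-colouring of the edges of the matching `m`: joined matching edges differ
(`F` is the graph of the edges not in the matching) -/
def Col (F : SimpleGraph V) (m : V → V) (c : V → Fin 4) : Prop :=
  (∀ x, c (m x) = c x) ∧ ∀ x y, F.Adj x y → m x ≠ x → m y ≠ y → c x ≠ c y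

/-- `x` is covered by a matching edge joining two different `δ`-edges -/
def Xc (m δ : V → V) (x : V) : Prop := m x ≠ x ∧ δ x ≠ x ∧ δ (m x) ≠ m x

/-- the graph `(F - δ) + X` -/
def F2 (F : SimpleGraph V) (m δ : V → V) : SimpleGraph V where
  Adj a b := (F.Adj a b ∧ δ a ≠ b ∧ δ b ≠ a) ∨
    (a ≠ b ∧ ((m a = b ∧ Xc m δ a) ∨ (m b = a ∧ Xc m δ b)))
  symm := ⟨by
    rintro a b (h | h)
    · exact Or.inl ⟨h.1.symm, h.2.2, h.2.1⟩
    · exact Or.inr ⟨h.1.symm, h.2.symm⟩⟩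
  loopless := ⟨fun a h => by
    rcases h with h | h
    · exact F.loopless.irrefl a h.1
    · exact h.1 rfl⟩

/-- no nonempty set of `X`-covered vertices closed under `m` and `δ`, whose `δ`-edges are on cycles -/
def Acy (F : SimpleGraph V) (m δ : V → V) : Prop :=
  ∀ Y : Set V, (∀ y ∈ Y, Xc m δ y) → (∀ y ∈ Y, m y ∈ Y) → (∀ y ∈ Y, δ y ∈ Y) →
    (∀ y ∈ Y, (rm F δ).Reachable y (δ y)) → Y = ∅

/-- the chosen edges `{x, δ x}` of `F`, at most one in every component of `F`; `β` is the set of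
bad vertices -/
structure Slot (F : SimpleGraph V) (m : V → V) (U : Set V) (c : V → Fin 4)
    (δ : V → V) (β : Set V) : Prop where
  inv : ∀ x, δ (δ x) = x
  adj : ∀ x, δ x ≠ x → F.Adj x (δ x)
  one : ∀ x y, δ x ≠ x → δ y ≠ y → F.Reachable x y → y = x ∨ y = δ x
  atU : ∀ u ∈ U, (∃ y, F.Adj u y) → δ u ≠ u
  even : ∀ x, (∀ z, F.Reachable x z → δ z = z ∧ dg F z = 2) →
    Even {z | F.Reachable x z}.ncard
  badd : ∀ x ∈ β, δ x ≠ x
  badm : ∀ x ∈ β, m x ∉ β
  badc : ∀ x ∈ β, ∃ r, F.Adj (δ x) r ∧ r ≠ x ∧ c r = c x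
  badr : ∀ x ∈ β, (rm F δ).Reachable x (δ x)
  typ : ∀ x, δ x ≠ x → x ∈ β ∨ δ x ∈ β ∨ m x = x ∨ m (δ x) = δ x ∨
    ∃ z w, F.Adj x z ∧ z ≠ δ x ∧ F.Adj (δ x) w ∧ w ≠ x ∧ c z = c w
  dom : ∀ x, δ x ≠ x → (∃ u ∈ U, F.Reachable x u) ∨ ∀ z, F.Reachable x z → dg F z = 2

/-- the data `l, o, r, k` for the component of `x0` in `F`: `k = 0` no edge is chosen, `k = 1` the
edge `{l, o}` is chosen, `k = 2` one of the edges `{l, o}`, `{o, r}` will be chosen -/
structure CD (F : SimpleGraph V) (m : V → V) (U : Set V) (c : V → Fin 4)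
    (x0 l o r : V) (k : ℕ) : Prop where
  k2 : k ≤ 2
  none1 : k = 0 → ∀ u ∈ U, F.Reachable x0 u → ∀ y, ¬ F.Adj u y
  none2 : k = 0 → (∀ z, F.Reachable x0 z → dg F z = 2) → Even {z | F.Reachable x0 z}.ncard
  edge1 : k = 1 → F.Reachable x0 l ∧ F.Adj l o
  edge2 : k = 1 → ∀ u ∈ U, F.Reachable x0 u → u = l
  edge3 : k = 1 → m l = l ∨ ∃ z w, F.Adj l z ∧ z ≠ o ∧ F.Adj o w ∧ w ≠ l ∧ c z = c w
  edge4 : k = 1 → (∃ u ∈ U, F.Reachable x0 u) ∨ ∀ z, F.Reachable x0 z → dg F z = 2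
  aba1 : k = 2 → F.Reachable x0 l ∧ F.Adj l o ∧ F.Adj o r ∧ l ≠ r ∧ c l = c r
  aba2 : k = 2 → ∀ u ∈ U, ¬ F.Reachable x0 u
  aba3 : k = 2 → ∀ z, F.Reachable x0 z → dg F z = 2
  aba4 : k = 2 → m l ≠ l ∧ m r ≠ r

/-- at `u` at most one edge has a colour `< 2` and at most one edge has a colour `≥ 2` -/
def PU (H : SimpleGraph V) (g : V → V → Fin 6) (u : V) : Prop :=
  (∀ y y', H.Adj u y → H.Adj u y' → (g u y).val < 2 → (g u y').val < 2 → y = y') ∧
  (∀ y y', H.Adj u y → H.Adj u y' → 2 ≤ (g u y).val → 2 ≤ (g u y').val → y = y')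

/-- at `v` exactly one edge has a colour `≥ 2` -/
def PW (H : SimpleGraph V) (g : V → V → Fin 6) (v : V) : Prop :=
  ∃ w, H.Adj v w ∧ 2 ≤ (g v w).val ∧ ∀ y, H.Adj v y → y ≠ w → (g v y).val < 2

/-! ### Brooks -/

/-- `c` is a proper colouring on the set `A` -/
def PO (Γ : SimpleGraph V) (A : Set V) (c : V → Fin 4) : Prop :=
  ∀ x ∈ A, ∀ y ∈ A, Γ.Adj x y → c x ≠ c y

/-- five edges of the matching `m` pairwise joined by edges of `H` -/
def K5in (H : SimpleGraph V) (m : V → V) (e : Fin 5 → V) : Prop :=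
  (∀ i, m (e i) ≠ e i) ∧ (∀ i j, i ≠ j → e i ≠ e j ∧ m (e i) ≠ e j) ∧
  ∀ i j, i ≠ j → ∃ a b, (a = e i ∨ a = m (e i)) ∧ (b = e j ∨ b = m (e j)) ∧ H.Adj a b

/-- position (0..3) of `j` among the elements of `Fin 5` other than `i` -/
def pos5 (i j : Fin 5) : ℕ := if j.val < i.val then j.val else j.val - 1

/-- canonical splitting: the end `0` of the matching edge `i` is joined to the smallest other
matching edge and to the one at position `1 + ch i`, the end `1` to the other two -/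
def sg (ch : Fin 5 → Fin 3) (i j : Fin 5) : Fin 2 :=
  if pos5 i j = 0 ∨ pos5 i j = 1 + (ch i).val then 0 else 1

/-- a good colouring of a splitting of `K5` given by a symmetric matrix (`c i i` is the colour of the
matching edge `i`, `c i j` the colour of the edge joining the matching edges `i` and `j`) -/
def K5ok (σ : Fin 5 → Fin 5 → Fin 2) (c : Fin 5 → Fin 5 → Fin 6) : Prop :=
  (∀ i j, c i j = c j i) ∧
  (∀ i j, i ≠ j → c i i ≠ c i j) ∧
  (∀ i h k, h ≠ i → k ≠ i → h ≠ k → c i h = c i k → (c i h).val < 2 ∧ σ i h ≠ σ i k) ∧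
  (∀ i j, i ≠ j → c i i = c j j → (c i i).val < 2) ∧
  (∀ i j k, j ≠ i → k ≠ j → k ≠ i → σ j k = σ j i → c i i = c j k → (c i i).val < 2) ∧
  (∀ h i j k, h ≠ i → j ≠ i → h ≠ j → k ≠ j → k ≠ i → σ i h = σ i j → σ j k = σ j i →
    c h i = c j k → (c h i).val < 2)

end Pool.Agent.H416R4.PK
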