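import Pool.Agent.H416R4.PK.Defs

set_option autoImplicit false
open Classical

namespace Pool.Agent.H416R4.PK

namespace T02

/-- a connected set meeting a relatively closed set `C` lies in `C` -/
theorem sub_of_closed {V : Type*} (G : SimpleGraph V) (K C : Set V) (hK : (G.induce K).Connected)
    (x : V) (hx : x ∈ K) (hxC : x ∈ C)
    (hC : ∀ a ∈ K, a ∈ C → ∀ b ∈ K, G.Adj a b → b ∈ C) : K ⊆ C := by
  have key : ∀ (u v : K), (G.induce K).Walk u v → u.1 ∈ C → v.1 ∈ C := by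
    intro u v p
    induction p with
    | nil => exact fun h => h
    | cons h p ih =>
      intro hu
      exact ih (hC _ (Subtype.prop _) hu _ (Subtype.prop _) h)
  intro y hy
  obtain ⟨p⟩ := hK.preconnected ⟨x, hx⟩ ⟨y, hy⟩
  exact key _ _ p hxC

end T02

variable {V : Type*} [Fintype V]

/-- T02a -/
theorem comp_exists (G : SimpleGraph V) (A : Set V) (x : V) (hx : x ∈ A) :
    ∃ K, IsComp G A K ∧ x ∈ K := by
  let K : Set V := {y | ∃ h : y ∈ A, (G.induce A).Reachable ⟨x, hx⟩ ⟨y, h⟩}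
  have hxK : x ∈ K := ⟨hx, SimpleGraph.Reachable.refl _⟩
  have hclosed : ∀ a ∈ K, ∀ b ∈ A, G.Adj a b → b ∈ K := by
    rintro a ⟨ha, hr⟩ b hb hab
    refine ⟨hb, hr.trans ?_⟩
    exact SimpleGraph.Adj.reachable (G := G.induce A) (u := ⟨a, ha⟩) (v := ⟨b, hb⟩) hab
  have key : ∀ (u v : A), (G.induce A).Walk u v → ∀ hu : u.1 ∈ K, ∃ hv : v.1 ∈ K,
      (G.induce K).Reachable ⟨u.1, hu⟩ ⟨v.1, hv⟩ := by
    intro u v p
    induction p with
    | nil => exact fun hu => ⟨hu, SimpleGraph.Reachable.refl _⟩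
    | @cons u w v h p ih =>
      intro hu
      have hw : w.1 ∈ K := hclosed u.1 hu w.1 w.2 h
      obtain ⟨hv, hr⟩ := ih hw
      refine ⟨hv, SimpleGraph.Reachable.trans ?_ hr⟩
      exact SimpleGraph.Adj.reachable (G := G.induce K) (u := ⟨u.1, hu⟩) (v := ⟨w.1, hw⟩) h
  have hroot : ∀ y : K, (G.induce K).Reachable ⟨x, hxK⟩ y := by
    rintro ⟨y, hy⟩
    obtain ⟨hyA, ⟨p⟩⟩ := id hy
    obtain ⟨_, hr⟩ := key _ _ p hxK
    exact hr
  refine ⟨K, ⟨fun y hy => hy.1, ?_, ?_⟩, hxK⟩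
  · have : Nonempty K := ⟨⟨x, hxK⟩⟩
    exact ⟨fun a b => (hroot a).symm.trans (hroot b)⟩
  · intro a ha b hb hab
    exact hclosed a ha b hb hab

/-- T02b -/
theorem comp_eq (G : SimpleGraph V) (A K K' : Set V) (hK : IsComp G A K) (hK' : IsComp G A K')
    (x : V) (hx : x ∈ K) (hx' : x ∈ K') : K = K' := by
  apply Set.Subset.antisymm
  · exact T02.sub_of_closed G K K' hK.2.1 x hx hx'
      fun a _ haC b hb hab => hK'.2.2 a haC b (hK.1 hb) hab
  · exact T02.sub_of_closed G K' K hK'.2.1 x hx' hx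
      fun a _ haC b hb hab => hK.2.2 a haC b (hK'.1 hb) hab

/-- T02c -/
theorem comp_union (G : SimpleGraph V) (A B K : Set V) (hAB : Disjoint A B)
    (h : ∀ x ∈ A, ∀ y ∈ B, ¬ G.Adj x y) :
    IsComp G (A ∪ B) K ↔ IsComp G A K ∨ IsComp G B K := by
  constructor
  · rintro ⟨h1, h2, h3⟩
    obtain ⟨⟨x, hx⟩⟩ := h2.nonempty
    rcases h1 hx with hxA | hxB
    · left
      have hsub : K ⊆ A := T02.sub_of_closed G K A h2 x hx hxA fun a _ haA b hb hab => by
        rcases h1 hb with hb' | hb'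
        · exact hb'
        · exact absurd hab (h a haA b hb')
      exact ⟨hsub, h2, fun a ha b hb hab => h3 a ha b (Or.inl hb) hab⟩
    · right
      have hsub : K ⊆ B := T02.sub_of_closed G K B h2 x hx hxB fun a _ haB b hb hab => by
        rcases h1 hb with hb' | hb'
        · exact absurd hab.symm (h b hb' a haB)
        · exact hb'
      exact ⟨hsub, h2, fun a ha b hb hab => h3 a ha b (Or.inr hb) hab⟩
  · rintro (⟨h1, h2, h3⟩ | ⟨h1, h2, h3⟩)
    · refine ⟨fun a ha => Or.inl (h1 ha), h2, fun a ha b hb hab => ?_⟩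
      rcases hb with hb | hb
      · exact h3 a ha b hb hab
      · exact absurd hab (h a (h1 ha) b hb)
    · refine ⟨fun a ha => Or.inr (h1 ha), h2, fun a ha b hb hab => ?_⟩
      rcases hb with hb | hb
      · exact absurd hab.symm (h b hb a (h1 ha))
      · exact h3 a ha b hb hab

end Pool.Agent.H416R4.PK
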