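import Pool.Agent.H416R4.PK.Defs
import Pool.Agent.H416R4.PK.T02

set_option autoImplicit false
open Classical

namespace Pool.Agent.H416R4.PK

variable {V : Type*} [Fintype V]

/-- T03 -/
theorem oc_union (G : SimpleGraph V) (A B : Set V) (hAB : Disjoint A B)
    (h : ∀ x ∈ A, ∀ y ∈ B, ¬ G.Adj x y) : oc G (A ∪ B) = oc G A + oc G B := by
  unfold oc
  rw [← Set.ncard_union_eq]
  · congr 1
    ext K
    simp only [Set.mem_ofPred_eq, Set.mem_union]
    rw [comp_union G A B K hAB h]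
    tauto
  · rw [Set.disjoint_left]
    rintro K ⟨hA, _⟩ ⟨hB, _⟩
    obtain ⟨x⟩ := hA.2.1.nonempty
    exact Set.disjoint_left.1 hAB (hA.1 x.2) (hB.1 x.2)

end Pool.Agent.H416R4.PK
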