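import Pool.Agent.H416R4.PK.Defs
import Pool.Agent.H416R4.PK.T02
import Pool.Agent.H416R4.PK.T03

/-!
# T04: the number of odd components has the parity of the number of vertices
-/

set_option autoImplicit false
open Classical

namespace Pool.Agent.H416R4.PK

variable {V : Type*} [Fintype V]


namespace T04

theorem oc_self (G : SimpleGraph V) (A K : Set V) (hK : IsComp G A K) :
    oc G K % 2 = K.ncard % 2 := by
  have hKK : IsComp G K K := ⟨subset_rfl, hK.2.1, fun _ _ y hy _ => hy⟩
  have huniq : ∀ K', IsComp G K K' → K' = K := by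
    intro K' hK'
    obtain ⟨⟨y, hy⟩⟩ := hK'.2.1.nonempty
    exact (comp_eq G K K K' hKK hK' y (hK'.1 hy) hy).symm
  rcases Nat.even_or_odd K.ncard with h | h
  · have e : {K' : Set V | IsComp G K K' ∧ Odd K'.ncard} = ∅ := by
      ext K'
      simp only [Set.mem_setOf_eq, Set.mem_empty_iff_false, iff_false, not_and]
      intro h1 h2
      rw [huniq K' h1] at h2
      exact (Nat.not_even_iff_odd.2 h2) h
    unfold oc
    rw [e, Set.ncard_empty]
    rw [Nat.even_iff] at h
    omega
  · have e : {K' : Set V | IsComp G K K' ∧ Odd K'.ncard} = {K} := by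
      ext K'
      simp only [Set.mem_setOf_eq, Set.mem_singleton_iff]
      constructor
      · rintro ⟨h1, -⟩
        exact huniq K' h1
      · rintro rfl
        exact ⟨hKK, h⟩
    unfold oc
    rw [e, Set.ncard_singleton]
    rw [Nat.odd_iff] at h
    omega

end T04

/-- T04 -/
theorem oc_parity (G : SimpleGraph V) (A : Set V) : oc G A % 2 = A.ncard % 2 := by
  induction hn : A.ncard using Nat.strong_induction_on generalizing A with
  | _ n ih =>
  rcases A.eq_empty_or_nonempty with hA | ⟨x, hx⟩
  · subst hA
    have e : {K : Set V | IsComp G ∅ K ∧ Odd K.ncard} = ∅ := by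
      ext K
      simp only [Set.mem_setOf_eq, Set.mem_empty_iff_false, iff_false, not_and]
      intro h1 h2
      have : K = ∅ := Set.subset_empty_iff.1 h1.1
      rw [this, Set.ncard_empty] at h2
      exact absurd h2 (by decide)
    unfold oc
    rw [e, Set.ncard_empty, ← hn, Set.ncard_empty]
  · obtain ⟨K, hK, hxK⟩ := comp_exists G A x hx
    have hfin : ∀ S : Set V, S.Finite := fun S => Set.toFinite S
    have hu : K ∪ (A \ K) = A := Set.union_diff_cancel hK.1
    have hd : Disjoint K (A \ K) := Set.disjoint_sdiff_right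
    have h1 : oc G A = oc G K + oc G (A \ K) := by
      have h2 := oc_union G K (A \ K) hd (fun a ha b hb hab => hb.2 (hK.2.2 a ha b hb.1 hab))
      rw [hu] at h2
      exact h2
    have h3 : K.ncard + (A \ K).ncard = A.ncard := by
      rw [← Set.ncard_union_eq hd (hfin _) (hfin _), hu]
    have h4 : 0 < K.ncard := (Set.ncard_pos (hfin K)).2 ⟨x, hxK⟩
    have h5 := ih (A \ K).ncard (by omega) (A \ K) rfl
    have h6 := T04.oc_self G A K hK
    omega

end Pool.Agent.H416R4.PK
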