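import Pool.Agent.H416R4.PK.Defs

set_option autoImplicit false
open Classical

namespace Pool.Agent.H416R4.PK

variable {V : Type*} [Fintype V]

namespace T05

theorem no_violator (G : SimpleGraph V) (A : Set V) (h : ∀ T, T ⊆ A → oc G (A \ T) ≤ T.ncard)
    (u : Set A) : ¬ (G.induce A).IsTutteViolator u := by
  intro hu
  unfold SimpleGraph.IsTutteViolator at hu
  set H := ((⊤ : (G.induce A).Subgraph).deleteVerts u).coe with hH
  have hadj : ∀ a b : ((⊤ : (G.induce A).Subgraph).deleteVerts u).verts,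
      H.Adj a b ↔ G.Adj a.1.1 b.1.1 := by
    intro a b
    have ha := a.2
    have hb := b.2
    simp only [SimpleGraph.Subgraph.deleteVerts_verts, SimpleGraph.Subgraph.verts_top,
      Set.mem_sdiff, Set.mem_univ, true_and] at ha hb
    simp [hH, SimpleGraph.Subgraph.deleteVerts_adj, ha, hb]
  let T : Set V := Subtype.val '' u
  have hTA : T ⊆ A := by
    rintro _ ⟨x, -, rfl⟩
    exact x.2
  have hTn : T.ncard = u.ncard := Set.ncard_image_of_injective u Subtype.val_injective
  have hle : H.oddComponents.ncard ≤ oc G (A \ T) := by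
    unfold oc
    refine Set.ncard_le_ncard_of_injOn (fun c => (fun a => a.1.1) '' c.supp) ?_ ?_ (Set.toFinite _)
    · intro c hc
      refine ⟨⟨?_, ?_, ?_⟩, ?_⟩
      · rintro _ ⟨a, -, rfl⟩
        refine ⟨a.1.2, ?_⟩
        rintro ⟨b, hb, hab⟩
        have ha := a.2
        simp only [SimpleGraph.Subgraph.deleteVerts_verts, SimpleGraph.Subgraph.verts_top,
          Set.mem_sdiff, Set.mem_univ, true_and] at ha
        apply ha
        have : a.1 = b := Subtype.ext hab.symm
        rw [this]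
        exact hb
      · have hc1 : (H.induce c.supp).Connected := c.connected_toSimpleGraph
        let φ : H.induce c.supp →g G.induce ((fun a : ((⊤ : (G.induce A).Subgraph).deleteVerts u).verts
            => (a.1.1 : V)) '' c.supp) :=
          ⟨fun a => ⟨a.1.1.1, ⟨a.1, a.2, rfl⟩⟩, by
            intro a b hab
            have : H.Adj a.1 b.1 := hab
            exact (hadj _ _).mp this⟩
        refine hc1.map φ ?_
        rintro ⟨_, a, ha, rfl⟩
        exact ⟨⟨a, ha⟩, rfl⟩
      · rintro _ ⟨a, ha, rfl⟩ y hy hay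
        have hyu : (⟨y, hy.1⟩ : A) ∉ u := by
          intro hh
          exact hy.2 ⟨⟨y, hy.1⟩, hh, rfl⟩
        let b : ((⊤ : (G.induce A).Subgraph).deleteVerts u).verts := ⟨⟨y, hy.1⟩, by
          simp [hyu]⟩
        have hab : H.Adj a b := (hadj a b).mpr hay
        refine ⟨b, ?_, rfl⟩
        rw [SimpleGraph.ConnectedComponent.mem_supp_iff] at ha ⊢
        rw [← ha]
        exact (SimpleGraph.ConnectedComponent.sound hab.reachable).symm
      · have : ((fun a : ((⊤ : (G.induce A).Subgraph).deleteVerts u).verts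
            => (a.1.1 : V)) '' c.supp).ncard = c.supp.ncard :=
          Set.ncard_image_of_injective _ (fun a b hab => Subtype.ext (Subtype.ext hab))
        show Odd _
        rw [this]
        exact hc
    · intro c _ c' _ hcc
      obtain ⟨a, ha⟩ := c.nonempty_supp
      have h1 : (a.1.1 : V) ∈ (fun a : ((⊤ : (G.induce A).Subgraph).deleteVerts u).verts
            => (a.1.1 : V)) '' c'.supp := by
        have h2 : (a.1.1 : V) ∈ (fun a : ((⊤ : (G.induce A).Subgraph).deleteVerts u).verts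
            => (a.1.1 : V)) '' c.supp := ⟨a, ha, rfl⟩
        simp only at hcc
        rw [hcc] at h2
        exact h2
      obtain ⟨a', ha', haa⟩ := h1
      have : a' = a := Subtype.ext (Subtype.ext haa)
      rw [this] at ha'
      rw [SimpleGraph.ConnectedComponent.mem_supp_iff] at ha ha'
      rw [← ha, ← ha']
  have := h T hTA
  omega

end T05

/-- T05 -/
theorem tutte_oc (G : SimpleGraph V) (A : Set V) (h : ∀ T, T ⊆ A → oc G (A \ T) ≤ T.ncard) :
    ∃ p : V → V, ∀ x ∈ A, p x ∈ A ∧ p x ≠ x ∧ p (p x) = x ∧ G.Adj x (p x) := by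
  obtain ⟨M, hM⟩ := (SimpleGraph.tutte (G := G.induce A)).mpr (T05.no_violator G A h)
  have hex : ∀ v : A, ∃ w, M.Adj v w ∧ ∀ w', M.Adj v w' → w' = w := by
    intro v
    obtain ⟨w, hw, hw'⟩ := hM.1 (hM.2 v)
    exact ⟨w, hw, fun w' h' => hw' w' h'⟩
  choose q hq hq' using hex
  refine ⟨fun x => if hx : x ∈ A then (q ⟨x, hx⟩).1 else x, fun x hx => ?_⟩
  have e1 : (if hx : x ∈ A then (q ⟨x, hx⟩).1 else x) = (q ⟨x, hx⟩).1 := by simp [hx]
  have hadj : G.Adj x (q ⟨x, hx⟩).1 := (hq ⟨x, hx⟩).adj_sub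
  have e2 : q (q ⟨x, hx⟩) = ⟨x, hx⟩ := (hq' _ _ (hq ⟨x, hx⟩).symm).symm
  simp only [e1]
  refine ⟨(q ⟨x, hx⟩).2, hadj.ne', ?_, hadj⟩
  simp [e2]

end Pool.Agent.H416R4.PK
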