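import Pool.Agent.H416R4.PK.Defs

set_option autoImplicit false
open Classical

namespace Pool.Agent.H416R4.PK

variable {V : Type*} [Fintype V]

/-- T06 -/
theorem bar_exists (G : SimpleGraph V) : ∃ S, IsBar G S := by
  obtain ⟨S, hS⟩ := Finite.exists_max (fun T : Set V =>
    ((oc G Tᶜ : ℤ) - T.ncard) * ((Fintype.card V : ℤ) + 1) + T.ncard)
  refine ⟨S, fun T => ?_⟩
  have h := hS T
  have hN : ∀ A : Set V, (A.ncard : ℤ) ≤ Fintype.card V := by
    intro A
    have h1 := Set.ncard_le_ncard (Set.subset_univ A) (Set.toFinite _)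
    rw [Set.ncard_univ, Nat.card_eq_fintype_card] at h1
    exact_mod_cast h1
  have h1 := hN S
  have h2 := hN T
  have h3 : (0 : ℤ) ≤ T.ncard := Nat.cast_nonneg _
  have h4 : (0 : ℤ) ≤ S.ncard := Nat.cast_nonneg _
  have h5 : (oc G Tᶜ : ℤ) - T.ncard ≤ (oc G Sᶜ : ℤ) - S.ncard := by
    by_contra hc
    have hc' : (oc G Sᶜ : ℤ) - S.ncard + 1 ≤ (oc G Tᶜ : ℤ) - T.ncard := by
      have := not_le.1 hc
      omega
    have h6 := mul_le_mul_of_nonneg_right hc'
      (show (0 : ℤ) ≤ (Fintype.card V : ℤ) + 1 by positivity)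
    rw [add_mul, one_mul] at h6
    linarith
  refine ⟨by omega, fun h6 => ?_⟩
  have h7 : (oc G Tᶜ : ℤ) - T.ncard = (oc G Sᶜ : ℤ) - S.ncard := by omega
  rw [h7] at h
  omega

end Pool.Agent.H416R4.PK
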