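import Pool.Agent.H416R4.PK.Defs
import Pool.Agent.H416R4.PK.T02
import Pool.Agent.H416R4.PK.T03
import Pool.Agent.H416R4.PK.T04

set_option autoImplicit false
open Classical

namespace Pool.Agent.H416R4.PK


variable {V : Type*} [Fintype V]

/-- T07 -/
theorem bar_odd (G : SimpleGraph V) (S K : Set V) (hb : IsBar G S) (hK : IsComp G Sᶜ K) :
    Odd K.ncard := by
  by_contra hodd
  rw [Nat.not_odd_iff_even] at hodd
  obtain ⟨⟨v, hv⟩⟩ := hK.2.1.nonempty
  have hvS : v ∉ S := hK.1 hv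
  have hno : ∀ x ∈ Sᶜ \ K, ∀ y ∈ K, ¬ G.Adj x y := fun x hx y hy h =>
    hx.2 (hK.2.2 y hy x hx.1 h.symm)
  have e1 : Sᶜ = (Sᶜ \ K) ∪ K := (Set.sdiff_union_of_subset hK.1).symm
  have e2 : (insert v S)ᶜ = (Sᶜ \ K) ∪ (K \ {v}) := by
    ext x
    simp only [Set.mem_compl_iff, Set.mem_insert_iff, Set.mem_union, Set.mem_sdiff,
      Set.mem_singleton_iff, not_or]
    constructor
    · rintro ⟨h1, h2⟩
      by_cases hx : x ∈ K
      · exact Or.inr ⟨hx, h1⟩
      · exact Or.inl ⟨h2, hx⟩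
    · rintro (⟨h1, h2⟩ | ⟨h1, h2⟩)
      · refine ⟨?_, h1⟩
        rintro rfl
        exact h2 hv
      · exact ⟨h2, hK.1 h1⟩
  have d1 : Disjoint (Sᶜ \ K) K := Set.disjoint_sdiff_left
  have d2 : Disjoint (Sᶜ \ K) (K \ {v}) := d1.mono_right Set.sdiff_subset
  have o1 := oc_union G (Sᶜ \ K) K d1 hno
  have o2 := oc_union G (Sᶜ \ K) (K \ {v}) d2 (fun x hx y hy => hno x hx y hy.1)
  rw [← e1] at o1
  rw [← e2] at o2
  have hKK : IsComp G K K := ⟨subset_rfl, hK.2.1, fun x _ y hy _ => hy⟩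
  have o3 : oc G K = 0 := by
    unfold oc
    rw [Set.ncard_eq_zero (Set.toFinite _), Set.eq_empty_iff_forall_notMem]
    rintro K' ⟨h1, h2⟩
    obtain ⟨⟨x, hx⟩⟩ := h1.2.1.nonempty
    have := comp_eq G K K K' hKK h1 x (h1.1 hx) hx
    rw [← this] at h2
    exact (Nat.not_even_iff_odd.2 h2) hodd
  have hc : (K \ {v}).ncard + 1 = K.ncard := Set.ncard_sdiff_singleton_add_one hv (Set.toFinite _)
  have o4 := oc_parity G (K \ {v})
  have hT : (insert v S).ncard = S.ncard + 1 := Set.ncard_insert_of_notMem hvS (Set.toFinite _)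
  have hb2 := (hb (insert v S)).2
  have o5 : 1 ≤ oc G (K \ {v}) := by
    obtain ⟨r, hr⟩ := hodd
    omega
  have := hb2 (by omega)
  omega

end Pool.Agent.H416R4.PK
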