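import Pool.Agent.H416R4.PK.Defs
import Pool.Agent.H416R4.PK.T02
import Pool.Agent.H416R4.PK.T03
import Pool.Agent.H416R4.PK.T04
import Pool.Agent.H416R4.PK.T05
import Pool.Agent.H416R4.PK.T07

set_option autoImplicit false
open Classical

namespace Pool.Agent.H416R4.PK


variable {V : Type*} [Fintype V]

namespace T08

theorem oc_self_le (G : SimpleGraph V) (A K : Set V) (hK : IsComp G A K) : oc G K ≤ 1 := by
  have hKK : IsComp G K K := ⟨subset_rfl, hK.2.1, fun _ _ _ hy _ => hy⟩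
  have h : {K' : Set V | IsComp G K K' ∧ Odd K'.ncard} ⊆ {K} := by
    rintro K' ⟨h1, _⟩
    rw [Set.mem_singleton_iff]
    obtain ⟨⟨x, hx⟩⟩ := h1.2.1.nonempty
    exact comp_eq G K K' K h1 hKK x hx (h1.1 hx)
  unfold oc
  exact (Set.ncard_le_ncard h (Set.toFinite _)).trans (Set.ncard_singleton K).le

end T08

/-- T08 -/
theorem bar_crit (G : SimpleGraph V) (S K : Set V) (hb : IsBar G S) (hK : IsComp G Sᶜ K)
    (v : V) (hv : v ∈ K) :
    ∃ p : V → V, ∀ x ∈ K \ {v}, p x ∈ K \ {v} ∧ p x ≠ x ∧ p (p x) = x ∧ G.Adj x (p x) := by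
  apply tutte_oc
  intro T hT
  by_contra hcon
  push Not at hcon
  have hKodd := bar_odd G S K hb hK
  have hvS : v ∉ S := hK.1 hv
  -- parity
  have hpar := oc_parity G ((K \ {v}) \ T)
  have hc1 : (K \ {v}).ncard + 1 = K.ncard := Set.ncard_diff_singleton_add_one hv (Set.toFinite _)
  have hc2 : ((K \ {v}) \ T).ncard + T.ncard = (K \ {v}).ncard :=
    Set.ncard_diff_add_ncard_of_subset hT (Set.toFinite _)
  have hge : T.ncard + 2 ≤ oc G ((K \ {v}) \ T) := by
    have h1 := Nat.odd_iff.1 hKodd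
    omega
  -- the new set
  set T' : Set V := S ∪ {v} ∪ T with hT'
  have hTK : ∀ x ∈ T, x ∈ K ∧ x ≠ v := fun x hx => ⟨(hT hx).1, (hT hx).2⟩
  have hcompl : T'ᶜ = (Sᶜ \ K) ∪ ((K \ {v}) \ T) := by
    ext x
    have hxK : x ∈ K → x ∉ S := fun h => hK.1 h
    have hxT : x ∈ T → x ∈ K := fun h => (hTK x h).1
    have hxv : x = v → x ∈ K := fun h => h ▸ hv
    simp only [hT', Set.mem_compl_iff, Set.mem_union, Set.mem_singleton_iff, Set.mem_diff]
    tauto
  have hsplit : Sᶜ = (Sᶜ \ K) ∪ K := by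
    rw [Set.diff_union_of_subset hK.1]
  have hno : ∀ x ∈ Sᶜ \ K, ∀ y ∈ K, ¬ G.Adj x y := by
    intro x hx y hy hxy
    exact hx.2 (hK.2.2 y hy x hx.1 hxy.symm)
  have ho1 : oc G T'ᶜ = oc G (Sᶜ \ K) + oc G ((K \ {v}) \ T) := by
    rw [hcompl]
    apply oc_union
    · rw [Set.disjoint_left]
      intro x hx hx'
      exact hx.2 hx'.1.1
    · intro x hx y hy
      exact hno x hx y hy.1.1
  have ho2 : oc G Sᶜ = oc G (Sᶜ \ K) + oc G K := by
    conv_lhs => rw [hsplit]
    apply oc_union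
    · exact Set.disjoint_sdiff_left
    · exact hno
  have ho3 := T08.oc_self_le G Sᶜ K hK
  have hcard : T'.ncard ≤ S.ncard + 1 + T.ncard := by
    have h1 := Set.ncard_union_le (S ∪ {v}) T
    have h2 := Set.ncard_union_le S {v}
    rw [Set.ncard_singleton] at h2
    rw [hT']
    exact h1.trans (by omega)
  have hcard' : S.ncard + 1 ≤ T'.ncard := by
    have h1 : insert v S ⊆ T' := by
      intro x hx
      rcases hx with rfl | hx
      · exact Or.inl (Or.inr rfl)
      · exact Or.inl (Or.inl hx)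
    have h2 := Set.ncard_le_ncard h1 (Set.toFinite _)
    rw [Set.ncard_insert_of_notMem hvS (Set.toFinite _)] at h2
    exact h2
  have hfin := (hb T').2 (by
    clear_value T'
    omega)
  clear_value T'
  omega

end Pool.Agent.H416R4.PK
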