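import Pool.Agent.H416R4.PK.Defs
import Pool.Agent.H416R4.PK.T02
import Pool.Agent.H416R4.PK.T03
import Pool.Agent.H416R4.PK.T07

set_option autoImplicit false
open Classical

namespace Pool.Agent.H416R4.PK

variable {V : Type*} [Fintype V]

/-- T09 (helper553) -/
theorem bar_hall (G : SimpleGraph V) (S A : Set V) (hb : IsBar G S) (hA : A ⊆ S) :
    A.ncard ≤ {K | IsComp G Sᶜ K ∧ ∃ x ∈ K, ∃ s ∈ A, G.Adj s x}.ncard := by
  obtain ⟨N, hN⟩ : ∃ N : Set (Set V),
    N = {K | IsComp G Sᶜ K ∧ ∃ x ∈ K, ∃ s ∈ A, G.Adj s x} := ⟨_, rfl⟩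
  obtain ⟨M, hM⟩ : ∃ M : Set (Set V), M = {K | IsComp G Sᶜ K ∧ K ∉ N} := ⟨_, rfl⟩
  obtain ⟨B, hB⟩ : ∃ B : Set V, B = {x | ∃ K ∈ M, x ∈ K} := ⟨_, rfl⟩
  obtain ⟨C, hC⟩ : ∃ C : Set V, C = A ∪ {x | x ∉ S ∧ x ∉ B} := ⟨_, rfl⟩
  rw [← hN]
  have hBS : B ⊆ Sᶜ := by
    intro x hx
    rw [hB] at hx
    obtain ⟨K, hK, hxK⟩ := hx
    rw [hM] at hK
    exact hK.1.1 hxK
  have hdisj : Disjoint B C := by
    rw [Set.disjoint_left]
    intro x hx hx'
    rw [hC] at hx'
    rcases hx' with h | h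
    · exact hBS hx (hA h)
    · exact h.2 hx
  have hBC : B ∪ C = (S \ A)ᶜ := by
    ext x
    simp only [Set.mem_union, Set.mem_compl_iff, Set.mem_diff, not_and, not_not]
    constructor
    · rintro (h | h)
      · intro hS
        exact absurd hS (hBS h)
      · rw [hC] at h
        rcases h with h | h
        · intro _
          exact h
        · intro hS
          exact absurd hS h.1
    · intro h
      by_cases hS : x ∈ S
      · right
        rw [hC]
        exact Or.inl (h hS)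
      · by_cases hxB : x ∈ B
        · exact Or.inl hxB
        · right
          rw [hC]
          exact Or.inr ⟨hS, hxB⟩
  have hne : ∀ x ∈ B, ∀ y ∈ C, ¬ G.Adj x y := by
    intro x hx y hy hxy
    have hx' := hx
    rw [hB] at hx'
    obtain ⟨K, hK, hxK⟩ := hx'
    have hK' := hK
    rw [hM] at hK'
    rw [hC] at hy
    rcases hy with h | h
    · apply hK'.2
      rw [hN]
      exact ⟨hK'.1, x, hxK, y, h, hxy.symm⟩
    · apply h.2
      rw [hB]
      exact ⟨K, hK, hK'.1.2.2 x hxK y h.1 hxy⟩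
  have h1 := oc_union G B C hdisj hne
  rw [hBC] at h1
  -- components of `B`
  have h2 : M.ncard ≤ oc G B := by
    unfold oc
    apply Set.ncard_le_ncard _ (Set.toFinite _)
    intro K hK
    have hK' := hK
    rw [hM] at hK'
    refine ⟨⟨?_, hK'.1.2.1, ?_⟩, bar_odd G S K hb hK'.1⟩
    · intro x hx
      rw [hB]
      exact ⟨K, hK, hx⟩
    · intro x hx y hy hxy
      exact hK'.1.2.2 x hx y (hBS hy) hxy
  have h3 : oc G Sᶜ = N.ncard + M.ncard := by
    have hU : {K : Set V | IsComp G Sᶜ K ∧ Odd K.ncard} = N ∪ M := by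
      ext K
      constructor
      · intro hK
        by_cases hKN : K ∈ N
        · exact Or.inl hKN
        · right
          rw [hM]
          exact ⟨hK.1, hKN⟩
      · rintro (hK | hK)
        · rw [hN] at hK
          exact ⟨hK.1, bar_odd G S K hb hK.1⟩
        · rw [hM] at hK
          exact ⟨hK.1, bar_odd G S K hb hK.1⟩
    unfold oc
    rw [hU]
    apply Set.ncard_union_eq _ (Set.toFinite _) (Set.toFinite _)
    rw [Set.disjoint_left]
    intro K hK hK'
    rw [hM] at hK'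
    exact hK'.2 hK
  have h4 := (hb (S \ A)).1
  have h5 : (S \ A).ncard + A.ncard = S.ncard := Set.ncard_diff_add_ncard_of_subset hA (Set.toFinite _)
  omega

end Pool.Agent.H416R4.PK
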