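import Pool.Agent.H416R4.PK.Defs

set_option autoImplicit false
open Classical

namespace Pool.Agent.H416R4.PK

namespace T10

inductive ZZ {α β : Type*} (B : Set β) (f : α → β) (g : β → α) : β → Prop
  | base (b : β) (hb : b ∈ B) (h : ∀ a, f a ≠ b) : ZZ B f g b
  | step (b b' : β) (hb : b ∈ B) (h : ZZ B f g b') (e : f (g b') = b) : ZZ B f g b

theorem ZZ.mem {α β : Type*} {B : Set β} {f : α → β} {g : β → α} {b : β} (h : ZZ B f g b) :
    b ∈ B := by
  cases h with
  | base _ hb _ => exact hb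
  | step _ _ hb _ _ => exact hb

end T10

open T10 in
/-- T10 -/
theorem md {α β : Type*} (r : α → β → Prop) (B : Set β) (f : α → β)
    (hf : Function.Injective f) (hr : ∀ a, r a (f a)) (g : β → α) (hg : Set.InjOn g B)
    (hgr : ∀ b ∈ B, r (g b) b) :
    ∃ h : α → β, Function.Injective h ∧ (∀ a, r a (h a)) ∧ ∀ b ∈ B, ∃ a, h a = b := by
  let h : α → β := fun a => if H : ∃ b, ZZ B f g b ∧ g b = a then H.choose else f a
  have h1 : ∀ b, ZZ B f g b → h (g b) = b := by
    intro b hb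
    have H : ∃ b', ZZ B f g b' ∧ g b' = g b := ⟨b, hb, rfl⟩
    have e : h (g b) = H.choose := dif_pos H
    rw [e]
    exact hg H.choose_spec.1.mem hb.mem H.choose_spec.2
  have h2 : ∀ a, (¬ ∃ b, ZZ B f g b ∧ g b = a) → h a = f a := fun a H => dif_neg H
  have h3 : ∀ a, (∃ b, ZZ B f g b ∧ g b = a ∧ h a = b) ∨
      ((¬ ∃ b, ZZ B f g b ∧ g b = a) ∧ h a = f a) := by
    intro a
    by_cases H : ∃ b, ZZ B f g b ∧ g b = a
    · obtain ⟨b, hb, rfl⟩ := H
      exact Or.inl ⟨b, hb, rfl, h1 b hb⟩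
    · exact Or.inr ⟨H, h2 a H⟩
  have key : ∀ a b, ZZ B f g b → f a = b → ∃ b', ZZ B f g b' ∧ g b' = a := by
    intro a b hb hab
    cases hb with
    | base _ _ h => exact absurd hab (h a)
    | step _ b' _ hb' e => exact ⟨b', hb', hf (e.trans hab.symm)⟩
  refine ⟨h, ?_, ?_, ?_⟩
  · intro a a' haa
    rcases h3 a with ⟨b, hb, hga, hha⟩ | ⟨H, hha⟩ <;>
      rcases h3 a' with ⟨b', hb', hga', hha'⟩ | ⟨H', hha'⟩
    · rw [← hga, ← hga', ← hha, ← hha', haa]
    · exfalso
      apply H'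
      exact key a' b hb (by rw [← hha', ← haa, hha])
    · exfalso
      apply H
      exact key a b' hb' (by rw [← hha, haa, hha'])
    · exact hf (by rw [← hha, ← hha', haa])
  · intro a
    rcases h3 a with ⟨b, hb, hga, hha⟩ | ⟨H, hha⟩
    · rw [hha, ← hga]; exact hgr b hb.mem
    · rw [hha]; exact hr a
  · intro b hb
    by_cases hz : ZZ B f g b
    · exact ⟨g b, h1 b hz⟩
    · by_cases hfa : ∃ a, f a = b
      · obtain ⟨a, ha⟩ := hfa
        refine ⟨a, ?_⟩
        rw [h2 a, ha]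
        rintro ⟨b', hb', hgb⟩
        exact hz (ZZ.step b b' hb hb' (by rw [hgb, ha]))
      · push Not at hfa
        exact absurd (ZZ.base b hb hfa) hz

end Pool.Agent.H416R4.PK
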