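import Pool.Agent.H416R4.PK.Defs
import Pool.Agent.H416R4.PK.T02
import Pool.Agent.H416R4.PK.T09
import Pool.Agent.H416R4.PK.T10

/-! T11: matching the separator into the components. -/

set_option autoImplicit false
open Classical

namespace Pool.Agent.H416R4.PK


namespace T11

variable {V : Type*} [Fintype V]

theorem hall1 (G : SimpleGraph V) (S : Set V) (hb : IsBar G S) :
    ∃ f : S → {K : Set V // IsComp G Sᶜ K}, Function.Injective f ∧
      ∀ s : S, ∃ x ∈ (f s).1, G.Adj s.1 x := by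
  have h := (Finset.all_card_le_biUnion_card_iff_exists_injective
    (fun s : S => (Finset.univ : Finset {K : Set V // IsComp G Sᶜ K}).filter
      (fun K => ∃ x ∈ K.1, G.Adj s.1 x))).1 (by
    intro A
    have h1 := bar_hall G S (Subtype.val '' (A : Set S)) hb (by
      rintro _ ⟨s, _, rfl⟩; exact s.2)
    rw [Set.ncard_image_of_injective _ Subtype.val_injective, Set.ncard_coe_finset] at h1
    refine h1.trans (le_of_eq ?_)
    rw [← Set.ncard_coe_finset, ← Set.ncard_image_of_injective _ Subtype.val_injective]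
    congr 1
    ext K
    constructor
    · rintro ⟨hK, x, hx, s, ⟨s', hs', rfl⟩, hadj⟩
      refine ⟨⟨K, hK⟩, ?_, rfl⟩
      rw [Finset.mem_coe, Finset.mem_biUnion]
      exact ⟨s', hs', Finset.mem_filter.2 ⟨Finset.mem_univ _, x, hx, hadj⟩⟩
    · rintro ⟨K', hK', rfl⟩
      rw [Finset.mem_coe, Finset.mem_biUnion] at hK'
      obtain ⟨s', hs', h2⟩ := hK'
      obtain ⟨x, hx, hadj⟩ := (Finset.mem_filter.1 h2).2
      exact ⟨K'.2, x, hx, s'.1, ⟨s', hs', rfl⟩, hadj⟩)
  obtain ⟨f, hf, hfm⟩ := h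
  exact ⟨f, hf, fun s => (Finset.mem_filter.1 (hfm s)).2⟩

theorem hall2 (G : SimpleGraph V) (hd : ∀ x, dg G x ≤ 3) (S : Set V) :
    ∃ g : {K : {K : Set V // IsComp G Sᶜ K} // 3 ≤ ec G K.1 S} → S, Function.Injective g ∧
      ∀ K, ∃ x ∈ K.1.1, G.Adj (g K).1 x := by
  have h := (Finset.all_card_le_biUnion_card_iff_exists_injective
    (fun K : {K : {K : Set V // IsComp G Sᶜ K} // 3 ≤ ec G K.1 S} =>
      (Finset.univ : Finset S).filter (fun s => ∃ x ∈ K.1.1, G.Adj s.1 x))).1 (by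
    intro Q
    set N := Q.biUnion (fun K : {K : {K : Set V // IsComp G Sᶜ K} // 3 ≤ ec G K.1 S} =>
      (Finset.univ : Finset S).filter (fun s => ∃ x ∈ K.1.1, G.Adj s.1 x)) with hN
    set P : {K : {K : Set V // IsComp G Sᶜ K} // 3 ≤ ec G K.1 S} → Finset (V × V) := fun K =>
      Finset.univ.filter (fun p : V × V => p.1 ∈ K.1.1 ∧ p.2 ∈ S ∧ G.Adj p.1 p.2) with hP
    have hPc : ∀ K, 3 ≤ (P K).card := by
      intro K
      have h1 := K.2
      unfold ec at h1
      have h2 : {p : V × V | p.1 ∈ K.1.1 ∧ p.2 ∈ S ∧ G.Adj p.1 p.2} = ((P K : Finset (V × V)) : Set (V × V)) := by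
        ext p; simp [hP]
      rw [h2, Set.ncard_coe_finset] at h1
      exact h1
    have hdisj : ∀ K ∈ Q, ∀ K' ∈ Q, K ≠ K' → Disjoint (P K) (P K') := by
      intro K _ K' _ hne
      rw [Finset.disjoint_left]
      intro p hp hp'
      apply hne
      have e := comp_eq G Sᶜ K.1.1 K'.1.1 K.1.2 K'.1.2 p.1 (Finset.mem_filter.1 hp).2.1
        (Finset.mem_filter.1 hp').2.1
      exact Subtype.ext (Subtype.ext e)
    have h1 : 3 * Q.card ≤ (Q.biUnion P).card := by
      rw [Finset.card_biUnion hdisj]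
      calc 3 * Q.card = ∑ _K ∈ Q, 3 := by rw [Finset.sum_const, smul_eq_mul, mul_comm]
        _ ≤ ∑ K ∈ Q, (P K).card := Finset.sum_le_sum fun K _ => hPc K
    have h2 : Q.biUnion P ⊆ N.biUnion (fun s : S =>
        (Finset.univ.filter (fun x => G.Adj s.1 x)).image (fun x => (x, s.1))) := by
      intro p hp
      rw [Finset.mem_biUnion] at hp
      obtain ⟨K, hK, hp⟩ := hp
      obtain ⟨_, h3, h4, h5⟩ := Finset.mem_filter.1 hp
      rw [Finset.mem_biUnion]
      refine ⟨⟨p.2, h4⟩, ?_, ?_⟩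
      · rw [hN, Finset.mem_biUnion]
        exact ⟨K, hK, Finset.mem_filter.2 ⟨Finset.mem_univ _, p.1, h3, h5.symm⟩⟩
      · rw [Finset.mem_image]
        exact ⟨p.1, Finset.mem_filter.2 ⟨Finset.mem_univ _, h5.symm⟩, rfl⟩
    have h3 : (N.biUnion (fun s : S =>
        (Finset.univ.filter (fun x => G.Adj s.1 x)).image (fun x => (x, s.1)))).card ≤
        3 * N.card := by
      refine Finset.card_biUnion_le.trans ?_
      calc ∑ s ∈ N, ((Finset.univ.filter (fun x => G.Adj s.1 x)).image (fun x => (x, s.1))).card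
          ≤ ∑ _s ∈ N, 3 := by
            refine Finset.sum_le_sum fun s _ => Finset.card_image_le.trans ?_
            have h4 := hd s.1
            unfold dg at h4
            have h5 : G.neighborSet s.1 = ((Finset.univ.filter (fun x => G.Adj s.1 x) : Finset V) : Set V) := by
              ext x; simp
            rw [h5, Set.ncard_coe_finset] at h4
            exact h4
        _ = 3 * N.card := by rw [Finset.sum_const, smul_eq_mul, mul_comm]
    have h4 := (h1.trans (Finset.card_le_card h2)).trans h3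
    omega)
  obtain ⟨f, hf, hfm⟩ := h
  exact ⟨f, hf, fun s => (Finset.mem_filter.1 (hfm s)).2⟩

end T11

variable {V : Type*} [Fintype V]

/-- T11 -/
theorem match_comps (G : SimpleGraph V) (hd : ∀ x, dg G x ≤ 3) (S : Set V) (hb : IsBar G S) :
    ∃ φ : V → Set V, (∀ s ∈ S, IsComp G Sᶜ (φ s) ∧ ∃ x ∈ φ s, G.Adj s x) ∧
      (∀ s ∈ S, ∀ t ∈ S, φ s = φ t → s = t) ∧
      ∀ K, IsComp G Sᶜ K → 3 ≤ ec G K S → ∃ s ∈ S, φ s = K := by
  rcases S.eq_empty_or_nonempty with hS | ⟨s0, hs0⟩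
  · subst hS
    refine ⟨fun _ => ∅, fun s hs => absurd hs (Set.notMem_empty s),
      fun s hs => absurd hs (Set.notMem_empty s), ?_⟩
    intro K _ h
    exfalso
    unfold ec at h
    have h1 : {p : V × V | p.1 ∈ K ∧ p.2 ∈ (∅ : Set V) ∧ G.Adj p.1 p.2} = ∅ := by
      ext p; simp
    rw [h1, Set.ncard_empty] at h
    omega
  · obtain ⟨f, hf, hfr⟩ := T11.hall1 G S hb
    obtain ⟨g, hg, hgr⟩ := T11.hall2 G hd S
    obtain ⟨h, hh, hhr, hhB⟩ := md (fun (s : S) (K : {K : Set V // IsComp G Sᶜ K}) =>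
        ∃ x ∈ K.1, G.Adj s.1 x) {K | 3 ≤ ec G K.1 S} f hf hfr
      (fun K => if hK : 3 ≤ ec G K.1 S then g ⟨K, hK⟩ else ⟨s0, hs0⟩) (by
        intro K hK K' hK' he
        have hK1 : 3 ≤ ec G K.1 S := hK
        have hK1' : 3 ≤ ec G K'.1 S := hK'
        simp only [dif_pos hK1, dif_pos hK1'] at he
        have := hg he
        exact congrArg Subtype.val this) (by
        intro K hK
        have hK1 : 3 ≤ ec G K.1 S := hK
        simp only [dif_pos hK1]
        exact hgr ⟨K, hK1⟩)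
    refine ⟨fun s => if hs : s ∈ S then (h ⟨s, hs⟩).1 else ∅, ?_, ?_, ?_⟩
    · intro s hs
      simp only [dif_pos hs]
      exact ⟨(h ⟨s, hs⟩).2, hhr ⟨s, hs⟩⟩
    · intro s hs t ht he
      simp only [dif_pos hs, dif_pos ht] at he
      have := hh (Subtype.ext he)
      exact congrArg Subtype.val this
    · intro K hK h3
      obtain ⟨a, ha⟩ := hhB ⟨K, hK⟩ h3
      refine ⟨a.1, a.2, ?_⟩
      simp only [dif_pos a.2]
      have : (⟨a.1, a.2⟩ : S) = a := rfl
      rw [this, ha]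

end Pool.Agent.H416R4.PK
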