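import Pool.Agent.H416R4.PK.Defs

set_option autoImplicit false
open Classical

namespace Pool.Agent.H416R4.PK

variable {V : Type*} [Fintype V]

namespace T12

theorem even_inv {α : Type*} (s : Finset α) (g : α → α) (h1 : ∀ a ∈ s, g a ∈ s)
    (h2 : ∀ a ∈ s, g (g a) = a) (h3 : ∀ a ∈ s, g a ≠ a) : Even s.card := by
  have h : ∏ _x ∈ s, (-1 : ℤ) = 1 :=
    Finset.prod_involution (fun a _ => g a) (fun a ha => by norm_num)
      (fun a ha _ => h3 a ha) (fun a ha => h1 a ha) (fun a ha => h2 a ha)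
  rw [Finset.prod_const] at h
  exact (neg_one_pow_eq_one_iff_even (by norm_num)).1 h

theorem sum_fib (G : SimpleGraph V) (K : Set V) (d : ℕ) (hd : ∀ x ∈ K, dg G x = d) :
    {p : V × V | p.1 ∈ K ∧ G.Adj p.1 p.2}.ncard = K.ncard * d := by
  rw [Set.ncard_eq_toFinset_card', Set.ncard_eq_toFinset_card']
  rw [Finset.card_eq_sum_card_fiberwise (f := Prod.fst) (t := K.toFinset)]
  · rw [Finset.sum_const_nat]
    intro x hx
    have hxK : x ∈ K := Set.mem_toFinset.1 hx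
    rw [← hd x hxK]
    unfold dg
    rw [Set.ncard_eq_toFinset_card']
    refine Finset.card_bij' (fun p _ => p.2) (fun y _ => (x, y)) ?_ ?_ ?_ ?_
    · intro p hp
      rw [Finset.mem_filter, Set.mem_toFinset] at hp
      obtain ⟨⟨h1, h2⟩, h3⟩ := hp
      rw [Set.mem_toFinset]
      rw [← h3]
      exact h2
    · intro y hy
      rw [Set.mem_toFinset] at hy
      rw [Finset.mem_filter, Set.mem_toFinset]
      exact ⟨⟨hxK, hy⟩, rfl⟩
    · intro p hp
      rw [Finset.mem_filter] at hp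
      exact Prod.ext hp.2.symm rfl
    · intro y hy
      rfl
  · intro p hp
    have hp' := Set.mem_toFinset.1 hp
    exact Set.mem_toFinset.2 hp'.1

end T12

theorem exists_low (G : SimpleGraph V) (hd : ∀ x, dg G x ≤ 3) (S K : Set V)
    (hK : IsComp G Sᶜ K) (ho : Odd K.ncard) (he : Even (ec G K S)) : ∃ x ∈ K, dg G x ≤ 2 := by
  by_contra hcon
  push Not at hcon
  have h3 : ∀ x ∈ K, dg G x = 3 := fun x hx => le_antisymm (hd x) (hcon x hx)
  have h1 := T12.sum_fib G K 3 h3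
  have h2 : {p : V × V | p.1 ∈ K ∧ G.Adj p.1 p.2} =
      {p : V × V | p.1 ∈ K ∧ p.2 ∈ K ∧ G.Adj p.1 p.2} ∪
      {p : V × V | p.1 ∈ K ∧ p.2 ∈ S ∧ G.Adj p.1 p.2} := by
    ext p
    constructor
    · rintro ⟨ha, hb⟩
      by_cases hS : p.2 ∈ S
      · exact Or.inr ⟨ha, hS, hb⟩
      · exact Or.inl ⟨ha, hK.2.2 p.1 ha p.2 hS hb, hb⟩
    · rintro (⟨ha, _, hb⟩ | ⟨ha, _, hb⟩)
      · exact ⟨ha, hb⟩
      · exact ⟨ha, hb⟩
  have hdisj : Disjoint {p : V × V | p.1 ∈ K ∧ p.2 ∈ K ∧ G.Adj p.1 p.2}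
      {p : V × V | p.1 ∈ K ∧ p.2 ∈ S ∧ G.Adj p.1 p.2} := by
    rw [Set.disjoint_left]
    rintro p ⟨_, hb, _⟩ ⟨_, hc, _⟩
    exact hK.1 hb hc
  rw [h2, Set.ncard_union_eq hdisj (Set.toFinite _) (Set.toFinite _)] at h1
  have h4 : Even {p : V × V | p.1 ∈ K ∧ p.2 ∈ K ∧ G.Adj p.1 p.2}.ncard := by
    rw [Set.ncard_eq_toFinset_card']
    refine T12.even_inv _ Prod.swap ?_ ?_ ?_
    · intro p hp
      have hp' := Set.mem_toFinset.1 hp
      exact Set.mem_toFinset.2 ⟨hp'.2.1, hp'.1, hp'.2.2.symm⟩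
    · intro p _
      exact Prod.swap_swap p
    · intro p hp heq
      have hp' := Set.mem_toFinset.1 hp
      have : p.2 = p.1 := congrArg Prod.fst heq
      exact hp'.2.2.ne this.symm
  have h5 : Even (K.ncard * 3) := by
    rw [← h1]
    exact h4.add he
  have h6 : Odd (K.ncard * 3) := ho.mul (by decide)
  exact (Nat.not_even_iff_odd.2 h6) h5

end Pool.Agent.H416R4.PK
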