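import Pool.Agent.H416R4.PK.Defs
import Pool.Agent.H416R4.PK.T02
import Pool.Agent.H416R4.PK.T06
import Pool.Agent.H416R4.PK.T07
import Pool.Agent.H416R4.PK.T08
import Pool.Agent.H416R4.PK.T11
import Pool.Agent.H416R4.PK.T12

set_option autoImplicit false
open Classical

namespace Pool.Agent.H416R4.PK


variable {V : Type*} [Fintype V]

namespace T13

/-- the set of edges from `K` to `S` -/
def Ed (G : SimpleGraph V) (K S : Set V) : Set (V × V) :=
  {p : V × V | p.1 ∈ K ∧ p.2 ∈ S ∧ G.Adj p.1 p.2}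

/-- the property of the root of a component -/
def P (G : SimpleGraph V) (S : Set V) (φ : V → Set V) (K : Set V) (x : V) : Prop :=
  x ∈ K ∧ ((∃ s ∈ S, φ s = K ∧ G.Adj s x) ∨ ((∀ s ∈ S, φ s ≠ K) ∧ dg G x ≤ 2) ∨
    ((∀ s ∈ S, φ s ≠ K) ∧ ∃ v ∈ S, Ed G K S = {(x, v)}))

theorem exists_root (G : SimpleGraph V) (hd : ∀ x, dg G x ≤ 3) (S : Set V) (hb : IsBar G S)
    (φ : V → Set V) (h1 : ∀ s ∈ S, IsComp G Sᶜ (φ s) ∧ ∃ x ∈ φ s, G.Adj s x)
    (h3 : ∀ K, IsComp G Sᶜ K → 3 ≤ ec G K S → ∃ s ∈ S, φ s = K)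
    (K : Set V) (hK : IsComp G Sᶜ K) : ∃ x, P G S φ K x := by
  by_cases hm : ∃ s ∈ S, φ s = K
  · obtain ⟨s, hs, rfl⟩ := hm
    obtain ⟨-, x, hx, hax⟩ := h1 s hs
    exact ⟨x, hx, Or.inl ⟨s, hs, rfl, hax⟩⟩
  · have hm' : ∀ s ∈ S, φ s ≠ K := fun s hs h => hm ⟨s, hs, h⟩
    have he : ec G K S < 3 := by
      by_contra hcon
      exact hm (h3 K hK (by omega))
    by_cases h1 : ec G K S = 1
    · have h2 : (Ed G K S).ncard = 1 := h1
      obtain ⟨p, hp⟩ := Set.ncard_eq_one.1 h2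
      have hpm : p ∈ Ed G K S := by
        rw [hp]
        exact Set.mem_singleton p
      exact ⟨p.1, hpm.1, Or.inr (Or.inr ⟨hm', p.2, hpm.2.1, hp⟩)⟩
    · have hev : Even (ec G K S) := by
        have : ec G K S = 0 ∨ ec G K S = 2 := by omega
        rcases this with h | h <;> rw [h] <;> decide
      obtain ⟨x, hx, hx2⟩ := exists_low G hd S K hK (bar_odd G S K hb hK) hev
      exact ⟨x, hx, Or.inr (Or.inl ⟨hm', hx2⟩)⟩

theorem main (G : SimpleGraph V) (hd : ∀ x, dg G x ≤ 3) [Nonempty V] :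
    ∃ (m vv : V → V) (U : Set V) (K : V → Set V), Str G m vv U K := by
  obtain ⟨S, hb⟩ := bar_exists G
  obtain ⟨φ, hφ1, hφ2, hφ3⟩ := match_comps G hd S hb
  have hroot := exists_root G hd S hb φ hφ1 hφ3
  choose! root hrt using hroot
  have hp : ∀ K, IsComp G Sᶜ K → ∃ p : V → V, ∀ x ∈ K \ {root K},
      p x ∈ K \ {root K} ∧ p x ≠ x ∧ p (p x) = x ∧ G.Adj x (p x) :=
    fun K hK => bar_crit G S K hb hK (root K) (hrt K hK).1
  choose! p hpp using hp
  have hcomp : ∀ x, x ∉ S → ∃ K, IsComp G Sᶜ K ∧ x ∈ K := fun x hx => comp_exists G Sᶜ x hx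
  choose! comp hcmp hcm using hcomp
  -- facts
  have hsub : ∀ K, IsComp G Sᶜ K → ∀ x ∈ K, x ∉ S := fun K hK x hx => hK.1 hx
  have heq : ∀ K, IsComp G Sᶜ K → ∀ x ∈ K, comp x = K := fun K hK x hx =>
    comp_eq G Sᶜ (comp x) K (hcmp x (hsub K hK x hx)) hK x (hcm x (hsub K hK x hx)) hx
  have hrootS : ∀ K, IsComp G Sᶜ K → root K ∉ S := fun K hK => hsub K hK _ (hrt K hK).1
  -- the vertex matched to a component
  have hs : ∀ K : Set V, ∃ s : V, (∃ s ∈ S, φ s = K) → s ∈ S ∧ φ s = K := by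
    intro K
    by_cases h : ∃ s ∈ S, φ s = K
    · obtain ⟨s, hs⟩ := h
      exact ⟨s, fun _ => hs⟩
    · exact ⟨Classical.arbitrary V, fun h' => absurd h' h⟩
  choose sk hsk using hs
  have hskφ : ∀ s ∈ S, sk (φ s) = s := by
    intro s hs
    have h := hsk (φ s) ⟨s, hs, rfl⟩
    exact hφ2 _ h.1 _ hs h.2
  -- the vertices
  have hv : ∀ u : V, ∃ v : V, (∃ v ∈ S, Ed G (comp u) S = {(u, v)}) →
      v ∈ S ∧ Ed G (comp u) S = {(u, v)} := by
    intro u
    by_cases h : ∃ v ∈ S, Ed G (comp u) S = {(u, v)}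
    · obtain ⟨v, hv⟩ := h
      exact ⟨v, fun _ => hv⟩
    · exact ⟨u, fun h' => absurd h' h⟩
  choose vv hvv using hv
  obtain ⟨m, hmS, hmR, hmF, hmP⟩ : ∃ m : V → V, (∀ x ∈ S, m x = root (φ x)) ∧
      (∀ x, x ∉ S → x = root (comp x) → (∃ s ∈ S, φ s = comp x) → m x = sk (comp x)) ∧
      (∀ x, x ∉ S → x = root (comp x) → (¬ ∃ s ∈ S, φ s = comp x) → m x = x) ∧
      (∀ x, x ∉ S → x ≠ root (comp x) → m x = p (comp x) x) := by
    refine ⟨fun x => if x ∈ S then root (φ x) else if x = root (comp x) then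
      (if ∃ s ∈ S, φ s = comp x then sk (comp x) else x) else p (comp x) x, ?_, ?_, ?_, ?_⟩
    · intro x hx
      exact if_pos hx
    · intro x hx h1 h2
      show (if x ∈ S then root (φ x) else if x = root (comp x) then
        (if ∃ s ∈ S, φ s = comp x then sk (comp x) else x) else p (comp x) x) = _
      rw [if_neg hx, if_pos h1, if_pos h2]
    · intro x hx h1 h2
      show (if x ∈ S then root (φ x) else if x = root (comp x) then
        (if ∃ s ∈ S, φ s = comp x then sk (comp x) else x) else p (comp x) x) = _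
      rw [if_neg hx, if_pos h1, if_neg h2]
    · intro x hx h1
      show (if x ∈ S then root (φ x) else if x = root (comp x) then
        (if ∃ s ∈ S, φ s = comp x then sk (comp x) else x) else p (comp x) x) = _
      rw [if_neg hx, if_neg h1]
  have hmS' : ∀ x ∈ S, m x ∉ S := by
    intro x hx
    rw [hmS x hx]
    exact hrootS _ (hφ1 x hx).1
  have hmem : ∀ x, x ∉ S → x ≠ root (comp x) → x ∈ comp x \ {root (comp x)} :=
    fun x hx h => ⟨hcm x hx, h⟩
  let U : Set V := {u | u ∉ S ∧ u = root (comp u) ∧ (¬ ∃ s ∈ S, φ s = comp u) ∧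
    ∃ v ∈ S, Ed G (comp u) S = {(u, v)}}
  refine ⟨m, vv, U, comp, ?_, ?_, ?_, ?_, ?_, ?_, ?_, ?_, ?_, ?_⟩
  · -- inv
    intro x
    by_cases hx : x ∈ S
    · have hK := (hφ1 x hx).1
      have hr := (hrt _ hK).1
      have hc : comp (root (φ x)) = φ x := heq _ hK _ hr
      rw [hmS x hx, hmR (root (φ x)) (hrootS _ hK) (by rw [hc]) ⟨x, hx, hc.symm⟩, hc]
      exact hskφ x hx
    · by_cases h1 : x = root (comp x)
      · by_cases h2 : ∃ s ∈ S, φ s = comp x
        · rw [hmR x hx h1 h2, hmS _ (hsk _ h2).1, (hsk _ h2).2]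
          exact h1.symm
        · rw [hmF x hx h1 h2, hmF x hx h1 h2]
      · have h3 := hpp (comp x) (hcmp x hx) x (hmem x hx h1)
        have h4 : p (comp x) x ∉ S := hsub _ (hcmp x hx) _ h3.1.1
        have h5 : comp (p (comp x) x) = comp x := heq _ (hcmp x hx) _ h3.1.1
        rw [hmP x hx h1, hmP _ h4 (by rw [h5]; exact h3.1.2), h5]
        exact h3.2.2.1
  · -- adj
    intro x hne
    by_cases hx : x ∈ S
    · have hK := (hφ1 x hx).1
      rw [hmS x hx]
      rcases (hrt _ hK).2 with ⟨s, hs, hs1, hs2⟩ | ⟨h, -⟩ | ⟨h, -⟩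
      · rw [hφ2 s hs x hx hs1] at hs2
        exact hs2
      · exact absurd rfl (h x hx)
      · exact absurd rfl (h x hx)
    · by_cases h1 : x = root (comp x)
      · by_cases h2 : ∃ s ∈ S, φ s = comp x
        · rw [hmR x hx h1 h2]
          have h3 := (hrt _ (hcmp x hx)).2
          rw [← h1] at h3
          rcases h3 with ⟨s, hs, hs1, hs2⟩ | ⟨h, -⟩ | ⟨h, -⟩
          · have : sk (comp x) = s := hφ2 _ (hsk _ h2).1 _ hs ((hsk _ h2).2.trans hs1.symm)
            rw [this]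
            exact hs2.symm
          · obtain ⟨s, hs, hs'⟩ := h2
            exact absurd hs' (h s hs)
          · obtain ⟨s, hs, hs'⟩ := h2
            exact absurd hs' (h s hs)
        · exact absurd (hmF x hx h1 h2) hne
      · rw [hmP x hx h1]
        exact (hpp (comp x) (hcmp x hx) x (hmem x hx h1)).2.2.2
  · -- free
    intro x hfix hxU
    have hx : x ∉ S := by
      intro hx
      apply hmS' x hx
      rw [hfix]
      exact hx
    have h1 : x = root (comp x) := by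
      by_contra h1
      have h3 := hpp (comp x) (hcmp x hx) x (hmem x hx h1)
      rw [hmP x hx h1] at hfix
      exact h3.2.1 hfix
    have h2 : ¬ ∃ s ∈ S, φ s = comp x := by
      intro h2
      rw [hmR x hx h1 h2] at hfix
      apply hx
      rw [← hfix]
      exact (hsk _ h2).1
    have h3 := (hrt _ (hcmp x hx)).2
    rw [← h1] at h3
    rcases h3 with ⟨s, hs, hs1, hs2⟩ | ⟨h, h4⟩ | ⟨h, h4⟩
    · exact absurd ⟨s, hs, hs1⟩ h2
    · exact h4
    · exact absurd ⟨hx, h1, h2, h4⟩ hxU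
  · -- fixU
    rintro u ⟨hu1, hu2, hu3, hu4⟩
    exact hmF u hu1 hu2 hu3
  · -- mem
    rintro u ⟨hu1, hu2, hu3, hu4⟩
    exact hcm u hu1
  · -- adjv
    rintro u ⟨hu1, hu2, hu3, hu4⟩
    have h := (hvv u hu4).2
    have h1 : (u, vv u) ∈ Ed G (comp u) S := by
      rw [h]
      exact Set.mem_singleton _
    exact h1.2.2
  · -- out
    rintro u ⟨hu1, hu2, hu3, hu4⟩ w ⟨hw1, hw2, hw3, hw4⟩ hmemw
    exact hsub _ (hcmp w hw1) _ hmemw (hvv u hu4).1
  · -- cut
    rintro u ⟨hu1, hu2, hu3, hu4⟩ x hx y hy hxy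
    have hyS : y ∈ S := by
      by_contra hyS
      exact hy ((hcmp u hu1).2.2 x hx y hyS hxy)
    have h1 : (x, y) ∈ Ed G (comp u) S := ⟨hx, hyS, hxy⟩
    rw [(hvv u hu4).2] at h1
    have h2 : (x, y) = (u, vv u) := h1
    exact ⟨congrArg Prod.fst h2, congrArg Prod.snd h2⟩
  · -- disj
    rintro u ⟨hu1, hu2, hu3, hu4⟩ w ⟨hw1, hw2, hw3, hw4⟩ huw
    rw [Set.disjoint_left]
    intro z hz1 hz2
    apply huw
    have h1 : comp u = comp w := comp_eq G Sᶜ _ _ (hcmp u hu1) (hcmp w hw1) z hz1 hz2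
    rw [hu2, hw2, h1]
  · -- cov
    rintro u ⟨hu1, hu2, hu3, hu4⟩ hfix
    have hvS := (hvv u hu4).1
    apply hmS' _ hvS
    rw [hfix]
    exact hvS

end T13

/-- T13 -/
theorem structure_exists (G : SimpleGraph V) (hd : ∀ x, dg G x ≤ 3) :
    ∃ (m vv : V → V) (U : Set V) (K : V → Set V), Str G m vv U K := by
  rcases isEmpty_or_nonempty V with h | h
  · refine ⟨id, id, ∅, fun _ => ∅, ?_, ?_, ?_, ?_, ?_, ?_, ?_, ?_, ?_, ?_⟩
    · exact fun x => (h.false x).elim
    · exact fun x => (h.false x).elim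
    · exact fun x => (h.false x).elim
    · exact fun x => (h.false x).elim
    · exact fun x => (h.false x).elim
    · exact fun x => (h.false x).elim
    · exact fun x => (h.false x).elim
    · exact fun x => (h.false x).elim
    · exact fun x => (h.false x).elim
    · exact fun x => (h.false x).elim
  · exact T13.main G hd

end Pool.Agent.H416R4.PK
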