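import Pool.Agent.H416R4.PK.Defs

set_option autoImplicit false
open Classical

namespace Pool.Agent.H416R4.PK

variable {V : Type*} [Fintype V]

/-- the component of `x`, as a graph on all vertices -/
def T14.cmp {V : Type*} (H : SimpleGraph V) (x : V) : SimpleGraph V where
  Adj a b := H.Adj a b ∧ H.Reachable x a
  symm := ⟨fun _ _ h => ⟨h.1.symm, h.2.trans h.1.reachable⟩⟩
  loopless := ⟨fun a h => H.loopless.irrefl a h.1⟩

/-- T14 -/
theorem odd_reach (H : SimpleGraph V) (x : V) (hx : Odd (dg H x)) :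
    ∃ y, y ≠ x ∧ H.Reachable x y ∧ Odd (dg H y) := by
  have hdeg : ∀ z, (T14.cmp H x).degree z = ((T14.cmp H x).neighborSet z).ncard := by
    intro z
    rw [Set.ncard_eq_toFinset_card']
    rfl
  have h1 : ∀ z, H.Reachable x z → (T14.cmp H x).neighborSet z = H.neighborSet z := by
    intro z hz
    ext w
    show (H.Adj z w ∧ H.Reachable x z) ↔ H.Adj z w
    exact ⟨fun h => h.1, fun h => ⟨h, hz⟩⟩
  have h2 : ∀ z, ¬ H.Reachable x z → (T14.cmp H x).neighborSet z = ∅ := by
    intro z hz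
    ext w
    show (H.Adj z w ∧ H.Reachable x z) ↔ False
    exact ⟨fun h => hz h.2, False.elim⟩
  have h3 : Odd ((T14.cmp H x).degree x) := by
    rw [hdeg, h1 x (SimpleGraph.Reachable.refl x)]
    exact hx
  obtain ⟨y, hy, hyo⟩ := (T14.cmp H x).exists_ne_odd_degree_of_exists_odd_degree x h3
  rw [hdeg] at hyo
  by_cases hr : H.Reachable x y
  · refine ⟨y, hy, hr, ?_⟩
    rw [h1 y hr] at hyo
    exact hyo
  · rw [h2 y hr, Set.ncard_empty] at hyo
    exact absurd hyo (by decide)

end Pool.Agent.H416R4.PK
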