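import Pool.Agent.H416R4.PK.Defs

set_option autoImplicit false
open Classical

namespace Pool.Agent.H416R4.PK

variable {V : Type*} [Fintype V]

namespace T15

/-- `F` without the edge `ab` -/
def del (F : SimpleGraph V) (a b : V) : SimpleGraph V where
  Adj x y := F.Adj x y ∧ ¬ (x = a ∧ y = b) ∧ ¬ (x = b ∧ y = a)
  symm := ⟨fun _ _ h => ⟨h.1.symm, fun h' => h.2.2 ⟨h'.2, h'.1⟩, fun h' => h.2.1 ⟨h'.2, h'.1⟩⟩⟩
  loopless := ⟨fun x h => F.loopless.irrefl x h.1⟩

/-- symmetric and proper -/
def Pr (F : SimpleGraph V) (col : V → V → Bool) : Prop :=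
  (∀ a b, col a b = col b a) ∧ ∀ a b b', F.Adj a b → F.Adj a b' → b ≠ b' → col a b ≠ col a b'

theorem del_nb (F : SimpleGraph V) (a b z : V) (h1 : z ≠ a) (h2 : z ≠ b) :
    (del F a b).neighborSet z = F.neighborSet z := by
  ext y
  constructor
  · exact fun h => h.1
  · exact fun h => ⟨h, fun h' => h1 h'.1, fun h' => h2 h'.1⟩

theorem del_dg_le (F : SimpleGraph V) (a b z : V) : dg (del F a b) z ≤ dg F z :=
  Set.ncard_le_ncard (fun _ h => h.1) (Set.toFinite _)

theorem del_dg_a (F : SimpleGraph V) (a b : V) (hab : F.Adj a b) :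
    dg (del F a b) a + 1 ≤ dg F a := by
  unfold dg
  rw [← Set.ncard_insert_of_notMem (a := b) (s := (del F a b).neighborSet a)
    (fun h => h.2.1 ⟨rfl, rfl⟩) (Set.toFinite _)]
  apply Set.ncard_le_ncard _ (Set.toFinite _)
  intro y hy
  rcases hy with rfl | hy
  · exact hab
  · exact hy.1

theorem del_dg_b (F : SimpleGraph V) (a b : V) (hab : F.Adj a b) :
    dg (del F a b) b + 1 ≤ dg F b := by
  unfold dg
  rw [← Set.ncard_insert_of_notMem (a := a) (s := (del F a b).neighborSet b)
    (fun h => h.2.2 ⟨rfl, rfl⟩) (Set.toFinite _)]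
  apply Set.ncard_le_ncard _ (Set.toFinite _)
  intro y hy
  rcases hy with rfl | hy
  · exact hab.symm
  · exact hy.1

/-- uniqueness of the other neighbour -/
theorem uniq (F : SimpleGraph V) (x p q r : V) (hF : dg F x ≤ 2) (hp : F.Adj x p)
    (hq : F.Adj x q) (hr : F.Adj x r) (hpq : p ≠ q) (hpr : p ≠ r) : q = r := by
  by_contra hqr
  have h3 : ({p, q, r} : Set V).ncard = 3 := by
    rw [Set.ncard_eq_three]
    exact ⟨p, q, r, hpq, hpr, hqr, rfl⟩
  have h4 : ({p, q, r} : Set V) ⊆ F.neighborSet x := by
    intro y hy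
    rcases hy with rfl | rfl | rfl
    · exact hp
    · exact hq
    · exact hr
  have := Set.ncard_le_ncard h4 (Set.toFinite _)
  unfold dg at hF
  omega

/-- the parity hypothesis is inherited -/
theorem he_del (F : SimpleGraph V) (hF : ∀ x, dg F x ≤ 2) (a b : V) (hab : F.Adj a b)
    (he : ∀ x, (∀ z, F.Reachable x z → dg F z = 2) → Even {z | F.Reachable x z}.ncard) (x : V)
    (hx : ∀ z, (del F a b).Reachable x z → dg (del F a b) z = 2) :
    Even {z | (del F a b).Reachable x z}.ncard := by
  have hna : ¬ (del F a b).Reachable x a := by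
    intro h
    have h1 := hx a h
    have h2 := del_dg_a F a b hab
    have h3 := hF a
    omega
  have hnb : ¬ (del F a b).Reachable x b := by
    intro h
    have h1 := hx b h
    have h2 := del_dg_b F a b hab
    have h3 := hF b
    omega
  have hr : ∀ z, F.Reachable x z ↔ (del F a b).Reachable x z := by
    intro z
    constructor
    · intro h
      rw [SimpleGraph.reachable_iff_reflTransGen] at h
      induction h with
      | refl => exact SimpleGraph.Reachable.refl _
      | tail _ hyz ih =>
        rename_i y z _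
        refine ih.trans (SimpleGraph.Adj.reachable ?_)
        refine ⟨hyz, fun h' => hna (h'.1 ▸ ih), fun h' => hnb (h'.1 ▸ ih)⟩
    · intro h
      have hle : del F a b ≤ F := fun _ _ h' => h'.1
      exact h.mono hle
  have he' := he x (by
    intro z hz
    have hz' := (hr z).1 hz
    have h1 := hx z hz'
    unfold dg at h1 ⊢
    rw [del_nb] at h1
    · exact h1
    · rintro rfl; exact hna hz'
    · rintro rfl; exact hnb hz')
  have hs : {z | F.Reachable x z} = {z | (del F a b).Reachable x z} := by
    ext z
    exact hr z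
  rw [← hs]
  exact he'

/-- extension of a colouring -/
theorem ext (F : SimpleGraph V) (a b : V) (hab : F.Adj a b) (col : V → V → Bool)
    (hc : Pr (del F a b) col) (t : Bool) (ha : ∀ y, y ≠ b → F.Adj a y → col a y ≠ t)
    (hb : ∀ y, y ≠ a → F.Adj b y → col b y ≠ t) : ∃ col', Pr F col' := by
  have hne : a ≠ b := hab.ne
  refine ⟨fun x y => if (x = a ∧ y = b) ∨ (x = b ∧ y = a) then t else col x y, ?_, ?_⟩
  · intro x y
    by_cases h : (x = a ∧ y = b) ∨ (x = b ∧ y = a)
    · have h' : (y = a ∧ x = b) ∨ (y = b ∧ x = a) := by tauto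
      simp only [if_pos h, if_pos h']
    · have h' : ¬ ((y = a ∧ x = b) ∨ (y = b ∧ x = a)) := by tauto
      simp only [if_neg h, if_neg h']
      exact hc.1 x y
  · intro x y y' hy hy' hyy
    simp only
    by_cases h : (x = a ∧ y = b) ∨ (x = b ∧ y = a)
    · rw [if_pos h]
      have h' : ¬ ((x = a ∧ y' = b) ∨ (x = b ∧ y' = a)) := by
        rintro (⟨h1, h2⟩ | ⟨h1, h2⟩)
        · rcases h with ⟨h3, h4⟩ | ⟨h3, h4⟩
          · exact hyy (h4.trans h2.symm)
          · exact hne (h1.symm.trans h3)
        · rcases h with ⟨h3, h4⟩ | ⟨h3, h4⟩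
          · exact hne (h3.symm.trans h1)
          · exact hyy (h4.trans h2.symm)
      rw [if_neg h']
      rcases h with ⟨rfl, rfl⟩ | ⟨rfl, rfl⟩
      · exact (ha y' hyy.symm hy').symm
      · exact (hb y' hyy.symm hy').symm
    · rw [if_neg h]
      by_cases h' : (x = a ∧ y' = b) ∨ (x = b ∧ y' = a)
      · rw [if_pos h']
        rcases h' with ⟨rfl, rfl⟩ | ⟨rfl, rfl⟩
        · exact ha y hyy hy
        · exact hb y hyy hy
      · rw [if_neg h']
        apply hc.2 x y y' _ _ hyy
        · exact ⟨hy, fun h1 => h (Or.inl h1), fun h1 => h (Or.inr h1)⟩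
        · exact ⟨hy', fun h1 => h' (Or.inl h1), fun h1 => h' (Or.inr h1)⟩

/-- parity of a set with a fixed point free involution -/
theorem even_of_inv (s : Finset V) (p : V → V) (h1 : ∀ x ∈ s, p x ∈ s) (h2 : ∀ x ∈ s, p (p x) = x)
    (h3 : ∀ x ∈ s, p x ≠ x) : Even s.card := by
  have h := Finset.sum_involution (s := s) (f := fun _ => (1 : ZMod 2)) (fun x _ => p x)
    (fun _ _ => by decide) (fun x hx _ => h3 x hx) (fun x hx => h1 x hx) (fun x hx => h2 x hx)
  rw [Finset.sum_const, nsmul_eq_mul, mul_one] at h
  rwa [ZMod.natCast_eq_zero_iff_even] at h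

end T15

open T15 in
/-- T15 -/
theorem two_edge_col (F : SimpleGraph V) (hF : ∀ x, dg F x ≤ 2)
    (he : ∀ x, (∀ z, F.Reachable x z → dg F z = 2) → Even {z | F.Reachable x z}.ncard) :
    ∃ col : V → V → Bool, (∀ a b, col a b = col b a) ∧
      ∀ a b b', F.Adj a b → F.Adj a b' → b ≠ b' → col a b ≠ col a b' := by
  revert hF he
  refine WellFoundedLT.induction (motive := fun F : SimpleGraph V => (∀ x, dg F x ≤ 2) →
    (∀ x, (∀ z, F.Reachable x z → dg F z = 2) → Even {z | F.Reachable x z}.ncard) →
      ∃ col : V → V → Bool, Pr F col) F ?_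
  intro F ih hF he
  by_cases hbot : ∀ a b, ¬ F.Adj a b
  · exact ⟨fun _ _ => true, fun _ _ => rfl, fun a b _ h => absurd h (hbot a b)⟩
  push Not at hbot
  have step : ∀ a b, F.Adj a b → ∃ col, Pr (del F a b) col := by
    intro a b hab
    apply ih
    · refine lt_of_le_of_ne (fun _ _ h => h.1) ?_
      intro h
      have : (del F a b).Adj a b := by rw [h]; exact hab
      exact this.2.1 ⟨rfl, rfl⟩
    · exact fun x => le_trans (del_dg_le F a b x) (hF x)
    · exact fun x hx => he_del F hF a b hab he x hx
  by_cases h1 : ∃ a, dg F a = 1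
  · obtain ⟨a, ha⟩ := h1
    unfold dg at ha
    rw [Set.ncard_eq_one] at ha
    obtain ⟨b, hb⟩ := ha
    have hab : F.Adj a b := by
      have : b ∈ F.neighborSet a := by rw [hb]; rfl
      exact this
    obtain ⟨col, hcol⟩ := step a b hab
    have hA : ∀ t : Bool, ∀ y, y ≠ b → F.Adj a y → col a y ≠ t := by
      intro t y hy hay
      have : y ∈ F.neighborSet a := hay
      rw [hb] at this
      exact absurd this hy
    by_cases h2 : ∃ b', b' ≠ a ∧ F.Adj b b'
    · obtain ⟨b', hb'a, hbb'⟩ := h2
      refine ext F a b hab col hcol (!(col b b')) (hA _) ?_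
      intro y hy hby
      have : b' = y := uniq F b a b' y (hF b) hab.symm hbb' hby hb'a.symm hy.symm
      rw [← this]
      cases col b b' <;> simp
    · exact ext F a b hab col hcol true (hA _) (fun y hy hby => absurd ⟨y, hy, hby⟩ h2)
  · push Not at h1
    obtain ⟨a, b, hab⟩ := hbot
    obtain ⟨col, hcol⟩ := step a b hab
    have h2 : ∀ x y, F.Adj x y → dg F x = 2 := by
      intro x y hxy
      have h3 := hF x
      have h4 := h1 x
      have h5 : 0 < dg F x := by
        unfold dg
        rw [Set.ncard_pos (Set.toFinite _)]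
        exact ⟨y, hxy⟩
      omega
    have h3 : ∀ x y, F.Adj x y → ∃ y', y' ≠ y ∧ F.Adj x y' := by
      intro x y hxy
      have h4 := h2 x y hxy
      unfold dg at h4
      rw [Set.ncard_eq_two] at h4
      obtain ⟨p, q, hpq, hpq'⟩ := h4
      have hp : F.Adj x p := by
        have : p ∈ F.neighborSet x := by rw [hpq']; simp
        exact this
      have hq : F.Adj x q := by
        have : q ∈ F.neighborSet x := by rw [hpq']; simp
        exact this
      by_cases hy : p = y
      · exact ⟨q, fun h => hpq (hy.trans h.symm), hq⟩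
      · exact ⟨p, hy, hp⟩
    obtain ⟨a', ha'b, haa'⟩ := h3 a b hab
    obtain ⟨b', hb'a, hbb'⟩ := h3 b a hab.symm
    have hA : ∀ y, y ≠ b → F.Adj a y → y = a' := fun y hy hay =>
      (uniq F a b a' y (hF a) hab haa' hay ha'b.symm hy.symm).symm
    have hB : ∀ y, y ≠ a → F.Adj b y → y = b' := fun y hy hby =>
      (uniq F b a b' y (hF b) hab.symm hbb' hby hb'a.symm hy.symm).symm
    by_cases hc : col a a' = col b b'
    · refine ext F a b hab col hcol (!(col a a')) ?_ ?_
      · intro y hy hay
        rw [hA y hy hay]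
        cases col a a' <;> simp
      · intro y hy hby
        rw [hB y hy hby, hc]
        cases col b b' <;> simp
    · exfalso
      set α := col a a' with hα
      have hdeg : ∀ z, F.Reachable a z → dg F z = 2 := by
        intro z hz
        rw [SimpleGraph.reachable_iff_reflTransGen] at hz
        rcases Relation.ReflTransGen.cases_tail hz with h | ⟨y, _, hyz⟩
        · subst h
          exact h2 _ b hab
        · exact h2 z y hyz.symm
      have hev := he a hdeg
      -- the alpha-neighbour
      have hex : ∀ z, F.Reachable a z → z ≠ b → ∃ w, (del F a b).Adj z w ∧ col z w = α := by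
        intro z hz hzb
        by_cases hza : z = a
        · subst hza
          exact ⟨a', ⟨haa', fun h => ha'b h.2, fun h => hab.ne h.1⟩, rfl⟩
        · have h4 := hdeg z hz
          unfold dg at h4
          rw [← del_nb F a b z hza hzb, Set.ncard_eq_two] at h4
          obtain ⟨p, q, hpq, hpq'⟩ := h4
          have hp : (del F a b).Adj z p := by
            have : p ∈ (del F a b).neighborSet z := by rw [hpq']; simp
            exact this
          have hq : (del F a b).Adj z q := by
            have : q ∈ (del F a b).neighborSet z := by rw [hpq']; simp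
            exact this
          have h5 := hcol.2 z p q hp hq hpq
          by_cases h6 : col z p = α
          · exact ⟨p, hp, h6⟩
          · refine ⟨q, hq, ?_⟩
            revert h5 h6
            cases col z p <;> cases col z q <;> cases α <;> simp
      have huq : ∀ z w w', (del F a b).Adj z w → (del F a b).Adj z w' → col z w = α →
          col z w' = α → w = w' := by
        intro z w w' hw hw' h5 h6
        by_contra hne
        exact hcol.2 z w w' hw hw' hne (h5.trans h6.symm)
      let p : V → V := fun z => if h : ∃ w, (del F a b).Adj z w ∧ col z w = α then h.choose else z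
      have hp : ∀ z, F.Reachable a z → z ≠ b → (del F a b).Adj z (p z) ∧ col z (p z) = α := by
        intro z hz hzb
        have h := hex z hz hzb
        simp only [p, dif_pos h]
        exact h.choose_spec
      have hnb : ∀ z, (del F a b).Adj z b → col z b ≠ α := by
        intro z hz h5
        have h6 : (del F a b).Adj b z := hz.symm
        have hza : z ≠ a := fun h => h6.2.2 ⟨rfl, h⟩
        have h7 := hB z hza h6.1
        rw [hcol.1, h7] at h5
        exact hc h5.symm
      have hodd := even_of_inv (({z | F.Reachable a z} \ {b}).toFinset) p (by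
        intro z hz
        rw [Set.mem_toFinset] at hz ⊢
        obtain ⟨hz1, hz2⟩ := hz
        have h5 := hp z hz1 hz2
        refine ⟨SimpleGraph.Reachable.trans hz1 h5.1.1.reachable, ?_⟩
        intro h6
        have h6' : p z = b := h6
        rw [h6'] at h5
        exact hnb z h5.1 h5.2) (by
        intro z hz
        rw [Set.mem_toFinset] at hz
        obtain ⟨hz1, hz2⟩ := hz
        have h5 := hp z hz1 hz2
        have h6 : p z ≠ b := by
          intro h6
          rw [h6] at h5
          exact hnb z h5.1 h5.2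
        have h7 := hp (p z) (SimpleGraph.Reachable.trans hz1 h5.1.1.reachable) h6
        exact huq (p z) _ _ h7.1 h5.1.symm h7.2 (by rw [hcol.1]; exact h5.2)) (by
        intro z hz h6
        rw [Set.mem_toFinset] at hz
        obtain ⟨hz1, hz2⟩ := hz
        have h5 := hp z hz1 hz2
        rw [h6] at h5
        exact h5.1.1.ne rfl)
      have hmem : b ∈ {z | F.Reachable a z} := hab.reachable
      rw [← Set.ncard_eq_toFinset_card', Set.ncard_sdiff_singleton_of_mem hmem] at hodd
      have hpos : 0 < {z | F.Reachable a z}.ncard := by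
        rw [Set.ncard_pos (Set.toFinite _)]
        exact ⟨b, hab.reachable⟩
      obtain ⟨k, hk⟩ := hodd
      obtain ⟨k', hk'⟩ := hev
      omega

end Pool.Agent.H416R4.PK
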