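import Pool.Agent.H416R4.PK.Defs
import Pool.Agent.H416R4.PK.T14
import Pool.Agent.H416R4.PK.T15

set_option autoImplicit false
open Classical

namespace Pool.Agent.H416R4.PK

variable {V : Type*} [Fintype V]


namespace T16

theorem rm_le (F : SimpleGraph V) (δ : V → V) : rm F δ ≤ F := fun _ _ h => h.1

theorem rm_le_F2 (F : SimpleGraph V) (m δ : V → V) : rm F δ ≤ F2 F m δ := fun _ _ h => Or.inl h

theorem xc_m {m δ : V → V} (hm : ∀ x, m (m x) = x) {x : V} (h : Xc m δ x) : Xc m δ (m x) := by
  obtain ⟨h1, h2, h3⟩ := h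
  refine ⟨?_, h3, ?_⟩
  · rw [hm]; exact fun k => h1 k.symm
  · rw [hm]; exact h2

theorem f2_adj {F : SimpleGraph V} {m δ : V → V} (hm : ∀ x, m (m x) = x) {x y : V} :
    (F2 F m δ).Adj x y ↔ (rm F δ).Adj x y ∨ (y = m x ∧ Xc m δ x) := by
  constructor
  · rintro (h | ⟨_, ⟨h1, h2⟩ | ⟨h1, h2⟩⟩)
    · exact Or.inl h
    · exact Or.inr ⟨h1.symm, h2⟩
    · right
      subst h1
      exact ⟨(hm y).symm, xc_m hm h2⟩
  · rintro (h | ⟨h1, h2⟩)
    · exact Or.inl h
    · subst h1
      exact Or.inr ⟨fun k => h2.1 k.symm, Or.inl ⟨rfl, h2⟩⟩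

/-- degrees in `rm F δ` -/
theorem dg_rm_fix {F : SimpleGraph V} {δ : V → V} (hδ : ∀ x, δ (δ x) = x) {x : V}
    (h : δ x = x) : dg (rm F δ) x = dg F x := by
  unfold dg
  congr 1
  ext y
  simp only [SimpleGraph.mem_neighborSet]
  constructor
  · exact fun k => k.1
  · intro k
    refine ⟨k, ?_, ?_⟩
    · rw [h]; exact k.ne
    · intro e
      apply k.ne
      rw [← hδ y, e, h]

theorem dg_rm_mov {F : SimpleGraph V} {δ : V → V} (hδ : ∀ x, δ (δ x) = x)
    (ha : ∀ x, δ x ≠ x → F.Adj x (δ x)) {x : V} (h : δ x ≠ x) :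
    dg (rm F δ) x + 1 = dg F x := by
  unfold dg
  have e : F.neighborSet x = insert (δ x) ((rm F δ).neighborSet x) := by
    ext y
    simp only [SimpleGraph.mem_neighborSet, Set.mem_insert_iff]
    constructor
    · intro k
      by_cases hy : y = δ x
      · exact Or.inl hy
      · right
        refine ⟨k, fun e => hy e.symm, ?_⟩
        intro e
        apply hy
        rw [← e, hδ]
    · rintro (k | k)
      · rw [k]; exact ha x h
      · exact k.1
  rw [e, Set.ncard_insert_of_notMem]
  · intro k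
    exact k.2.1 rfl

theorem dg_f2_nx {F : SimpleGraph V} {m δ : V → V} (hm : ∀ x, m (m x) = x) {x : V}
    (h : ¬ Xc m δ x) : dg (F2 F m δ) x = dg (rm F δ) x := by
  unfold dg
  congr 1
  ext y
  simp only [SimpleGraph.mem_neighborSet]
  rw [f2_adj hm]
  constructor
  · rintro (k | ⟨_, k⟩)
    · exact k
    · exact absurd k h
  · exact Or.inl

theorem dg_f2_x {F : SimpleGraph V} {m δ : V → V} (hm : ∀ x, m (m x) = x)
    (hmF : ∀ x, ¬ F.Adj x (m x)) {x : V}
    (h : Xc m δ x) : dg (F2 F m δ) x = dg (rm F δ) x + 1 := by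
  unfold dg
  have e : (F2 F m δ).neighborSet x = insert (m x) ((rm F δ).neighborSet x) := by
    ext y
    simp only [SimpleGraph.mem_neighborSet, Set.mem_insert_iff]
    rw [f2_adj hm]
    constructor
    · rintro (k | ⟨k, _⟩)
      · exact Or.inr k
      · exact Or.inl k
    · rintro (k | k)
      · exact Or.inr ⟨k, h⟩
      · exact Or.inl k
  rw [e, Set.ncard_insert_of_notMem]
  intro k
  exact hmF x k.1

end T16

open T16

/-- T16 -/
theorem F2_col (F : SimpleGraph V) (m δ : V → V) (U β : Set V) (c : V → Fin 4)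
    (hF : ∀ x, dg F x ≤ 2) (hm : ∀ x, m (m x) = x) (hmF : ∀ x, ¬ F.Adj x (m x))
    (hs : Slot F m U c δ β) (ha : Acy F m δ) :
    ∃ col : V → V → Bool, (∀ a b, col a b = col b a) ∧
      ∀ a b b', (F2 F m δ).Adj a b → (F2 F m δ).Adj a b' → b ≠ b' → col a b ≠ col a b' := by
  have hxm : ∀ x, Xc m δ x → δ x ≠ x := fun x h => h.2.1
  apply two_edge_col (F2 F m δ)
  · intro x
    by_cases hx : Xc m δ x
    · rw [dg_f2_x hm hmF hx, dg_rm_mov hs.inv hs.adj (hxm x hx)]
      exact hF x
    · rw [dg_f2_nx hm hx]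
      by_cases hd : δ x = x
      · rw [dg_rm_fix hs.inv hd]; exact hF x
      · have := dg_rm_mov hs.inv hs.adj hd
        have := hF x
        omega
  · intro x hx2
    -- the moved vertices
    have hYm : ∀ y, (F2 F m δ).Reachable x y → δ y ≠ y → Xc m δ y ∧ dg (rm F δ) y = 1 := by
      intro y hy hd
      have h2 := hx2 y hy
      have h1 := dg_rm_mov hs.inv hs.adj hd
      have h3 := hF y
      by_cases hxc : Xc m δ y
      · rw [dg_f2_x hm hmF hxc] at h2
        exact ⟨hxc, by omega⟩
      · rw [dg_f2_nx hm hxc] at h2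
        omega
    have hYd : ∀ y, (F2 F m δ).Reachable x y → δ y ≠ y → (rm F δ).Reachable y (δ y) := by
      intro y hy hd
      obtain ⟨hxc, hd1⟩ := hYm y hy hd
      obtain ⟨y', hne, hr, hodd⟩ := odd_reach (rm F δ) y (by rw [hd1]; exact odd_one)
      have hy' : (F2 F m δ).Reachable x y' := hy.trans (hr.mono (rm_le_F2 F m δ))
      have hd' : δ y' ≠ y' := by
        intro e
        have hnx : ¬ Xc m δ y' := fun k => (hxm y' k) e
        have := hx2 y' hy'
        rw [dg_f2_nx hm hnx] at this
        rw [this] at hodd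
        exact absurd hodd (by decide)
      rcases hs.one y y' hd hd' (hr.mono (rm_le F δ)) with h | h
      · exact absurd h hne
      · rw [← h]; exact hr
    have hY : {y | (F2 F m δ).Reachable x y ∧ δ y ≠ y} = ∅ := by
      apply ha
      · rintro y ⟨hy, hd⟩
        exact (hYm y hy hd).1
      · rintro y ⟨hy, hd⟩
        have hxc := (hYm y hy hd).1
        refine ⟨hy.trans (SimpleGraph.Adj.reachable ((f2_adj hm).2 (Or.inr ⟨rfl, hxc⟩))), hxc.2.2⟩
      · rintro y ⟨hy, hd⟩
        refine ⟨hy.trans ((hYd y hy hd).mono (rm_le_F2 F m δ)), ?_⟩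
        rw [hs.inv]
        exact fun e => hd e.symm
      · rintro y ⟨hy, hd⟩
        exact hYd y hy hd
    have hfix : ∀ y, (F2 F m δ).Reachable x y → δ y = y := by
      intro y hy
      by_contra hd
      have : y ∈ {y | (F2 F m δ).Reachable x y ∧ δ y ≠ y} := ⟨hy, hd⟩
      rw [hY] at this
      exact this
    have hFR : ∀ z, F.Reachable x z → (F2 F m δ).Reachable x z := by
      intro z hz
      rw [SimpleGraph.reachable_iff_reflTransGen] at hz
      induction hz with
      | refl => exact SimpleGraph.Reachable.refl _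
      | tail _ hyz ih =>
        rename_i y z _
        have hdy := hfix y ih
        refine ih.trans (SimpleGraph.Adj.reachable (Or.inl ⟨hyz, ?_, ?_⟩))
        · rw [hdy]; exact hyz.ne
        · intro e
          apply hyz.ne
          rw [← hs.inv z, e, hdy]
    have hRF : ∀ z, (F2 F m δ).Reachable x z → F.Reachable x z := by
      intro z hz
      have hz' := hz
      rw [SimpleGraph.reachable_iff_reflTransGen] at hz'
      induction hz' with
      | refl => exact SimpleGraph.Reachable.refl _
      | tail hxy hyz ih =>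
        rename_i y z
        have hy : (F2 F m δ).Reachable x y := by
          rw [SimpleGraph.reachable_iff_reflTransGen]; exact hxy
        rcases (f2_adj hm).1 hyz with h | ⟨_, h⟩
        · exact (ih hy).trans h.1.reachable
        · exact absurd (hfix y hy) (hxm y h)
    have heq : {z | (F2 F m δ).Reachable x z} = {z | F.Reachable x z} := by
      ext z
      exact ⟨hRF z, hFR z⟩
    rw [heq]
    apply hs.even
    intro z hz
    have h2 := hFR z hz
    have hd := hfix z h2
    refine ⟨hd, ?_⟩
    have hnx : ¬ Xc m δ z := fun k => (hxm z k) hd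
    have := hx2 z h2
    rw [dg_f2_nx hm hnx, dg_rm_fix hs.inv hd] at this
    exact this

end Pool.Agent.H416R4.PK
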