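import Pool.Agent.H416R4.PK.Defs

set_option autoImplicit false
open Classical

namespace Pool.Agent.H416R4.PK

variable {V : Type*} [Fintype V]

/-- T17 -/
theorem acy_of_mini (H : SimpleGraph V) (m δ : V → V) (hi : Inv H m) (hmin : Mini H m)
    (hδ : ∀ x, δ (δ x) = x) (ha : ∀ x, δ x ≠ x → (rm H m).Adj x (δ x))
    (one : ∀ x y, δ x ≠ x → δ y ≠ y → (rm H m).Reachable x y → y = x ∨ y = δ x) :
    Acy (rm H m) m δ := by
  intro Y hX hm hd hr
  by_contra hne
  obtain ⟨y0, hy0⟩ := Set.nonempty_iff_ne_empty.2 hne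
  set m' : V → V := fun x => if x ∈ Y then δ x else m x with hm'
  have e1 : ∀ x, x ∈ Y → m' x = δ x := fun x hx => if_pos hx
  have e2 : ∀ x, x ∉ Y → m' x = m x := fun x hx => if_neg hx
  have hmY : ∀ x, x ∉ Y → m x ∉ Y := fun x hx h => hx (by
    have := hm _ h
    rwa [hi.inv] at this)
  have hInv : Inv H m' := by
    refine ⟨fun x => ?_, fun x hx => ?_⟩
    · by_cases h : x ∈ Y
      · rw [e1 x h, e1 _ (hd x h), hδ]
      · rw [e2 x h, e2 _ (hmY x h), hi.inv]
    · by_cases h : x ∈ Y
      · rw [e1 x h] at hx ⊢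
        exact (ha x hx).1
      · rw [e2 x h] at hx ⊢
        exact hi.adj x hx
  have hfix : ∀ x, m' x = x ↔ m x = x := by
    intro x
    by_cases h : x ∈ Y
    · rw [e1 x h]
      exact ⟨fun h1 => absurd h1 (hX x h).2.1, fun h1 => absurd h1 (hX x h).1⟩
    · rw [e2 x h]
  have hor : ∀ x, m' x = δ x ∨ m' x = m x := fun x => by
    by_cases h : x ∈ Y
    · exact Or.inl (e1 x h)
    · exact Or.inr (e2 x h)
  have hle : rm (rm H m) δ ≤ rm H m' := by
    intro p q h
    refine ⟨h.1.1, ?_, ?_⟩
    · rcases hor p with h1 | h1 <;> rw [h1]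
      · exact h.2.1
      · exact h.1.2.1
    · rcases hor q with h1 | h1 <;> rw [h1]
      · exact h.2.2
      · exact h.1.2.2
  have hreach : ∀ a b, (rm H m).Adj a b → (rm H m').Reachable a b := by
    intro a b hab
    by_cases h : a ∈ Y ∧ b = δ a
    · rw [h.2]
      exact (hr a h.1).mono hle
    · refine SimpleGraph.Adj.reachable ⟨hab.1, ?_, ?_⟩
      · by_cases h1 : a ∈ Y
        · rw [e1 a h1]
          exact fun h2 => h ⟨h1, h2.symm⟩
        · rw [e2 a h1]
          exact hab.2.1
      · by_cases h1 : b ∈ Y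
        · rw [e1 b h1]
          intro h2
          have h3 := hd b h1
          rw [h2] at h3
          exact h ⟨h3, by rw [← h2, hδ]⟩
        · rw [e2 b h1]
          exact hab.2.2
  have hreach' : ∀ a b, (rm H m).Reachable a b → (rm H m').Reachable a b := by
    intro a b hab
    obtain ⟨w⟩ := hab
    induction w with
    | nil => exact SimpleGraph.Reachable.refl _
    | cons h _ ih => exact (hreach _ _ h).trans ih
  have hX0 := hX y0 hy0
  have hmd : m y0 ≠ δ y0 := (ha y0 hX0.2.1).2.1
  have hadj : (rm H m').Adj y0 (m y0) := by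
    refine ⟨hi.adj y0 hX0.1, ?_, ?_⟩
    · rw [e1 y0 hy0]
      exact hmd.symm
    · rw [e1 _ (hm y0 hy0)]
      intro h
      apply hmd
      rw [← h, hδ, h]
  have hnr : ¬ (rm H m).Reachable y0 (m y0) := by
    intro h
    rcases one y0 (m y0) hX0.2.1 hX0.2.2 h with h1 | h1
    · exact hX0.1 h1
    · exact hmd h1
  let φ : (rm H m).ConnectedComponent → (rm H m').ConnectedComponent :=
    Quot.lift (fun v => (rm H m').connectedComponentMk v)
      fun a b h => SimpleGraph.ConnectedComponent.sound (hreach' a b h)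
  have hsurj : Function.Surjective φ := by
    intro C
    obtain ⟨v, rfl⟩ := C.exists_rep
    exact ⟨(rm H m).connectedComponentMk v, rfl⟩
  have hbij := hsurj.bijective_of_nat_card_le (hmin m' hInv hfix)
  have h5 : φ ((rm H m).connectedComponentMk y0) = φ ((rm H m).connectedComponentMk (m y0)) :=
    SimpleGraph.ConnectedComponent.sound hadj.reachable
  exact hnr (SimpleGraph.ConnectedComponent.exact (hbij.1 h5))

end Pool.Agent.H416R4.PK
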