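import Pool.Agent.H416R4.PK.Defs

set_option autoImplicit false
open Classical

namespace Pool.Agent.H416R4.PK

namespace T18

theorem main {E : Type*} (Γ : SimpleGraph E) (L : E → Finset (Fin 4)) (n : ℕ) :
    ∀ A : Finset E, A.card = n → (∀ e ∈ A, (A.filter (Γ.Adj e)).card ≤ (L e).card) →
    (∀ S : Finset E, S ⊆ A → S.Nonempty → (∀ e ∈ S, ∀ e' ∈ A, Γ.Adj e e' → e' ∈ S) →
      ∃ e ∈ S, (A.filter (Γ.Adj e)).card < (L e).card) →
    ∃ f : E → Fin 4, (∀ e ∈ A, f e ∈ L e) ∧ ∀ e ∈ A, ∀ e' ∈ A, Γ.Adj e e' → f e ≠ f e' := by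
  induction n with
  | zero =>
    intro A hA _ _
    rw [Finset.card_eq_zero] at hA
    subst hA
    exact ⟨fun _ => 0, by simp, by simp⟩
  | succ n ih =>
    intro A hA h1 h2
    have hne : A.Nonempty := by
      rw [← Finset.card_pos]
      omega
    obtain ⟨v, hv, hvl⟩ := h2 A (Finset.Subset.refl A) hne (fun e _ e' he' _ => he')
    have hmono : ∀ e, ((A.erase v).filter (Γ.Adj e)).card ≤ (A.filter (Γ.Adj e)).card :=
      fun e => Finset.card_le_card (Finset.filter_subset_filter _ (Finset.erase_subset v A))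
    have hstrict : ∀ e, Γ.Adj e v →
        ((A.erase v).filter (Γ.Adj e)).card < (A.filter (Γ.Adj e)).card := by
      intro e he
      apply Finset.card_lt_card
      rw [Finset.ssubset_iff_of_subset (Finset.filter_subset_filter _ (Finset.erase_subset v A))]
      exact ⟨v, Finset.mem_filter.2 ⟨hv, he⟩, fun h => by simpa using (Finset.mem_filter.1 h).1⟩
    obtain ⟨f, hf1, hf2⟩ := ih (A.erase v) (by rw [Finset.card_erase_of_mem hv]; omega)
      (fun e he => (hmono e).trans (h1 e (Finset.mem_of_mem_erase he))) (by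
        intro S hS hSne hcl
        by_cases hex : ∃ e ∈ S, Γ.Adj e v
        · obtain ⟨e, he, hev⟩ := hex
          exact ⟨e, he, lt_of_lt_of_le (hstrict e hev) (h1 e (Finset.mem_of_mem_erase (hS he)))⟩
        · obtain ⟨e, he, hel⟩ := h2 S (hS.trans (Finset.erase_subset v A)) hSne (by
            intro e he e' he' hadj
            refine hcl e he e' (Finset.mem_erase.2 ⟨?_, he'⟩) hadj
            rintro rfl
            exact hex ⟨e, he, hadj⟩)
          exact ⟨e, he, lt_of_le_of_lt (hmono e) hel⟩)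
    have h3 : ((A.filter (Γ.Adj v)).image f).card < (L v).card :=
      lt_of_le_of_lt Finset.card_image_le hvl
    obtain ⟨x, hx, hx'⟩ := Finset.exists_mem_notMem_of_card_lt_card h3
    refine ⟨Function.update f v x, ?_, ?_⟩
    · intro e he
      by_cases hev : e = v
      · subst hev
        rw [Function.update_self]
        exact hx
      · rw [Function.update_of_ne hev]
        exact hf1 e (Finset.mem_erase.2 ⟨hev, he⟩)
    · intro e he e' he' hadj
      by_cases hev : e = v
      · subst hev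
        have hne' : e' ≠ e := hadj.ne'
        rw [Function.update_self, Function.update_of_ne hne']
        rintro rfl
        exact hx' (Finset.mem_image.2 ⟨e', Finset.mem_filter.2 ⟨he', hadj⟩, rfl⟩)
      · by_cases hev' : e' = v
        · subst hev'
          rw [Function.update_self, Function.update_of_ne hev]
          rintro rfl
          exact hx' (Finset.mem_image.2 ⟨e, Finset.mem_filter.2 ⟨he, hadj.symm⟩, rfl⟩)
        · rw [Function.update_of_ne hev, Function.update_of_ne hev']
          exact hf2 e (Finset.mem_erase.2 ⟨hev, he⟩) e' (Finset.mem_erase.2 ⟨hev', he'⟩) hadj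

theorem dg_eq {E : Type*} [Fintype E] (Γ : SimpleGraph E) (e : E) :
    dg Γ e = (Finset.univ.filter (Γ.Adj e)).card := by
  unfold dg
  rw [← Set.ncard_coe_finset]
  congr 1
  ext x
  simp

end T18

/-- T18 -/
theorem list_col {E : Type*} [Fintype E] (Γ : SimpleGraph E) (L : E → Finset (Fin 4))
    (h1 : ∀ e, dg Γ e ≤ (L e).card)
    (h2 : ∀ S : Set E, S.Nonempty → (∀ e ∈ S, ∀ e', Γ.Adj e e' → e' ∈ S) →
      ∃ e ∈ S, dg Γ e < (L e).card) :
    ∃ f : E → Fin 4, (∀ e, f e ∈ L e) ∧ ∀ e e', Γ.Adj e e' → f e ≠ f e' := by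
  obtain ⟨f, hf1, hf2⟩ := T18.main Γ L _ Finset.univ rfl
    (fun e _ => by rw [← T18.dg_eq]; exact h1 e) (by
      intro S _ hne hcl
      obtain ⟨e, he, hel⟩ := h2 (S : Set E) (by simpa using hne)
        (fun e he e' hadj => hcl e he e' (Finset.mem_univ _) hadj)
      exact ⟨e, he, by rw [← T18.dg_eq]; exact hel⟩)
  exact ⟨f, fun e => hf1 e (Finset.mem_univ _),
    fun e e' h => hf2 e (Finset.mem_univ _) e' (Finset.mem_univ _) h⟩

end Pool.Agent.H416R4.PK
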