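import Pool.Agent.H416R4.PK.Defs
import Pool.Agent.H416R4.PK.T18

/-! Task T19 (helper833): list colouring of the chosen edges. -/

set_option autoImplicit false
open Classical

namespace Pool.Agent.H416R4.PK

variable {V : Type*} [Fintype V]

namespace T19

set_option linter.unusedSectionVars false

/-- representatives of the orbits of an involution -/
theorem exists_rep (δ : V → V) (hδ : ∀ x, δ (δ x) = x) :
    ∃ R : V → V, (∀ x, R x = x ∨ R x = δ x) ∧ ∀ x, R (δ x) = R x := by
  let e := Fintype.equivFin V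
  refine ⟨fun x => if e x ≤ e (δ x) then x else δ x, ?_, ?_⟩
  · intro x
    by_cases h : e x ≤ e (δ x)
    · left; simp only [h, if_true]
    · right; simp only [h, if_false]
  · intro x
    simp only [hδ]
    by_cases h : e x ≤ e (δ x)
    · by_cases h2 : e (δ x) ≤ e x
      · have h3 : δ x = x := e.injective (le_antisymm h2 h)
        simp only [h3]
      · simp only [h, h2, if_true, if_false]
    · have h2 : e (δ x) ≤ e x := le_of_not_ge h
      simp only [h, h2, if_true, if_false]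

theorem Xc_m {m δ : V → V} (hm : ∀ x, m (m x) = x) {x : V} (h : Xc m δ x) : Xc m δ (m x) := by
  obtain ⟨h1, h2, h3⟩ := h
  refine ⟨?_, h3, ?_⟩
  · rw [hm]; exact fun h => h1 h.symm
  · rw [hm]; exact h2

/-- the graph on the representatives of the chosen edges -/
def Gam (m δ R : V → V) (hm : ∀ x, m (m x) = x) : SimpleGraph V where
  Adj a b := a ≠ b ∧ ∃ x, Xc m δ x ∧ R x = a ∧ R (m x) = b
  symm := ⟨by
    rintro a b ⟨h1, x, h2, h3, h4⟩
    exact ⟨h1.symm, m x, Xc_m hm h2, h4, by rw [hm]; exact h3⟩⟩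
  loopless := ⟨fun a h => h.1 rfl⟩

/-- own colour -/
noncomputable def Sx (m δ : V → V) (c : V → Fin 4) (x : V) : Finset (Fin 4) :=
  if m x ≠ x ∧ ¬ Xc m δ x then {c x} else ∅

/-- colours of the outer neighbours -/
noncomputable def Ox (F : SimpleGraph V) (m δ : V → V) (c : V → Fin 4) (x : V) :
    Finset (Fin 4) :=
  Finset.univ.filter (fun k => ∃ z, F.Adj x z ∧ z ≠ δ x ∧ m z ≠ z ∧ k = c z)

/-- excluded colours -/
noncomputable def Bd (F : SimpleGraph V) (m δ R : V → V) (c : V → Fin 4) (a : V) :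
    Finset (Fin 4) :=
  Finset.univ.filter (fun k => ∃ x, R x = a ∧ δ x ≠ x ∧ (k ∈ Sx m δ c x ∨ k ∈ Ox F m δ c x))

/-- number of `X`-ends -/
noncomputable def tx (m δ : V → V) (x : V) : ℕ := if Xc m δ x then 1 else 0

theorem Sx_tx (m δ : V → V) (c : V → Fin 4) (x : V) :
    (Sx m δ c x).card + tx m δ x ≤ 1 := by
  unfold Sx tx
  by_cases h : Xc m δ x
  · simp [h]
  · by_cases h2 : m x = x
    · simp [h, h2]
    · simp [h, h2]

theorem outer_unique (F : SimpleGraph V) (δ : V → V) (hF : ∀ x, dg F x ≤ 2) (x z z' : V)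
    (hx : F.Adj x (δ x)) (hz : F.Adj x z) (hz1 : z ≠ δ x) (hz' : F.Adj x z') (hz'1 : z' ≠ δ x) :
    z = z' := by
  by_contra hne
  have h1 : ({δ x, z, z'} : Set V) ⊆ F.neighborSet x := by
    rintro y (rfl | rfl | rfl)
    · exact hx
    · exact hz
    · exact hz'
  have h2 := Set.ncard_le_ncard h1 (Set.toFinite _)
  have h3 : ({δ x, z, z'} : Set V).ncard = 3 := by
    rw [Set.ncard_eq_three]
    exact ⟨_, _, _, hz1.symm, hz'1.symm, hne, rfl⟩
  have h4 := hF x
  unfold dg at h4
  omega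

theorem Ox_sub (F : SimpleGraph V) (m δ : V → V) (c : V → Fin 4) (hF : ∀ x, dg F x ≤ 2)
    (x z : V) (hx : F.Adj x (δ x)) (hz : F.Adj x z) (hz1 : z ≠ δ x) :
    Ox F m δ c x ⊆ {c z} := by
  intro k hk
  unfold Ox at hk
  rw [Finset.mem_filter] at hk
  obtain ⟨-, z', h1, h2, h3, rfl⟩ := hk
  rw [outer_unique F δ hF x z z' hx hz hz1 h1 h2]
  exact Finset.mem_singleton_self _

theorem Ox_card (F : SimpleGraph V) (m δ : V → V) (c : V → Fin 4) (hF : ∀ x, dg F x ≤ 2)
    (x : V) (hx : F.Adj x (δ x)) : (Ox F m δ c x).card ≤ 1 := by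
  by_cases h : ∃ z, F.Adj x z ∧ z ≠ δ x
  · obtain ⟨z, h1, h2⟩ := h
    exact (Finset.card_le_card (Ox_sub F m δ c hF x z hx h1 h2)).trans (by simp)
  · have : Ox F m δ c x = ∅ := by
      rw [Finset.eq_empty_iff_forall_notMem]
      intro k hk
      unfold Ox at hk
      rw [Finset.mem_filter] at hk
      obtain ⟨-, z', h1, h2, -⟩ := hk
      exact h ⟨z', h1, h2⟩
    simp [this]

section
variable (F : SimpleGraph V) (m δ R : V → V) (c : V → Fin 4)
  (hδ : ∀ x, δ (δ x) = x) (hR1 : ∀ x, R x = x ∨ R x = δ x) (hR2 : ∀ x, R (δ x) = R x)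
  (hm : ∀ x, m (m x) = x)

include hδ hR1 in
theorem R_inj {x y : V} (h : R y = R x) : y = x ∨ y = δ x := by
  rcases hR1 x with h1 | h1 <;> rcases hR1 y with h2 | h2
  · left; rw [← h2, h, h1]
  · right
    rw [h1] at h
    rw [← h, h2, hδ]
  · right; rw [← h2, h, h1]
  · left
    have h3 : δ y = δ x := by rw [← h2, h, h1]
    have h4 := congrArg δ h3
    rwa [hδ, hδ] at h4

include hδ hR1 in
theorem Bd_sub (x : V) :
    Bd F m δ R c (R x) ⊆ (Sx m δ c x ∪ Sx m δ c (δ x)) ∪ (Ox F m δ c x ∪ Ox F m δ c (δ x)) := by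
  intro k hk
  unfold Bd at hk
  rw [Finset.mem_filter] at hk
  obtain ⟨-, y, h1, h2, h3⟩ := hk
  simp only [Finset.mem_union]
  rcases R_inj δ R hδ hR1 h1 with rfl | rfl
  · rcases h3 with h3 | h3
    · exact Or.inl (Or.inl h3)
    · exact Or.inr (Or.inl h3)
  · rcases h3 with h3 | h3
    · exact Or.inl (Or.inr h3)
    · exact Or.inr (Or.inr h3)

include hδ hR1 in
theorem dg_le (x : V) : dg (Gam m δ R hm) (R x) ≤ tx m δ x + tx m δ (δ x) := by
  have h1 : (Gam m δ R hm).neighborSet (R x) ⊆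
      (if Xc m δ x then {R (m x)} else ∅) ∪ (if Xc m δ (δ x) then {R (m (δ x))} else ∅) := by
    rintro b ⟨-, y, h2, h3, h4⟩
    rcases R_inj δ R hδ hR1 h3 with rfl | rfl
    · left
      rw [if_pos h2]
      exact h4.symm
    · right
      rw [if_pos h2]
      exact h4.symm
  have h2 := Set.ncard_le_ncard h1 (Set.toFinite _)
  have h3 := Set.ncard_union_le (if Xc m δ x then ({R (m x)} : Set V) else ∅)
    (if Xc m δ (δ x) then ({R (m (δ x))} : Set V) else ∅)
  have h4 : ∀ y : V, (if Xc m δ y then ({R (m y)} : Set V) else ∅).ncard = tx m δ y := by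
    intro y
    unfold tx
    by_cases h : Xc m δ y
    · simp [h]
    · simp [h]
  rw [h4, h4] at h3
  unfold dg
  omega

variable (hF : ∀ x, dg F x ≤ 2) (hadj : ∀ x, δ x ≠ x → F.Adj x (δ x))

include hδ in
theorem dne {x : V} (h : δ x ≠ x) : δ (δ x) ≠ δ x := by
  rw [hδ]; exact h.symm

include hδ hR1 hF hadj in
theorem cnt (x : V) (hx : δ x ≠ x) :
    dg (Gam m δ R hm) (R x) + (Bd F m δ R c (R x)).card ≤ 4 := by
  have h1 := dg_le m δ R hδ hR1 hm x
  have h2 := Finset.card_le_card (Bd_sub F m δ R c hδ hR1 x)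
  have h3 := Finset.card_union_le (Sx m δ c x ∪ Sx m δ c (δ x))
    (Ox F m δ c x ∪ Ox F m δ c (δ x))
  have h4 := Finset.card_union_le (Sx m δ c x) (Sx m δ c (δ x))
  have h5 := Finset.card_union_le (Ox F m δ c x) (Ox F m δ c (δ x))
  have h6 := Sx_tx m δ c x
  have h7 := Sx_tx m δ c (δ x)
  have h8 := Ox_card F m δ c hF x (hadj x hx)
  have h9 := Ox_card F m δ c hF (δ x) (hadj (δ x) (dne δ hδ hx))
  omega

include hδ hR1 hF hadj in
/-- surplus -/
theorem surplus (x : V) (hx : δ x ≠ x)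
    (h : m x = x ∨ (∃ z w, F.Adj x z ∧ z ≠ δ x ∧ F.Adj (δ x) w ∧ w ≠ x ∧ c z = c w) ∨
      (¬ Xc m δ x ∧ ∃ r, F.Adj (δ x) r ∧ r ≠ x ∧ c r = c x)) :
    dg (Gam m δ R hm) (R x) + (Bd F m δ R c (R x)).card ≤ 3 := by
  have h1 := dg_le m δ R hδ hR1 hm x
  have h2 := Finset.card_le_card (Bd_sub F m δ R c hδ hR1 x)
  have h3 := Finset.card_union_le (Sx m δ c x ∪ Sx m δ c (δ x))
    (Ox F m δ c x ∪ Ox F m δ c (δ x))
  have h4 := Finset.card_union_le (Sx m δ c x) (Sx m δ c (δ x))
  have h5 := Finset.card_union_le (Ox F m δ c x) (Ox F m δ c (δ x))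
  have h6 := Sx_tx m δ c x
  have h7 := Sx_tx m δ c (δ x)
  have h8 := Ox_card F m δ c hF x (hadj x hx)
  have h9 := Ox_card F m δ c hF (δ x) (hadj (δ x) (dne δ hδ hx))
  rcases h with h | ⟨z, w, hz, hz1, hw, hw1, hzw⟩ | ⟨hX, r, hr, hr1, hr2⟩
  · have e1 : Sx m δ c x = ∅ := by
      unfold Sx; simp [h]
    have e2 : tx m δ x = 0 := by
      unfold tx Xc; simp [h]
    have e3 : (Sx m δ c x).card = 0 := by rw [e1]; simp
    omega
  · have a1 := Ox_sub F m δ c hF x z (hadj x hx) hz hz1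
    have a2 := Ox_sub F m δ c hF (δ x) w (hadj (δ x) (dne δ hδ hx)) hw (by rw [hδ]; exact hw1)
    have a3 : (Ox F m δ c x ∪ Ox F m δ c (δ x)).card ≤ 1 := by
      have : Ox F m δ c x ∪ Ox F m δ c (δ x) ⊆ {c z} := by
        apply Finset.union_subset a1
        rw [hzw]; exact a2
      exact (Finset.card_le_card this).trans (by simp)
    omega
  · have e2 : tx m δ x = 0 := by
      unfold tx; simp [hX]
    have a2 := Ox_sub F m δ c hF (δ x) r (hadj (δ x) (dne δ hδ hx)) hr (by rw [hδ]; exact hr1)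
    have a3 : Sx m δ c x ⊆ {c x} := by
      unfold Sx
      split_ifs
      · exact le_rfl
      · exact Finset.empty_subset _
    have a4 : (Sx m δ c x ∪ Sx m δ c (δ x)) ∪ (Ox F m δ c x ∪ Ox F m δ c (δ x)) ⊆
        ({c x} ∪ Sx m δ c (δ x)) ∪ Ox F m δ c x := by
      intro k hk
      simp only [Finset.mem_union] at hk ⊢
      rcases hk with (hk | hk) | (hk | hk)
      · exact Or.inl (Or.inl (a3 hk))
      · exact Or.inl (Or.inr hk)
      · exact Or.inr hk
      · have := a2 hk
        rw [hr2] at this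
        exact Or.inl (Or.inl this)
    have a5 := Finset.card_le_card a4
    have a6 := Finset.card_union_le ({c x} ∪ Sx m δ c (δ x)) (Ox F m δ c x)
    have a7 := Finset.card_union_le ({c x} : Finset (Fin 4)) (Sx m δ c (δ x))
    have a8 : ({c x} : Finset (Fin 4)).card = 1 := Finset.card_singleton _
    omega

/-- vertices that are no representatives of chosen edges -/
theorem triv (a : V) (h : ∀ x, R x = a → δ x = x) :
    dg (Gam m δ R hm) a = 0 ∧ Bd F m δ R c a = ∅ := by
  constructor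
  · unfold dg
    rw [Set.ncard_eq_zero (Set.toFinite _), Set.eq_empty_iff_forall_notMem]
    rintro b ⟨-, y, h2, h3, -⟩
    exact h2.2.1 (h y h3)
  · rw [Finset.eq_empty_iff_forall_notMem]
    intro k hk
    unfold Bd at hk
    rw [Finset.mem_filter] at hk
    obtain ⟨-, y, h1, h2, -⟩ := hk
    exact h2 (h y h1)

end

end T19

open T19 in
/-- T19 -/
theorem list_app (F : SimpleGraph V) (m δ : V → V) (U β : Set V) (c : V → Fin 4)
    (hF : ∀ x, dg F x ≤ 2) (hm : ∀ x, m (m x) = x) (hmF : ∀ x, ¬ F.Adj x (m x))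
    (hc : Col F m c) (hs : Slot F m U c δ β) (ha : Acy F m δ) :
    ∃ f : V → Fin 4, (∀ x, f (δ x) = f x) ∧
      (∀ x, δ x ≠ x → m x ≠ x → ¬ Xc m δ x → f x ≠ c x) ∧
      (∀ x z, δ x ≠ x → F.Adj x z → z ≠ δ x → m z ≠ z → f x ≠ c z) ∧
      (∀ x, Xc m δ x → f x ≠ f (m x)) := by
  have hδ := hs.inv
  have hadj := hs.adj
  obtain ⟨R, hR1, hR2⟩ := exists_rep δ hδ
  have hadjG : ∀ x, Xc m δ x → (Gam m δ R hm).Adj (R x) (R (m x)) := by
    intro x hx
    refine ⟨?_, x, hx, rfl, rfl⟩
    intro h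
    rcases R_inj δ R hδ hR1 h.symm with h1 | h1
    · exact hx.1 h1
    · have h2 := hadj x hx.2.1
      rw [← h1] at h2
      exact hmF x h2
  have hcard : ∀ e, ((Bd F m δ R c e)ᶜ).card = 4 - (Bd F m δ R c e).card := by
    intro e
    rw [Finset.card_compl, Fintype.card_fin]
  obtain ⟨f0, hf0, hf1⟩ := list_col (Gam m δ R hm) (fun e => (Bd F m δ R c e)ᶜ) (by
    intro e
    show dg (Gam m δ R hm) e ≤ ((Bd F m δ R c e)ᶜ).card
    rw [hcard]
    by_cases h : ∃ x, R x = e ∧ δ x ≠ x
    · obtain ⟨x, rfl, hx⟩ := h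
      have := cnt F m δ R c hδ hR1 hm hF hadj x hx
      omega
    · push Not at h
      obtain ⟨h1, h2⟩ := triv F m δ R c hm e h
      rw [h1]
      exact Nat.zero_le _) (by
    intro S hS hcl
    by_contra hno
    push Not at hno
    have hno' : ∀ e ∈ S, 4 ≤ dg (Gam m δ R hm) e + (Bd F m δ R c e).card := by
      intro e he
      have h1 := hno e he
      rw [hcard] at h1
      omega
    have hreal : ∀ e ∈ S, ∃ x, R x = e ∧ δ x ≠ x := by
      intro e he
      by_contra h
      push Not at h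
      obtain ⟨h1, h2⟩ := triv F m δ R c hm e h
      have h3 := hno' e he
      rw [h1, h2] at h3
      simp at h3
    -- no surplus
    have key : ∀ x, δ x ≠ x → R x ∈ S →
        (x ∈ β → Xc m δ x) ∧ (x ∈ β ∨ δ x ∈ β) := by
      intro x hx hxS
      have hx' : δ (δ x) ≠ δ x := dne δ hδ hx
      have h1 := hno' _ hxS
      have s1 := surplus F m δ R c hδ hR1 hm hF hadj x hx
      have s2 := surplus F m δ R c hδ hR1 hm hF hadj (δ x) hx'
      rw [hR2, hδ] at s2
      constructor
      · intro hb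
        by_contra hX
        have := s1 (Or.inr (Or.inr ⟨hX, hs.badc x hb⟩))
        omega
      · rcases hs.typ x hx with h | h | h | h | h
        · exact Or.inl h
        · exact Or.inr h
        · have := s1 (Or.inl h)
          omega
        · have := s2 (Or.inl h)
          omega
        · have := s1 (Or.inr (Or.inl h))
          omega
    set Y0 : Set V := {b | b ∈ β ∧ R b ∈ S} with hY0
    have hX0 : ∀ b ∈ Y0, Xc m δ b := by
      intro b hb
      exact (key b (hs.badd b hb.1) hb.2).1 hb.1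
    have hg : ∀ b ∈ Y0, δ (m b) ∈ Y0 := by
      intro b hb
      have h1 := hX0 b hb
      have h2 : R (m b) ∈ S := hcl (R b) hb.2 _ (hadjG b h1)
      have h3 := (key (m b) h1.2.2 h2).2
      rcases h3 with h3 | h3
      · exact absurd h3 (hs.badm b hb.1)
      · exact ⟨h3, by rw [hR2]; exact h2⟩
    have hinj : Set.InjOn (fun b => δ (m b)) Y0 := by
      intro b _ b' _ h
      have h1 : δ (δ (m b)) = δ (δ (m b')) := congrArg δ h
      rw [hδ, hδ] at h1
      have h2 := congrArg m h1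
      rwa [hm, hm] at h2
    have hsurj : ∀ b ∈ Y0, ∃ b' ∈ Y0, δ (m b') = b := by
      have h1 : (fun b => δ (m b)) '' Y0 ⊆ Y0 := by
        rintro _ ⟨b, hb, rfl⟩
        exact hg b hb
      have h2 : (fun b => δ (m b)) '' Y0 = Y0 := by
        apply Set.eq_of_subset_of_ncard_le h1 _ (Set.toFinite _)
        rw [Set.ncard_image_of_injOn hinj]
      intro b hb
      rw [← h2] at hb
      obtain ⟨b', hb', h3⟩ := hb
      exact ⟨b', hb', h3⟩
    have hY := ha (Y0 ∪ {y | δ y ∈ Y0}) (by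
      rintro y (hy | hy)
      · exact hX0 y hy
      · obtain ⟨b', hb', h1⟩ := hsurj _ hy
        have h2 : m b' = y := by
          have := congrArg δ h1
          rwa [hδ, hδ] at this
        rw [← h2]
        exact Xc_m hm (hX0 b' hb')) (by
      rintro y (hy | hy)
      · right
        exact hg y hy
      · left
        obtain ⟨b', hb', h1⟩ := hsurj _ hy
        have h2 : m b' = y := by
          have := congrArg δ h1
          rwa [hδ, hδ] at this
        rw [← h2, hm]
        exact hb') (by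
      rintro y (hy | hy)
      · right
        show δ (δ y) ∈ Y0
        rw [hδ]; exact hy
      · left; exact hy) (by
      rintro y (hy | hy)
      · exact hs.badr y hy.1
      · have := hs.badr _ hy.1
        rw [hδ] at this
        exact this.symm)
    obtain ⟨e, he⟩ := hS
    obtain ⟨x, rfl, hx⟩ := hreal e he
    have h1 := (key x hx he).2
    have h2 : x ∈ Y0 ∪ {y | δ y ∈ Y0} := by
      rcases h1 with h1 | h1
      · exact Or.inl ⟨h1, he⟩
      · exact Or.inr ⟨h1, by rw [hR2]; exact he⟩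
    rw [hY] at h2
    exact h2)
  have hno : ∀ x, δ x ≠ x → ∀ k, (k ∈ Sx m δ c x ∨ k ∈ Ox F m δ c x) → f0 (R x) ≠ k := by
    intro x hx k hk h
    have h1 := hf0 (R x)
    rw [Finset.mem_compl] at h1
    apply h1
    unfold Bd
    rw [Finset.mem_filter]
    exact ⟨Finset.mem_univ _, x, rfl, hx, by rw [h]; exact hk⟩
  refine ⟨fun x => f0 (R x), ?_, ?_, ?_, ?_⟩
  · intro x
    show f0 (R (δ x)) = f0 (R x)
    rw [hR2]
  · intro x hx hmx hX
    apply hno x hx
    left
    unfold Sx
    rw [if_pos ⟨hmx, hX⟩]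
    exact Finset.mem_singleton_self _
  · intro x z hx hz hz1 hz2
    apply hno x hx
    right
    unfold Ox
    rw [Finset.mem_filter]
    exact ⟨Finset.mem_univ _, z, hz, hz1, hz2, rfl⟩
  · intro x hx
    exact hf1 _ _ (hadjG x hx)

end Pool.Agent.H416R4.PK
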