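import Pool.Agent.H416R4.PK.Defs

/-!
# T20: a 2-colouring changed by two involutions
-/

set_option autoImplicit false
open Classical

namespace Pool.Agent.H416R4.PK

namespace T20

open Equiv.Perm

section
variable {W : Type*} (P M : Equiv.Perm W)

theorem conj_eq (hP : P * P = 1) (hM : M * M = 1) : P * (M * P) * P⁻¹ = (M * P)⁻¹ := by
  have hP' : P⁻¹ = P := inv_eq_of_mul_eq_one_left hP
  have hM' : M⁻¹ = M := inv_eq_of_mul_eq_one_left hM
  rw [mul_inv_rev, hP', hM']
  calc P * (M * P) * P = P * M * (P * P) := by group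
    _ = P * M := by rw [hP, mul_one]

theorem pow_comm (hP : P * P = 1) (hM : M * M = 1) (j : ℤ) :
    P * (M * P) ^ j = (M * P) ^ (-j) * P := by
  have h1 : P * (M * P) ^ j * P⁻¹ = (M * P) ^ (-j) := by
    rw [← conj_zpow, conj_eq P M hP hM, inv_zpow, zpow_neg]
  rw [← h1]
  group

theorem map_same (hP : P * P = 1) (hM : M * M = 1) {x y : W} (h : SameCycle (M * P) x y) :
    SameCycle (M * P) (P x) (P y) := by
  obtain ⟨k, hk⟩ := h
  refine ⟨-k, ?_⟩
  rw [← hk]
  have := congrArg (fun e : Equiv.Perm W => e x) (pow_comm P M hP hM k)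
  simp only [Equiv.Perm.mul_apply] at this
  exact this.symm

theorem not_same (hP : P * P = 1) (hM : M * M = 1) (fP : ∀ x, P x ≠ x) (fM : ∀ x, M x ≠ x)
    (x : W) : ¬ SameCycle (M * P) x (P x) := by
  rintro ⟨k, hk⟩
  rcases Int.even_or_odd' k with ⟨j, rfl | rfl⟩
  · have h1 : P * (M * P) ^ j = (M * P) ^ (-j) * P := pow_comm P M hP hM j
    have h2 : P (((M * P) ^ j) x) = ((M * P) ^ (-j)) (P x) := by
      have := congrArg (fun e : Equiv.Perm W => e x) h1
      simpa only [Equiv.Perm.mul_apply] using this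
    have e : -j + 2 * j = j := by ring
    have e0 : ((M * P) ^ (-j)) (((M * P) ^ (2 * j)) x) = ((M * P) ^ (-j + 2 * j)) x := by
      rw [zpow_add, Equiv.Perm.mul_apply]
    rw [← hk, e0, e] at h2
    exact fP _ h2
  · have h1 : P * (M * P) ^ j = (M * P) ^ (-j) * P := pow_comm P M hP hM j
    have h2 : P (((M * P) ^ j) x) = ((M * P) ^ (-j)) (P x) := by
      have := congrArg (fun e : Equiv.Perm W => e x) h1
      simpa only [Equiv.Perm.mul_apply] using this
    have e : -j + (2 * j + 1) = 1 + j := by ring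
    have e0 : ((M * P) ^ (-j)) (((M * P) ^ (2 * j + 1)) x) = ((M * P) ^ (-j + (2 * j + 1))) x := by
      rw [zpow_add _ (-j), Equiv.Perm.mul_apply]
    rw [← hk, e0, e, zpow_add, zpow_one, Equiv.Perm.mul_apply, Equiv.Perm.mul_apply] at h2
    exact fM _ h2.symm

/-- the orbits of the group generated by the two involutions -/
def st (hP : P * P = 1) (hM : M * M = 1) : Setoid W where
  r x y := SameCycle (M * P) x y ∨ SameCycle (M * P) (P x) y
  iseqv := by
    have hPP : ∀ x, P (P x) = x := fun x => by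
      rw [← Equiv.Perm.mul_apply, hP, Equiv.Perm.one_apply]
    refine ⟨fun x => Or.inl (SameCycle.refl _ _), ?_, ?_⟩
    · rintro x y (h | h)
      · exact Or.inl h.symm
      · right
        have h1 := map_same P M hP hM h
        rw [hPP] at h1
        exact h1.symm
    · rintro x y z (h | h) (h' | h')
      · exact Or.inl (h.trans h')
      · exact Or.inr ((map_same P M hP hM h).trans h')
      · exact Or.inr (h.trans h')
      · left
        have h1 := map_same P M hP hM h
        rw [hPP] at h1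
        exact h1.trans h'

theorem col (hP : P * P = 1) (hM : M * M = 1) (fP : ∀ x, P x ≠ x) (fM : ∀ x, M x ≠ x) :
    ∃ χ : W → Bool, (∀ x, χ (P x) ≠ χ x) ∧ (∀ x, χ (M x) ≠ χ x) := by
  have hPP : ∀ x, P (P x) = x := fun x => by
    rw [← Equiv.Perm.mul_apply, hP, Equiv.Perm.one_apply]
  have hro : ∀ x, SameCycle (M * P) (Quotient.out (Quotient.mk (st P M hP hM) x)) x ∨
      SameCycle (M * P) (P (Quotient.out (Quotient.mk (st P M hP hM) x))) x := fun x =>
    Quotient.exact (s := st P M hP hM) (Quotient.out_eq (Quotient.mk (st P M hP hM) x))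
  have eP : ∀ x, Quotient.mk (st P M hP hM) (P x) = Quotient.mk (st P M hP hM) x := fun x =>
    (Quotient.sound (s := st P M hP hM) (Or.inr (SameCycle.refl _ _))).symm
  have sM : ∀ x, SameCycle (M * P) (P x) (M x) := fun x => ⟨1, by
    rw [zpow_one, Equiv.Perm.mul_apply, hPP]⟩
  have eM : ∀ x, Quotient.mk (st P M hP hM) (M x) = Quotient.mk (st P M hP hM) x := fun x =>
    (Quotient.sound (s := st P M hP hM) (Or.inr (sM x))).symm
  set χ : W → Bool := fun x =>
    decide (SameCycle (M * P) (Quotient.out (Quotient.mk (st P M hP hM) x)) x) with hχ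
  have c1 : ∀ x, χ (P x) ≠ χ x := by
    intro x
    simp only [hχ]
    rw [eP x]
    rcases hro x with h | h
    · rw [decide_eq_true h]
      intro h2
      exact not_same P M hP hM fP fM x (h.symm.trans (decide_eq_true_eq.mp h2))
    · have h1 := map_same P M hP hM h
      rw [hPP] at h1
      rw [decide_eq_true h1]
      intro h2
      have h3 := decide_eq_true_eq.mp h2.symm
      exact not_same P M hP hM fP fM x (h3.symm.trans h1)
  refine ⟨χ, c1, fun x => ?_⟩
  have h4 : χ (M x) = χ (P x) := by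
    simp only [hχ]
    rw [eP x, eM x]
    exact decide_eq_decide.mpr ⟨fun h => h.trans (sM x).symm, fun h => h.trans (sM x)⟩
  rw [h4]
  exact c1 x

end

/-- remove the fixed points of an involution -/
noncomputable def dbl {V : Type*} (p : V → V) (w : V × Bool) : V × Bool :=
  if p w.1 = w.1 then (w.1, !w.2) else (p w.1, w.2)

theorem dbl_inv {V : Type*} (p : V → V) (hp : ∀ x, p (p x) = x) (w : V × Bool) :
    dbl p (dbl p w) = w := by
  obtain ⟨x, b⟩ := w
  by_cases h : p x = x
  · simp [dbl, h]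
  · have h' : ¬ x = p x := fun e => h e.symm
    simp [dbl, h, hp, h']

theorem dbl_ne {V : Type*} (p : V → V) (w : V × Bool) : dbl p w ≠ w := by
  obtain ⟨x, b⟩ := w
  by_cases h : p x = x
  · simp [dbl, h]
  · simp [dbl, h]

end T20

variable {V : Type*} [Fintype V]

/-- T20 -/
theorem two_inv (p m : V → V) (hp : ∀ x, p (p x) = x) (hm : ∀ x, m (m x) = x) :
    ∃ χ : V → Bool, (∀ x, p x ≠ x → χ (p x) ≠ χ x) ∧ (∀ x, m x ≠ x → χ (m x) ≠ χ x) := by
  set P : Equiv.Perm (V × Bool) := Function.Involutive.toPerm (T20.dbl p) (T20.dbl_inv p hp)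
    with hP
  set M : Equiv.Perm (V × Bool) := Function.Involutive.toPerm (T20.dbl m) (T20.dbl_inv m hm)
    with hM
  have hPa : ∀ w, P w = T20.dbl p w := fun w => rfl
  have hMa : ∀ w, M w = T20.dbl m w := fun w => rfl
  have hPP : P * P = 1 := by
    ext1 w
    rw [Equiv.Perm.mul_apply, Equiv.Perm.one_apply, hPa, hPa, T20.dbl_inv p hp]
  have hMM : M * M = 1 := by
    ext1 w
    rw [Equiv.Perm.mul_apply, Equiv.Perm.one_apply, hMa, hMa, T20.dbl_inv m hm]
  obtain ⟨χ, h1, h2⟩ := T20.col P M hPP hMM (fun w => T20.dbl_ne p w) (fun w => T20.dbl_ne m w)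
  refine ⟨fun x => χ (x, false), fun x hx => ?_, fun x hx => ?_⟩
  · have h3 := h1 (x, false)
    rw [hPa] at h3
    simpa [T20.dbl, hx] using h3
  · have h3 := h2 (x, false)
    rw [hMa] at h3
    simpa [T20.dbl, hx] using h3

end Pool.Agent.H416R4.PK
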