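import Pool.Agent.H416R4.PK.Defs

/-!
# T21: a cycle of odd length contains a slot
-/

set_option autoImplicit false
open Classical

namespace Pool.Agent.H416R4.PK

namespace T21

theorem fin_aux : ∀ p q : Fin 4, p ≠ q → ∀ a b : Fin 4, a ≠ b → ∀ d : Fin 4, a ≠ d → b ≠ d →
    ∀ e : Fin 4, a ≠ e → b ≠ e → d ≠ e →
    (b ≠ p ∧ b ≠ q ↔ ¬ (a ≠ p ∧ a ≠ q)) → (d ≠ p ∧ d ≠ q ↔ ¬ (a ≠ p ∧ a ≠ q)) →
    (e ≠ p ∧ e ≠ q ↔ (a ≠ p ∧ a ≠ q)) := by
  intro p q hpq a b hab d had hbd e hae hbe hde
  simp only [Ne, Fin.ext_iff] at *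
  have := p.isLt
  have := q.isLt
  have := a.isLt
  have := b.isLt
  have := d.isLt
  have := e.isLt
  omega

end T21

variable {V : Type*} [Fintype V]

/-- T21 -/
theorem slot_cycle (F : SimpleGraph V) (c : V → Fin 4) (x0 : V)
    (hdeg : ∀ z, F.Reachable x0 z → dg F z = 2)
    (hcol : ∀ z w, F.Reachable x0 z → F.Adj z w → c z ≠ c w)
    (hodd : Odd {z | F.Reachable x0 z}.ncard) :
    (∃ x y z w, F.Reachable x0 x ∧ F.Adj x y ∧ F.Adj x z ∧ z ≠ y ∧ F.Adj y w ∧ w ≠ x ∧ c z = c w) ∨
    (∃ l o r, F.Reachable x0 l ∧ F.Adj l o ∧ F.Adj o r ∧ l ≠ r ∧ c l = c r) := by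
  by_contra hcon
  rw [not_or] at hcon
  obtain ⟨hc1, hc2⟩ := hcon
  have N1 : ∀ x y z w, F.Reachable x0 x → F.Adj x y → F.Adj x z → z ≠ y → F.Adj y w → w ≠ x →
      c z ≠ c w := fun x y z w h1 h2 h3 h4 h5 h6 h7 => hc1 ⟨x, y, z, w, h1, h2, h3, h4, h5, h6, h7⟩
  have N2 : ∀ l o r, F.Reachable x0 l → F.Adj l o → F.Adj o r → l ≠ r → c l ≠ c r :=
    fun l o r h1 h2 h3 h4 h5 => hc2 ⟨l, o, r, h1, h2, h3, h4, h5⟩
  have hnb : ∀ z, F.Reachable x0 z → ∃ y w, y ≠ w ∧ F.Adj z y ∧ F.Adj z w ∧
      ∀ t, F.Adj z t → t = y ∨ t = w := by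
    intro z hz
    obtain ⟨y, w, hyw, hset⟩ := Set.ncard_eq_two.1 (hdeg z hz)
    have h1 : y ∈ F.neighborSet z := by rw [hset]; simp
    have h2 : w ∈ F.neighborSet z := by rw [hset]; simp
    refine ⟨y, w, hyw, h1, h2, ?_⟩
    intro t ht
    have h3 : t ∈ F.neighborSet z := ht
    rw [hset] at h3
    simpa using h3
  obtain ⟨y0, w0, h0, hy0, hw0, hall0⟩ := hnb x0 (SimpleGraph.Reachable.refl x0)
  have hpq : c y0 ≠ c w0 := N2 y0 x0 w0 hy0.reachable hy0.symm hw0 h0
  let A : V → Prop := fun v => c v ≠ c y0 ∧ c v ≠ c w0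
  have key : ∀ v, F.Reachable x0 v → ∀ w, F.Adj v w → (A w ↔ ¬ A v) := by
    intro v hv
    rw [SimpleGraph.reachable_iff_reflTransGen] at hv
    induction hv with
    | refl =>
      intro w hw
      have hx : A x0 := ⟨hcol x0 y0 (SimpleGraph.Reachable.refl x0) hy0,
        hcol x0 w0 (SimpleGraph.Reachable.refl x0) hw0⟩
      have : ¬ A w := by
        rcases hall0 w hw with h | h
        · subst h
          exact fun h => h.1 rfl
        · subst h
          exact fun h => h.2 rfl
      exact ⟨fun h => absurd h this, fun h => absurd hx h⟩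
    | @tail v v' hv hvv' ih =>
      have hvr : F.Reachable x0 v := by
        rw [SimpleGraph.reachable_iff_reflTransGen]
        exact hv
      obtain ⟨o, ho, hov⟩ : ∃ o, F.Adj v o ∧ o ≠ v' := by
        obtain ⟨y, w, hyw, hy, hw, hall⟩ := hnb v hvr
        by_cases h : y = v'
        · exact ⟨w, hw, fun h' => hyw (h.trans h'.symm)⟩
        · exact ⟨y, hy, h⟩
      have hv'r : F.Reachable x0 v' := hvr.trans hvv'.reachable
      have hor : F.Reachable x0 o := hvr.trans ho.reachable
      intro w hw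
      by_cases hwv : w = v
      · subst hwv
        have := ih v' hvv'
        tauto
      · have e1 := T21.fin_aux (c y0) (c w0) hpq (c v) (c v') (hcol v v' hvr hvv') (c o)
          (hcol v o hvr ho) (N2 v' v o hv'r hvv'.symm ho (Ne.symm hov)) (c w)
          (N2 v v' w hvr hvv' hw (Ne.symm hwv)) (hcol v' w hv'r hw)
          (N1 v v' o w hvr hvv' ho hov hw hwv)
          (ih v' hvv') (ih o ho)
        have e2 := ih v' hvv'
        have e3 : A w ↔ A v := e1
        tauto
  -- counting
  let s : Finset V := Finset.univ.filter fun v => F.Reachable x0 v ∧ A v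
  let t : Finset V := Finset.univ.filter fun v => F.Reachable x0 v ∧ ¬ A v
  have hcount := Finset.sum_card_bipartiteAbove_eq_sum_card_bipartiteBelow (s := s) (t := t)
    (fun a b => F.Adj a b)
  have hs : ∀ a ∈ s, (t.bipartiteAbove (fun a b => F.Adj a b) a).card = 2 := by
    intro a ha
    have ha' := (Finset.mem_filter.1 ha).2
    have : (↑(t.bipartiteAbove (fun a b => F.Adj a b) a) : Set V) = F.neighborSet a := by
      ext b
      simp only [Finset.coe_filter, Finset.bipartiteAbove, Set.mem_setOf_eq,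
        SimpleGraph.mem_neighborSet]
      constructor
      · exact fun h => h.2
      · intro h
        refine ⟨?_, h⟩
        refine Finset.mem_filter.2 ⟨Finset.mem_univ _, ha'.1.trans h.reachable, ?_⟩
        rw [key a ha'.1 b h]
        exact not_not.2 ha'.2
    rw [← Set.ncard_coe_finset, this]
    exact hdeg a ha'.1
  have ht : ∀ b ∈ t, (s.bipartiteBelow (fun a b => F.Adj a b) b).card = 2 := by
    intro b hb
    have hb' := (Finset.mem_filter.1 hb).2
    have : (↑(s.bipartiteBelow (fun a b => F.Adj a b) b) : Set V) = F.neighborSet b := by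
      ext a
      simp only [Finset.coe_filter, Finset.bipartiteBelow, Set.mem_setOf_eq,
        SimpleGraph.mem_neighborSet]
      constructor
      · exact fun h => h.2.symm
      · intro h
        refine ⟨?_, h.symm⟩
        refine Finset.mem_filter.2 ⟨Finset.mem_univ _, hb'.1.trans h.reachable, ?_⟩
        rw [key b hb'.1 a h]
        exact hb'.2
    rw [← Set.ncard_coe_finset, this]
    exact hdeg b hb'.1
  rw [Finset.sum_congr rfl hs, Finset.sum_congr rfl ht, Finset.sum_const, Finset.sum_const] at hcount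
  have hst : s.card = t.card := by
    simpa using hcount
  have hdisj : Disjoint s t := by
    rw [Finset.disjoint_left]
    intro a ha hb
    exact (Finset.mem_filter.1 hb).2.2 (Finset.mem_filter.1 ha).2.2
  have hun : {z | F.Reachable x0 z} = (↑(s ∪ t) : Set V) := by
    ext z
    rw [Finset.coe_union, Set.mem_union, Finset.mem_coe, Finset.mem_coe]
    show F.Reachable x0 z ↔ _
    constructor
    · intro h
      by_cases hz : A z
      · exact Or.inl (Finset.mem_filter.2 ⟨Finset.mem_univ _, h, hz⟩)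
      · exact Or.inr (Finset.mem_filter.2 ⟨Finset.mem_univ _, h, hz⟩)
    · rintro (h | h)
      · exact (Finset.mem_filter.1 h).2.1
      · exact (Finset.mem_filter.1 h).2.1
  rw [hun, Set.ncard_coe_finset, Finset.card_union_of_disjoint hdisj, hst] at hodd
  rw [Nat.odd_iff] at hodd
  omega

end Pool.Agent.H416R4.PK
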