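import Pool.Agent.H416R4.PK.Defs
import Pool.Agent.H416R4.PK.T21

set_option autoImplicit false
open Classical

namespace Pool.Agent.H416R4.PK


variable {V : Type*} [Fintype V]

theorem T22.nb (F : SimpleGraph V) (z : V) (h : dg F z = 2) : ∃ y, F.Adj z y := by
  have h1 : (F.neighborSet z).Nonempty := by
    rw [Set.nonempty_iff_ne_empty]
    intro h2
    unfold dg at h
    rw [h2, Set.ncard_empty] at h
    omega
  obtain ⟨y, hy⟩ := h1
  exact ⟨y, hy⟩

/-- T22 -/
theorem comp_data (F : SimpleGraph V) (m : V → V) (U : Set V) (c : V → Fin 4)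
    (hF : ∀ x, dg F x ≤ 2) (hU : ∀ u ∈ U, m u = u)
    (huni : ∀ u ∈ U, ∀ w ∈ U, F.Reachable u w → u = w) (hc : Col F m c) (x0 : V) :
    ∃ l o r k, CD F m U c x0 l o r k := by
  by_cases h1 : ∃ u ∈ U, F.Reachable x0 u ∧ ∃ y, F.Adj u y
  · obtain ⟨u, huU, hu, y, hy⟩ := h1
    refine ⟨u, y, x0, 1, ?_⟩
    exact
      { k2 := by norm_num
        none1 := fun h => absurd h one_ne_zero
        none2 := fun h => absurd h one_ne_zero
        edge1 := fun _ => ⟨hu, hy⟩
        edge2 := fun _ w hw hxw => huni w hw u huU (hxw.symm.trans hu)
        edge3 := fun _ => Or.inl (hU u huU)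
        edge4 := fun _ => Or.inl ⟨u, huU, hu⟩
        aba1 := fun h => absurd h (by norm_num)
        aba2 := fun h => absurd h (by norm_num)
        aba3 := fun h => absurd h (by norm_num)
        aba4 := fun h => absurd h (by norm_num) }
  have hno : ∀ u ∈ U, F.Reachable x0 u → ∀ y, ¬ F.Adj u y := by
    intro u hu hr y hy
    exact h1 ⟨u, hu, hr, y, hy⟩
  by_cases h2 : (∀ z, F.Reachable x0 z → dg F z = 2) ∧ ¬ Even {z | F.Reachable x0 z}.ncard
  · obtain ⟨hdeg, hodd⟩ := h2
    have hnoU : ∀ u ∈ U, ¬ F.Reachable x0 u := by
      intro u hu hr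
      obtain ⟨y, hy⟩ := T22.nb F u (hdeg u hr)
      exact hno u hu hr y hy
    by_cases h3 : ∃ w, F.Reachable x0 w ∧ m w = w
    · obtain ⟨w, hw, hmw⟩ := h3
      obtain ⟨y, hy⟩ := T22.nb F w (hdeg w hw)
      refine ⟨w, y, x0, 1, ?_⟩
      exact
        { k2 := by norm_num
          none1 := fun h => absurd h one_ne_zero
          none2 := fun h => absurd h one_ne_zero
          edge1 := fun _ => ⟨hw, hy⟩
          edge2 := fun _ u hu hxu => absurd hxu (hnoU u hu)
          edge3 := fun _ => Or.inl hmw
          edge4 := fun _ => Or.inr hdeg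
          aba1 := fun h => absurd h (by norm_num)
          aba2 := fun h => absurd h (by norm_num)
          aba3 := fun h => absurd h (by norm_num)
          aba4 := fun h => absurd h (by norm_num) }
    · have hm : ∀ z, F.Reachable x0 z → m z ≠ z := fun z hz hmz => h3 ⟨z, hz, hmz⟩
      have hcol : ∀ z w, F.Reachable x0 z → F.Adj z w → c z ≠ c w := by
        intro z w hz hzw
        exact hc.2 z w hzw (hm z hz) (hm w (hz.trans hzw.reachable))
      rcases slot_cycle F c x0 hdeg hcol (Nat.not_even_iff_odd.1 hodd) with
        ⟨x, y, z, w, hx, hxy, hxz, hzy, hyw, hwx, hcc⟩ | ⟨l, o, r, hl, hlo, hor, hlr, hcc⟩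
      · refine ⟨x, y, x0, 1, ?_⟩
        exact
          { k2 := by norm_num
            none1 := fun h => absurd h one_ne_zero
            none2 := fun h => absurd h one_ne_zero
            edge1 := fun _ => ⟨hx, hxy⟩
            edge2 := fun _ u hu hxu => absurd hxu (hnoU u hu)
            edge3 := fun _ => Or.inr ⟨z, w, hxz, hzy, hyw, hwx, hcc⟩
            edge4 := fun _ => Or.inr hdeg
            aba1 := fun h => absurd h (by norm_num)
            aba2 := fun h => absurd h (by norm_num)
            aba3 := fun h => absurd h (by norm_num)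
            aba4 := fun h => absurd h (by norm_num) }
      · refine ⟨l, o, r, 2, ?_⟩
        exact
          { k2 := le_refl _
            none1 := fun h => absurd h (by norm_num)
            none2 := fun h => absurd h (by norm_num)
            edge1 := fun h => absurd h (by norm_num)
            edge2 := fun h => absurd h (by norm_num)
            edge3 := fun h => absurd h (by norm_num)
            edge4 := fun h => absurd h (by norm_num)
            aba1 := fun _ => ⟨hl, hlo, hor, hlr, hcc⟩
            aba2 := fun _ => hnoU
            aba3 := fun _ => hdeg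
            aba4 := fun _ => ⟨hm l hl, hm r ((hl.trans hlo.reachable).trans hor.reachable)⟩ }
  · refine ⟨x0, x0, x0, 0, ?_⟩
    exact
      { k2 := by norm_num
        none1 := fun _ => hno
        none2 := fun _ hd => by
          by_contra hcon
          exact h2 ⟨hd, hcon⟩
        edge1 := fun h => absurd h (by norm_num)
        edge2 := fun h => absurd h (by norm_num)
        edge3 := fun h => absurd h (by norm_num)
        edge4 := fun h => absurd h (by norm_num)
        aba1 := fun h => absurd h (by norm_num)
        aba2 := fun h => absurd h (by norm_num)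
        aba3 := fun h => absurd h (by norm_num)
        aba4 := fun h => absurd h (by norm_num) }

end Pool.Agent.H416R4.PK
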