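import Pool.Agent.H416R4.PK.Defs
import Pool.Agent.H416R4.PK.T14
import Pool.Agent.H416R4.PK.T20

/-!
# T23: slots from the data of the components
-/

set_option autoImplicit false
open Classical

namespace Pool.Agent.H416R4.PK

namespace T23

variable {V : Type*} [Fintype V]

theorem CD.trans {F : SimpleGraph V} {m : V → V} {U : Set V} {c : V → Fin 4} {x0 x l o r : V}
    {k : ℕ} (h : CD F m U c x0 l o r k) (hx : F.Reachable x0 x) : CD F m U c x l o r k where
  k2 := h.k2
  none1 := fun hk u hu hr => h.none1 hk u hu (hx.trans hr)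
  none2 := fun hk hz => by
    have h1 := h.none2 hk (fun z hz' => hz z (hx.symm.trans hz'))
    have h2 : {z | F.Reachable x z} = {z | F.Reachable x0 z} := by
      ext z
      exact ⟨fun q => hx.trans q, fun q => hx.symm.trans q⟩
    rw [h2]
    exact h1
  edge1 := fun hk => ⟨hx.symm.trans (h.edge1 hk).1, (h.edge1 hk).2⟩
  edge2 := fun hk u hu hr => h.edge2 hk u hu (hx.trans hr)
  edge3 := h.edge3
  edge4 := fun hk => by
    rcases h.edge4 hk with ⟨u, hu, hr⟩ | hz
    · exact Or.inl ⟨u, hu, hx.symm.trans hr⟩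
    · exact Or.inr (fun z hz' => hz z (hx.trans hz'))
  aba1 := fun hk => ⟨hx.symm.trans (h.aba1 hk).1, (h.aba1 hk).2⟩
  aba2 := fun hk u hu hr => h.aba2 hk u hu (hx.trans hr)
  aba3 := fun hk z hz => h.aba3 hk z (hx.trans hz)
  aba4 := h.aba4

theorem data (F : SimpleGraph V) (m : V → V) (U : Set V) (c : V → Fin 4)
    (hd : ∀ x0, ∃ l o r k, CD F m U c x0 l o r k) :
    ∃ (L O R : V → V) (k : V → ℕ), (∀ x, CD F m U c x (L x) (O x) (R x) (k x)) ∧
      (∀ x y, F.Reachable x y → L x = L y ∧ O x = O y ∧ R x = R y ∧ k x = k y) := by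
  choose l o r k h using hd
  let rp : F.ConnectedComponent → V := Quot.out
  have hrp : ∀ x, F.Reachable (rp (F.connectedComponentMk x)) x := by
    intro x
    have h1 : F.connectedComponentMk (rp (F.connectedComponentMk x)) =
        F.connectedComponentMk x := Quot.out_eq _
    exact SimpleGraph.ConnectedComponent.exact h1
  refine ⟨fun x => l (rp (F.connectedComponentMk x)), fun x => o (rp (F.connectedComponentMk x)),
    fun x => r (rp (F.connectedComponentMk x)), fun x => k (rp (F.connectedComponentMk x)),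
    fun x => CD.trans (h _) (hrp x), ?_⟩
  intro x y hxy
  have h1 : F.connectedComponentMk x = F.connectedComponentMk y :=
    SimpleGraph.ConnectedComponent.sound hxy
  simp only [h1, and_self]

end T23

variable {V : Type*} [Fintype V]

theorem slots_of_data (F : SimpleGraph V) (m : V → V) (U : Set V) (c : V → Fin 4)
    (hF : ∀ x, dg F x ≤ 2) (hm : ∀ x, m (m x) = x)
    (hd : ∀ x0, ∃ l o r k, CD F m U c x0 l o r k) :
    ∃ (δ : V → V) (β : Set V), Slot F m U c δ β := by
  obtain ⟨L, O, R, k, H, hinv⟩ := T23.data F m U c hd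
  -- the involution p
  have hreachR : ∀ x, k x = 2 → F.Reachable x (L x) ∧ F.Reachable x (R x) := by
    intro x hk
    obtain ⟨h1, h2, h3, -, -⟩ := (H x).aba1 hk
    exact ⟨h1, h1.trans (h2.reachable.trans h3.reachable)⟩
  let p : V → V := fun x => if k x = 2 ∧ x = L x then R x else if k x = 2 ∧ x = R x then L x else x
  have hpL : ∀ x, k x = 2 → p (L x) = R x := by
    intro x hk
    obtain ⟨e1, e2, e3, e4⟩ := hinv x (L x) (hreachR x hk).1
    have hc' : k (L x) = 2 ∧ L x = L (L x) := ⟨by rw [← e4, hk], e1⟩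
    show (if k (L x) = 2 ∧ L x = L (L x) then R (L x) else _) = R x
    rw [if_pos hc', e3]
  have hpR : ∀ x, k x = 2 → p (R x) = L x := by
    intro x hk
    obtain ⟨e1, e2, e3, e4⟩ := hinv x (R x) (hreachR x hk).2
    have hne : L x ≠ R x := ((H x).aba1 hk).2.2.2.1
    have hc' : ¬ (k (R x) = 2 ∧ R x = L (R x)) := by
      rintro ⟨-, h⟩
      rw [← e1] at h
      exact hne h.symm
    have hc'' : k (R x) = 2 ∧ R x = R (R x) := ⟨by rw [← e4, hk], e3⟩
    show (if k (R x) = 2 ∧ R x = L (R x) then R (R x) else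
      if k (R x) = 2 ∧ R x = R (R x) then L (R x) else R x) = L x
    rw [if_neg hc', if_pos hc'', e1]
  have hp : ∀ x, p (p x) = x := by
    intro x
    by_cases h1 : k x = 2 ∧ x = L x
    · have : p x = R x := by
        show (if k x = 2 ∧ x = L x then R x else _) = R x
        rw [if_pos h1]
      rw [this, hpR x h1.1]
      exact h1.2.symm
    · by_cases h2 : k x = 2 ∧ x = R x
      · have : p x = L x := by
          show (if k x = 2 ∧ x = L x then R x else if k x = 2 ∧ x = R x then L x else x) = L x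
          rw [if_neg h1, if_pos h2]
        rw [this, hpL x h2.1]
        exact h2.2.symm
      · have : p x = x := by
          show (if k x = 2 ∧ x = L x then R x else if k x = 2 ∧ x = R x then L x else x) = x
          rw [if_neg h1, if_neg h2]
        rw [this, this]
  obtain ⟨χ, hχ1, hχ2⟩ := two_inv p m hp hm
  let b : V → V := fun x => if χ (L x) = true then L x else R x
  let q : V → V := fun x => if χ (L x) = true then R x else L x
  have hb : ∀ x, k x = 2 → χ (b x) = true := by
    intro x hk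
    by_cases h : χ (L x) = true
    · have : b x = L x := if_pos h
      rw [this, h]
    · have hbx : b x = R x := if_neg h
      have hne : L x ≠ R x := ((H x).aba1 hk).2.2.2.1
      have h1 := hχ1 (L x) (by rw [hpL x hk]; exact hne.symm)
      rw [hpL x hk] at h1
      rw [hbx]
      cases hR : χ (R x)
      · rw [hR] at h1
        cases hL : χ (L x)
        · rw [hL] at h1; exact absurd rfl h1
        · exact absurd hL h
      · rfl
  have hbq : ∀ x, k x = 2 → F.Reachable x (b x) ∧ F.Adj (b x) (O x) ∧ F.Adj (O x) (q x) ∧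
      q x ≠ b x ∧ c (q x) = c (b x) ∧ m (b x) ≠ b x := by
    intro x hk
    obtain ⟨h1, h2, h3, h4, h5⟩ := (H x).aba1 hk
    obtain ⟨h6, h7⟩ := (H x).aba4 hk
    by_cases h : χ (L x) = true
    · have hb1 : b x = L x := if_pos h
      have hq1 : q x = R x := if_pos h
      rw [hb1, hq1]
      exact ⟨h1, h2, h3, h4.symm, h5.symm, h6⟩
    · have hb1 : b x = R x := if_neg h
      have hq1 : q x = L x := if_neg h
      rw [hb1, hq1]
      exact ⟨(hreachR x hk).2, h3.symm, h2.symm, h4, h5, h7⟩
  let e : V → V := fun x => if k x = 1 then L x else b x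
  have he1 : ∀ x, k x = 1 → e x = L x := fun x h => if_pos h
  have he2 : ∀ x, k x = 2 → e x = b x := fun x h => if_neg (by omega)
  have hinv' : ∀ x y, F.Reachable x y → e x = e y ∧ O x = O y ∧ k x = k y ∧ b x = b y := by
    intro x y hxy
    obtain ⟨e1, e2, e3, e4⟩ := hinv x y hxy
    have hbb : b x = b y := by
      show (if χ (L x) = true then L x else R x) = (if χ (L y) = true then L y else R y)
      rw [e1, e3]
    refine ⟨?_, e2, e4, hbb⟩
    show (if k x = 1 then L x else b x) = (if k y = 1 then L y else b y)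
    rw [e4, e1, hbb]
  have hA : ∀ x, k x ≠ 0 → F.Reachable x (e x) ∧ F.Adj (e x) (O x) := by
    intro x hk
    have hk2 := (H x).k2
    rcases (by omega : k x = 1 ∨ k x = 2) with h | h
    · rw [he1 x h]
      exact (H x).edge1 h
    · rw [he2 x h]
      exact ⟨(hbq x h).1, (hbq x h).2.1⟩
  let δ : V → V := fun x => if k x = 0 then x else if x = e x then O x else
    if x = O x then e x else x
  have hδ0 : ∀ x, k x = 0 → δ x = x := fun x h => if_pos h
  have hδ1 : ∀ x, k x ≠ 0 → x = e x → δ x = O x := by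
    intro x h h'
    show (if k x = 0 then x else if x = e x then O x else if x = O x then e x else x) = O x
    rw [if_neg h, if_pos h']
  have hδ2 : ∀ x, k x ≠ 0 → x = O x → δ x = e x := by
    intro x h h'
    have hne : x ≠ e x := by
      intro h2
      have h3 := (hA x h).2
      rw [← h2, ← h'] at h3
      exact F.loopless.irrefl _ h3
    show (if k x = 0 then x else if x = e x then O x else if x = O x then e x else x) = e x
    rw [if_neg h, if_neg hne, if_pos h']
  have hδ3 : ∀ x, x ≠ e x → x ≠ O x → δ x = x := by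
    intro x h h'
    show (if k x = 0 then x else if x = e x then O x else if x = O x then e x else x) = x
    rw [if_neg h, if_neg h', ite_self]
  have hC : ∀ x, δ x ≠ x → k x ≠ 0 ∧ ((x = e x ∧ δ x = O x) ∨ (x = O x ∧ δ x = e x)) := by
    intro x hx
    have hk : k x ≠ 0 := fun h => hx (hδ0 x h)
    refine ⟨hk, ?_⟩
    by_cases h1 : x = e x
    · exact Or.inl ⟨h1, hδ1 x hk h1⟩
    · by_cases h2 : x = O x
      · exact Or.inr ⟨h2, hδ2 x hk h2⟩
      · exact absurd (hδ3 x h1 h2) hx
  -- the properties at e x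
  have hδe : ∀ x, k x ≠ 0 → δ (e x) = O x := by
    intro x hk
    obtain ⟨h1, h2, h3, -⟩ := hinv' x (e x) (hA x hk).1
    rw [hδ1 (e x) (by rw [← h3]; exact hk) h1, h2]
  have hδO : ∀ x, k x ≠ 0 → δ (O x) = e x := by
    intro x hk
    obtain ⟨h1, h2, h3, -⟩ := hinv' x (O x) ((hA x hk).1.trans (hA x hk).2.reachable)
    rw [hδ2 (O x) (by rw [← h3]; exact hk) h2, h1]
  have hδinv : ∀ x, δ (δ x) = x := by
    intro x
    by_cases hx : δ x = x
    · rw [hx, hx]
    · obtain ⟨hk, ⟨h1, h2⟩ | ⟨h1, h2⟩⟩ := hC x hx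
      · rw [h2, hδO x hk]; exact h1.symm
      · rw [h2, hδe x hk]; exact h1.symm
  have hone : ∀ x y, δ x ≠ x → δ y ≠ y → F.Reachable x y → y = x ∨ y = δ x := by
    intro x y hx hy hxy
    obtain ⟨e1, e2, e3, -⟩ := hinv' x y hxy
    obtain ⟨hk, ⟨h1, h2⟩ | ⟨h1, h2⟩⟩ := hC x hx <;>
      obtain ⟨hk', ⟨h1', h2'⟩ | ⟨h1', h2'⟩⟩ := hC y hy
    · left; rw [h1', ← e1]; exact h1.symm
    · right; rw [h1', ← e2]; exact h2.symm
    · right; rw [h1', ← e1]; exact h2.symm
    · left; rw [h1', ← e2]; exact h1.symm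
  have hadj : ∀ x, δ x ≠ x → F.Adj x (δ x) := by
    intro x hx
    obtain ⟨hk, ⟨h1, h2⟩ | ⟨h1, h2⟩⟩ := hC x hx
    · rw [h2]
      have h3 := (hA x hk).2
      rw [← h1] at h3
      exact h3
    · rw [h2]
      have h3 := (hA x hk).2.symm
      rw [← h1] at h3
      exact h3
  -- degrees in rm F δ
  have hnb : ∀ x, (rm F δ).neighborSet x = F.neighborSet x \ {δ x} := by
    intro x
    ext y
    simp only [SimpleGraph.mem_neighborSet, Set.mem_sdiff, Set.mem_singleton_iff]
    constructor
    · rintro ⟨h1, h2, h3⟩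
      exact ⟨h1, fun h => h2 h.symm⟩
    · rintro ⟨h1, h2⟩
      refine ⟨h1, fun h => h2 h.symm, fun h => h2 ?_⟩
      rw [← h, hδinv]
  have hdeg1 : ∀ x, δ x ≠ x → dg F x = 2 → dg (rm F δ) x = 1 := by
    intro x hx h2
    unfold dg at h2 ⊢
    rw [hnb x, Set.ncard_sdiff_singleton_of_mem (by
      rw [SimpleGraph.mem_neighborSet]; exact hadj x hx), h2]
  have hdeg2 : ∀ x, δ x = x → dg F x = 2 → dg (rm F δ) x = 2 := by
    intro x hx h2
    unfold dg at h2 ⊢
    rw [hnb x, Set.sdiff_singleton_eq_self (by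
      rw [hx, SimpleGraph.mem_neighborSet]; exact F.loopless.irrefl x), h2]
  have hrmle : ∀ x y, (rm F δ).Reachable x y → F.Reachable x y := by
    intro x y h
    have hle : rm F δ ≤ F := by
      intro a b hab
      exact hab.1
    exact h.mono hle
  refine ⟨δ, {x | k x = 2 ∧ x = b x}, ?_⟩
  refine
  { inv := hδinv
    adj := hadj
    one := hone
    atU := ?_
    even := ?_
    badd := ?_
    badm := ?_
    badc := ?_
    badr := ?_
    typ := ?_
    dom := ?_ }
  · intro u hu hy
    have hk0 : k u ≠ 0 := by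
      intro h
      obtain ⟨y, hy⟩ := hy
      exact (H u).none1 h u hu (SimpleGraph.Reachable.refl _) y hy
    have hk2 : k u ≠ 2 := fun h => (H u).aba2 h u hu (SimpleGraph.Reachable.refl _)
    have hk1 : k u = 1 := by have := (H u).k2; omega
    have h1 : u = L u := (H u).edge2 hk1 u hu (SimpleGraph.Reachable.refl _)
    have h2 : u = e u := by rw [he1 u hk1]; exact h1
    rw [hδ1 u hk0 h2]
    intro h3
    have h4 := (hA u hk0).2
    rw [← h2, h3] at h4
    exact F.loopless.irrefl _ h4
  · intro x hx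
    by_cases hk : k x = 0
    · exact (H x).none2 hk (fun z hz => (hx z hz).2)
    · exfalso
      have h1 := (hx (e x) (hA x hk).1).1
      rw [hδe x hk] at h1
      have h4 := (hA x hk).2
      rw [h1] at h4
      exact F.loopless.irrefl _ h4
  · rintro x ⟨hk, hx⟩
    have h2 : x = e x := by rw [he2 x hk]; exact hx
    have hk0 : k x ≠ 0 := by omega
    rw [hδ1 x hk0 h2]
    intro h3
    have h4 := (hA x hk0).2
    rw [← h2, h3] at h4
    exact F.loopless.irrefl _ h4
  · rintro x ⟨hk, hx⟩ ⟨hk', hx'⟩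
    have h1 := hb x hk
    have h2 := hb (m x) hk'
    rw [← hx] at h1
    rw [← hx'] at h2
    have h3 := (hbq x hk).2.2.2.2.2
    rw [← hx] at h3
    have h4 := hχ2 x h3
    rw [h1, h2] at h4
    exact h4 rfl
  · rintro x ⟨hk, hx⟩
    have h2 : x = e x := by rw [he2 x hk]; exact hx
    have hk0 : k x ≠ 0 := by omega
    rw [hδ1 x hk0 h2]
    obtain ⟨h3, h4, h5, h6, h7, h8⟩ := hbq x hk
    rw [← hx] at h6 h7
    exact ⟨q x, h5, h6, h7⟩
  · rintro x ⟨hk, hx⟩
    have h2 : x = e x := by rw [he2 x hk]; exact hx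
    have hk0 : k x ≠ 0 := by omega
    have hδx : δ x ≠ x := by
      rw [hδ1 x hk0 h2]
      intro h3
      have h4 := (hA x hk0).2
      rw [← h2, h3] at h4
      exact F.loopless.irrefl _ h4
    have hd2 : ∀ z, F.Reachable x z → dg F z = 2 := (H x).aba3 hk
    obtain ⟨y, hy1, hy2, hy3⟩ := odd_reach (rm F δ) x
      (by rw [hdeg1 x hδx (hd2 x (SimpleGraph.Reachable.refl _))]; exact odd_one)
    have hy4 := hrmle x y hy2
    have hδy : δ y ≠ y := by
      intro h
      rw [hdeg2 y h (hd2 y hy4)] at hy3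
      exact absurd hy3 (by decide)
    rcases hone x y hδx hδy hy4 with h | h
    · exact absurd h hy1
    · rw [← h]; exact hy2
  · intro x hx
    obtain ⟨hk, hcase⟩ := hC x hx
    have hk2 := (H x).k2
    rcases (by omega : k x = 1 ∨ k x = 2) with h | h
    · rw [he1 x h] at hcase
      rcases hcase with ⟨h1, h2⟩ | ⟨h1, h2⟩
      · rcases (H x).edge3 h with h3 | ⟨z, w, h3, h4, h5, h6, h7⟩
        · right; right; left
          rw [← h1] at h3
          exact h3
        · right; right; right; right
          rw [← h1] at h3 h6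
          rw [← h2] at h4 h5
          exact ⟨z, w, h3, h4, h5, h6, h7⟩
      · rcases (H x).edge3 h with h3 | ⟨z, w, h3, h4, h5, h6, h7⟩
        · right; right; right; left
          rw [h2]
          exact h3
        · right; right; right; right
          rw [← h1] at h4 h5
          rw [← h2] at h3 h6
          exact ⟨w, z, h5, h6, h3, h4, h7.symm⟩
    · rw [he2 x h] at hcase
      rcases hcase with ⟨h1, h2⟩ | ⟨h1, h2⟩
      · left; exact ⟨h, h1⟩
      · right; left
        obtain ⟨e1, e2, e3, e4⟩ := hinv' x (δ x) (hadj x hx).reachable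
        refine ⟨by rw [← e3]; exact h, ?_⟩
        rw [← e4]; exact h2
  · intro x hx
    obtain ⟨hk, hcase⟩ := hC x hx
    have hk2 := (H x).k2
    rcases (by omega : k x = 1 ∨ k x = 2) with h | h
    · exact (H x).edge4 h
    · exact Or.inr ((H x).aba3 h)

end Pool.Agent.H416R4.PK
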