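import Pool.Agent.H416R4.PK.Defs

/-!
T24: verification of the core colouring
-/

set_option autoImplicit false
open Classical

namespace Pool.Agent.H416R4.PK

namespace T24

def big (x : Fin 4) : Fin 6 := ⟨2 + x.val, by omega⟩

def sml (b : Bool) : Fin 6 := if b = true then 1 else 0

theorem big_inj {x y : Fin 4} (h : big x = big y) : x = y := by
  have := congrArg Fin.val h
  simp only [big] at this
  exact Fin.ext (by omega)

theorem sml_inj {x y : Bool} (h : sml x = sml y) : x = y := by
  cases x <;> cases y <;> simp [sml] at h ⊢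

theorem sml_lt (x : Bool) : (sml x).val < 2 := by
  cases x <;> simp [sml]

theorem big_ge (x : Fin 4) : 2 ≤ (big x).val := by
  simp [big]

variable {V : Type*}

noncomputable def gg (m δ : V → V) (c f : V → Fin 4) (col : V → V → Bool) (a b : V) : Fin 6 :=
  if δ a = b then big (f a)
  else if m a = b then (if Xc m δ a then sml (col a b) else big (c a))
  else sml (col a b)

/-- the three types of edges -/
def Ty (H : SimpleGraph V) (m δ : V → V) (c f : V → Fin 4) (col : V → V → Bool) (a b : V) : Prop :=
  (δ a = b ∧ δ b = a ∧ (rm H m).Adj a b ∧ gg m δ c f col a b = big (f a)) ∨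
  (m a = b ∧ m b = a ∧ ¬ Xc m δ a ∧ δ a ≠ b ∧ gg m δ c f col a b = big (c a)) ∨
  ((F2 (rm H m) m δ).Adj a b ∧ δ a ≠ b ∧ (m a = b → Xc m δ a) ∧
    gg m δ c f col a b = sml (col a b))

theorem adj_cases {H : SimpleGraph V} {m : V → V} (hm : ∀ x, m (m x) = x) {a b : V}
    (h : H.Adj a b) : (rm H m).Adj a b ∨ m a = b := by
  by_cases h1 : m a = b
  · exact Or.inr h1
  · left
    refine ⟨h, h1, ?_⟩
    intro h2
    apply h1
    rw [← h2, hm]

theorem cls {H : SimpleGraph V} {m δ : V → V} {U β : Set V} {c : V → Fin 4} (f : V → Fin 4)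
    (col : V → V → Bool) (hC : Core H m U)
    (hs : Slot (rm H m) m U c δ β) {a b : V} (h : H.Adj a b) : Ty H m δ c f col a b := by
  by_cases h1 : δ a = b
  · left
    have h2 : δ a ≠ a := by rw [h1]; exact h.ne'
    have h3 := hs.adj a h2
    rw [h1] at h3
    refine ⟨h1, ?_, h3, ?_⟩
    · rw [← h1, hs.inv]
    · unfold gg
      rw [if_pos h1]
  · by_cases h2 : m a = b
    · have h3 : m b = a := by rw [← h2, hC.inv]
      by_cases h4 : Xc m δ a
      · right; right
        refine ⟨Or.inr ⟨h.ne, Or.inl ⟨h2, h4⟩⟩, h1, fun _ => h4, ?_⟩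
        unfold gg
        rw [if_neg h1, if_pos h2, if_pos h4]
      · right; left
        refine ⟨h2, h3, h4, h1, ?_⟩
        unfold gg
        rw [if_neg h1, if_pos h2, if_neg h4]
    · right; right
      have h5 : (rm H m).Adj a b := (adj_cases hC.inv h).resolve_right h2
      refine ⟨Or.inl ⟨h5, h1, ?_⟩, h1, fun h' => absurd h' h2, ?_⟩
      · intro h6
        apply h1
        rw [← h6, hs.inv]
      · unfold gg
        rw [if_neg h1, if_neg h2]

theorem xc_m {m δ : V → V} (hm : ∀ x, m (m x) = x) {a : V} (h : Xc m δ a) : Xc m δ (m a) := by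
  refine ⟨?_, h.2.2, ?_⟩
  · rw [hm]; exact h.1.symm
  · rw [hm]; exact h.2.1

end T24

open T24

variable {V : Type*} [Fintype V]

/-- T24 -/
theorem core_col (H : SimpleGraph V) (m δ : V → V) (U β : Set V) (c f : V → Fin 4)
    (col : V → V → Bool) (hC : Core H m U) (hc : Col (rm H m) m c)
    (hs : Slot (rm H m) m U c δ β)
    (hf1 : ∀ x, f (δ x) = f x)
    (hf2 : ∀ x, δ x ≠ x → m x ≠ x → ¬ Xc m δ x → f x ≠ c x)
    (hf3 : ∀ x z, δ x ≠ x → (rm H m).Adj x z → z ≠ δ x → m z ≠ z → f x ≠ c z)
    (hf4 : ∀ x, Xc m δ x → f x ≠ f (m x))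
    (hcol1 : ∀ a b, col a b = col b a)
    (hcol2 : ∀ a b b', (F2 (rm H m) m δ).Adj a b → (F2 (rm H m) m δ).Adj a b' → b ≠ b' →
      col a b ≠ col a b') :
    ∃ g : V → V → Fin 6, LP H g ∧ (∀ u ∈ U, PU H g u) ∧
      ∀ v, m v ≠ v → dg (rm H m) v ≤ 1 → (∀ u ∈ U, ¬ H.Reachable v u) → PW H g v := by
  refine ⟨gg m δ c f col, ⟨?_, ?_, ?_⟩, ?_, ?_⟩
  · -- symmetry
    intro a b hab
    rcases cls f col hC hs hab with ⟨h1, h2, -, h4⟩ | ⟨h1, h2, h3, h4, h5⟩ | ⟨h1, h2, h3, h4⟩
    · rw [h4]
      unfold gg
      rw [if_pos h2, ← h1, hf1]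
    · rw [h5]
      have h6 : δ b ≠ a := by
        intro h6
        apply h4
        rw [← h6, hs.inv]
      have h7 : ¬ Xc m δ b := by
        intro h7
        have := xc_m hC.inv h7
        rw [h2] at this
        exact h3 this
      unfold gg
      rw [if_neg h6, if_pos h2, if_neg h7, ← h1, hc.1]
    · rw [h4]
      rcases cls f col hC hs hab.symm with ⟨g1, g2, -, g4⟩ | ⟨g1, g2, g3, g4, g5⟩ | ⟨g1, g2, g3, g4⟩
      · exact absurd g2 h2
      · exfalso
        have := xc_m hC.inv (h3 g2)
        rw [g2] at this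
        exact g3 this
      · rw [g4, hcol1]
  · -- proper
    intro a b b' hab hab' hne heq
    rcases cls f col hC hs hab with ⟨h1, h2, h3, h4⟩ | ⟨h1, h2, h3, h4, h5⟩ | ⟨h1, h2, h3, h4⟩ <;>
    rcases cls f col hC hs hab' with ⟨g1, g2, g3, g4⟩ | ⟨g1, g2, g3, g4, g5⟩ | ⟨g1, g2, g3, g4⟩
    · exact hne (h1.symm.trans g1)
    · rw [h4, g5] at heq
      refine hf2 a ?_ ?_ g3 (big_inj heq)
      · rw [h1]; exact hab.ne'
      · rw [g1]; exact hab'.ne'
    · rw [h4, g4] at heq
      have e1 := big_ge (f a)
      have e2 := sml_lt (col a b')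
      rw [heq] at e1
      omega
    · rw [h5, g4] at heq
      refine hf2 a ?_ ?_ h3 (big_inj heq.symm)
      · rw [g1]; exact hab'.ne'
      · rw [h1]; exact hab.ne'
    · exact hne (h1.symm.trans g1)
    · rw [h5, g4] at heq
      have e1 := big_ge (c a)
      have e2 := sml_lt (col a b')
      rw [heq] at e1
      omega
    · rw [h4, g4] at heq
      have e1 := big_ge (f a)
      have e2 := sml_lt (col a b)
      rw [heq] at e2
      omega
    · rw [h4, g5] at heq
      have e1 := big_ge (c a)
      have e2 := sml_lt (col a b)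
      rw [heq] at e2
      omega
    · rw [h4, g4] at heq
      exact hcol2 a b b' h1 g1 hne (sml_inj heq)
  · -- third condition
    intro a b x y hab hbx hxy hax hby hbig heq
    have hbig' : 2 ≤ (gg m δ c f col x y).val := by rw [← heq]; exact hbig
    rcases cls f col hC hs hab with ⟨h1, h2, h3, h4⟩ | ⟨h1, h2, h3, h4, h5⟩ | ⟨h1, h2, h3, h4⟩
    · rcases cls f col hC hs hxy with ⟨g1, g2, g3, g4⟩ | ⟨g1, g2, g3, g4, g5⟩ | ⟨g1, g2, g3, g4⟩
      · rw [h4, g4] at heq
        have e1 : δ b ≠ b := by rw [h2]; exact hab.ne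
        have e2 : δ x ≠ x := by rw [g1]; exact hxy.ne'
        rcases adj_cases hC.inv hbx with h | h
        · rcases hs.one b x e1 e2 h.reachable with h' | h'
          · exact hbx.ne h'.symm
          · rw [h2] at h'
            exact hax h'.symm
        · have hX : Xc m δ b := by
            refine ⟨?_, e1, ?_⟩
            · rw [h]; exact hbx.ne'
            · rw [h]; exact e2
          have e3 := hf4 b hX
          rw [h] at e3
          apply e3
          rw [← big_inj heq, ← h1, hf1]
      · rw [h4, g5] at heq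
        have e1 : δ b ≠ b := by rw [h2]; exact hab.ne
        rcases adj_cases hC.inv hbx with h | h
        · have e3 := hf3 b x e1 h (by rw [h2]; exact hax.symm) (by rw [g1]; exact hxy.ne')
          apply e3
          rw [← big_inj heq, ← h1, hf1]
        · apply hby
          rw [← g1, ← h, hC.inv]
      · rw [g4] at hbig'
        have := sml_lt (col x y)
        omega
    · rcases cls f col hC hs hxy with ⟨g1, g2, g3, g4⟩ | ⟨g1, g2, g3, g4, g5⟩ | ⟨g1, g2, g3, g4⟩
      · rw [h5, g4] at heq
        have e2 : δ x ≠ x := by rw [g1]; exact hxy.ne'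
        rcases adj_cases hC.inv hbx with h | h
        · have e3 := hf3 x b e2 h.symm (by rw [g1]; exact hby) (by rw [h2]; exact hab.ne)
          apply e3
          rw [← big_inj heq, ← h1, hc.1]
        · apply hax
          rw [← h, h2]
      · rw [h5, g5] at heq
        rcases adj_cases hC.inv hbx with h | h
        · have e3 := hc.2 b x h (by rw [h2]; exact hab.ne) (by rw [g1]; exact hxy.ne')
          apply e3
          rw [← big_inj heq, ← h1, hc.1]
        · apply hax
          rw [← h, h2]
      · rw [g4] at hbig'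
        have := sml_lt (col x y)
        omega
    · rw [h4] at hbig
      have := sml_lt (col a b)
      omega
  · -- PU
    intro u hu
    have hmu := hC.fixU u hu
    have hadj : ∀ y, H.Adj u y → (rm H m).Adj u y := by
      intro y hy
      rcases adj_cases hC.inv hy with h | h
      · exact h
      · exact absurd (h.symm.trans hmu) hy.ne'
    have hsm : ∀ y, H.Adj u y → δ u ≠ y → (gg m δ c f col u y).val < 2 := by
      intro y hy hd
      rcases cls f col hC hs hy with ⟨h1, -, -, -⟩ | ⟨h1, -, -, -, -⟩ | ⟨-, -, -, h4⟩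
      · exact absurd h1 hd
      · exact absurd (h1.symm.trans hmu) hy.ne'
      · rw [h4]; exact sml_lt _
    have hbg : ∀ y, H.Adj u y → δ u = y → 2 ≤ (gg m δ c f col u y).val := by
      intro y hy hd
      unfold gg
      rw [if_pos hd]
      exact big_ge _
    constructor
    · intro y y' hy hy' hl hl'
      by_contra hne
      have hδ : δ u ≠ u := hs.atU u hu ⟨y, hadj y hy⟩
      have hδadj : H.Adj u (δ u) := (hs.adj u hδ).1
      have h1 : δ u ≠ y := by
        intro h
        have := hbg y hy h
        omega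
      have h2 : δ u ≠ y' := by
        intro h
        have := hbg y' hy' h
        omega
      have h3 := hC.deg2 u hmu
      have h4 : ({δ u, y, y'} : Set V).ncard = 3 := by
        rw [Set.ncard_eq_three]
        exact ⟨δ u, y, y', h1, h2, hne, rfl⟩
      have h5 : ({δ u, y, y'} : Set V) ⊆ H.neighborSet u := by
        intro z hz
        simp only [Set.mem_insert_iff, Set.mem_singleton_iff] at hz
        rcases hz with rfl | rfl | rfl
        · exact hδadj
        · exact hy
        · exact hy'
      have h6 := Set.ncard_le_ncard h5 (Set.toFinite _)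
      unfold dg at h3
      omega
    · intro y y' hy hy' hl hl'
      have h1 : δ u = y := by
        by_contra h
        have := hsm y hy h
        omega
      have h2 : δ u = y' := by
        by_contra h
        have := hsm y' hy' h
        omega
      exact h1.symm.trans h2
  · -- PW
    intro v hv hd hU
    have hle : rm H m ≤ H := fun a b h => h.1
    have hδ : δ v = v := by
      by_contra hδ
      rcases hs.dom v hδ with ⟨u, hu, hr⟩ | h
      · exact hU u hu (hr.mono hle)
      · have := h v (SimpleGraph.Reachable.refl v)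
        omega
    have hadj := hC.adj v hv
    refine ⟨m v, hadj, ?_, ?_⟩
    · unfold gg
      rw [if_neg (by rw [hδ]; exact hv.symm), if_pos rfl, if_neg (fun h => h.2.1 hδ)]
      exact big_ge _
    · intro y hy hne
      unfold gg
      rw [if_neg (by rw [hδ]; exact hy.ne), if_neg (fun h => hne h.symm)]
      exact sml_lt _

end Pool.Agent.H416R4.PK
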