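import Pool.Agent.H416R4.PK.Defs

set_option autoImplicit false
open Classical

namespace Pool.Agent.H416R4.PK

variable {V : Type*} [Fintype V]

/-- T26 -/
theorem br_finish (Γ : SimpleGraph V) (hd : ∀ x, dg Γ x ≤ 4) (A : Set V) (c : V → Fin 4)
    (hA : PO Γ A c) (z : V) (hz : z ∉ A)
    (h : (∃ y, Γ.Adj z y ∧ y ∉ A) ∨
      (∃ y y', y ≠ y' ∧ y ∈ A ∧ y' ∈ A ∧ Γ.Adj z y ∧ Γ.Adj z y' ∧ c y = c y') ∨ dg Γ z ≤ 3) :
    ∃ c', (∀ x ∈ A, c' x = c x) ∧ PO Γ (A ∪ {z}) c' := by
  set N : Finset V := Finset.univ.filter (fun y => Γ.Adj z y) with hN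
  have hNc : N.card = dg Γ z := by
    unfold dg
    have : Γ.neighborSet z = (N : Set V) := by
      ext y; simp [hN]
    rw [this, Set.ncard_coe_finset]
  set NA : Finset V := N.filter (fun y => y ∈ A) with hNA
  have hNAN : NA ⊆ N := Finset.filter_subset _ _
  have hmemN : ∀ y, y ∈ N ↔ Γ.Adj z y := by intro y; simp [hN]
  have hmemNA : ∀ y, y ∈ NA ↔ Γ.Adj z y ∧ y ∈ A := by intro y; simp [hNA, hN]
  have hcard : (NA.image c).card ≤ 3 := by
    have hd' := hd z
    rcases h with ⟨y, hy1, hy2⟩ | ⟨y, y', hne, hy, hy', a1, a2, hc⟩ | h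
    · have h1 : NA ⊆ N.erase y := by
        intro w hw
        rw [Finset.mem_erase]
        refine ⟨?_, hNAN hw⟩
        rintro rfl
        exact hy2 ((hmemNA _).1 hw).2
      have h2 := Finset.card_le_card h1
      rw [Finset.card_erase_of_mem ((hmemN y).2 hy1)] at h2
      have h3 : (NA.image c).card ≤ NA.card := Finset.card_image_le
      omega
    · have h1 : NA.image c = (NA.erase y').image c := by
        apply le_antisymm
        · intro k hk
          rw [Finset.mem_image] at hk ⊢
          obtain ⟨w, hw, rfl⟩ := hk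
          by_cases hwy : w = y'
          · subst hwy
            exact ⟨y, Finset.mem_erase.2 ⟨hne, (hmemNA y).2 ⟨a1, hy⟩⟩, hc⟩
          · exact ⟨w, Finset.mem_erase.2 ⟨hwy, hw⟩, rfl⟩
        · exact Finset.image_subset_image (Finset.erase_subset _ _)
      rw [h1]
      have h3 : ((NA.erase y').image c).card ≤ (NA.erase y').card := Finset.card_image_le
      rw [Finset.card_erase_of_mem ((hmemNA y').2 ⟨a2, hy'⟩)] at h3
      have h4 := Finset.card_le_card hNAN
      omega
    · have h3 : (NA.image c).card ≤ NA.card := Finset.card_image_le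
      have h4 := Finset.card_le_card hNAN
      omega
  obtain ⟨k, hk⟩ : ∃ k : Fin 4, k ∉ NA.image c := by
    by_contra hcon
    push Not at hcon
    have : NA.image c = Finset.univ := Finset.eq_univ_iff_forall.2 hcon
    rw [this] at hcard
    simp at hcard
  have hk' : ∀ y ∈ A, Γ.Adj z y → c y ≠ k := by
    intro y hy ha he
    exact hk (Finset.mem_image.2 ⟨y, (hmemNA y).2 ⟨ha, hy⟩, he⟩)
  have hne : ∀ x ∈ A, x ≠ z := by
    rintro x hx rfl
    exact hz hx
  refine ⟨Function.update c z k, ?_, ?_⟩
  · intro x hx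
    rw [Function.update_of_ne (hne x hx)]
  · rintro x (hx | hx) y (hy | hy) hxy
    · rw [Function.update_of_ne (hne x hx), Function.update_of_ne (hne y hy)]
      exact hA x hx y hy hxy
    · rw [Set.mem_singleton_iff] at hy
      subst hy
      rw [Function.update_of_ne (hne x hx), Function.update_self]
      exact hk' x hx hxy.symm
    · rw [Set.mem_singleton_iff] at hx
      subst hx
      rw [Function.update_of_ne (hne y hy), Function.update_self]
      exact (hk' y hy hxy).symm
    · rw [Set.mem_singleton_iff] at hx hy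
      subst hx
      subst hy
      exact absurd hxy (Γ.loopless.irrefl _)

end Pool.Agent.H416R4.PK
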