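import Pool.Agent.H416R4.PK.Defs
import Pool.Agent.H416R4.PK.T26

set_option autoImplicit false
open Classical

namespace Pool.Agent.H416R4.PK

variable {V : Type*} [Fintype V]

/-- T25 -/
theorem br_greedy (Γ : SimpleGraph V) (hd : ∀ x, dg Γ x ≤ 4) (A : Set V) (c : V → Fin 4)
    (hA : PO Γ A c) (l : List V) (z : V) (hn : (l ++ [z]).Nodup)
    (hch : List.IsChain Γ.Adj (l ++ [z])) (hdis : ∀ x ∈ l ++ [z], x ∉ A) :
    ∃ c', (∀ x ∈ A, c' x = c x) ∧ PO Γ (A ∪ {x | x ∈ l}) c' := by
  induction l generalizing A c with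
  | nil =>
    refine ⟨c, fun _ _ => rfl, ?_⟩
    have : A ∪ {x | x ∈ ([] : List V)} = A := by
      ext x
      simp
    rw [this]
    exact hA
  | cons x l ih =>
    rw [List.cons_append] at hn hch hdis
    have hxA : x ∉ A := hdis x List.mem_cons_self
    obtain ⟨y, hy, hxy⟩ : ∃ y ∈ l ++ [z], Γ.Adj x y := by
      cases l with
      | nil =>
        refine ⟨z, by simp, ?_⟩
        simp only [List.nil_append] at hch
        exact (List.isChain_cons_cons.1 hch).1
      | cons w l =>
        refine ⟨w, by simp, ?_⟩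
        rw [List.cons_append] at hch
        exact (List.isChain_cons_cons.1 hch).1
    have hyA : y ∉ A := hdis y (List.mem_cons_of_mem _ hy)
    obtain ⟨c1, hc1, hc1'⟩ := br_finish Γ hd A c hA x hxA (Or.inl ⟨y, hxy, hyA⟩)
    have hn' := (List.nodup_cons.1 hn)
    obtain ⟨c2, hc2, hc2'⟩ := ih (A ∪ {x}) c1 hc1' hn'.2 hch.tail (by
      rintro w hw (h | h)
      · exact hdis w (List.mem_cons_of_mem _ hw) h
      · rw [Set.mem_singleton_iff] at h
        subst h
        exact hn'.1 hw)
    refine ⟨c2, ?_, ?_⟩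
    · intro w hw
      rw [hc2 w (Or.inl hw), hc1 w hw]
    · have : A ∪ {w | w ∈ x :: l} = A ∪ {x} ∪ {w | w ∈ l} := by
        ext w
        simp only [Set.mem_union, Set.mem_setOf_eq, List.mem_cons, Set.mem_singleton_iff]
        tauto
      rw [this]
      exact hc2'

end Pool.Agent.H416R4.PK
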