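import Pool.Agent.H416R4.PK.Defs
import Pool.Agent.H416R4.PK.T25
import Pool.Agent.H416R4.PK.T26

set_option autoImplicit false
open Classical

namespace Pool.Agent.H416R4.PK

variable {V : Type*} [Fintype V]

/-- T27 -/
theorem br_caseA (Γ : SimpleGraph V) (hd : ∀ x, dg Γ x ≤ 4) (A : Set V) (v1 v2 v3 : V)
    (l : List V) (hn : (v1 :: v2 :: v3 :: l).Nodup)
    (hch : List.IsChain Γ.Adj (v1 :: v2 :: v3 :: l))
    (hA : ∀ x, x ∈ A ↔ x ∈ v1 :: v2 :: v3 :: l) (h13 : ¬ Γ.Adj v1 v3)
    (ht : ∃ t ∈ l, Γ.Adj v2 t) : ∃ c, PO Γ A c := by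
  obtain ⟨t, htl, h2t⟩ := ht
  obtain ⟨l1, l2, rfl⟩ := List.append_of_mem htl
  have c12 : Γ.Adj v1 v2 := (List.isChain_cons_cons.1 hch).1
  have ch2 := (List.isChain_cons_cons.1 hch).2
  have c23 : Γ.Adj v2 v3 := (List.isChain_cons_cons.1 ch2).1
  have ch3 := (List.isChain_cons_cons.1 ch2).2
  have ch4 : List.IsChain Γ.Adj (l1 ++ t :: l2) := ch3.tail
  have n1 := List.nodup_cons.1 hn
  have n2 := List.nodup_cons.1 n1.2
  have n3 := List.nodup_cons.1 n2.2
  have hnl : (l1 ++ t :: l2).Nodup := n3.2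
  -- the first two vertices
  have hP0 : PO Γ ({v1, v3} : Set V) (fun _ => 0) := by
    rintro x hx y hy hxy
    exfalso
    rw [Set.mem_insert_iff, Set.mem_singleton_iff] at hx hy
    rcases hx with rfl | rfl <;> rcases hy with rfl | rfl
    · exact Γ.loopless.irrefl _ hxy
    · exact h13 hxy
    · exact h13 hxy.symm
    · exact Γ.loopless.irrefl _ hxy
  have e1 : l1 ++ t :: l2 = (l1 ++ [t]) ++ l2 := by simp
  have ch5 : List.IsChain Γ.Adj (l1 ++ [t]) := by
    rw [e1] at ch4
    exact ch4.left_of_append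
  have nn5 : (l1 ++ [t]).Nodup := by
    rw [e1] at hnl
    exact hnl.of_append_left
  have hdis1 : ∀ x ∈ l1 ++ [t], x ∉ ({v1, v3} : Set V) := by
    intro x hx hx'
    have hx2 : x ∈ l1 ++ t :: l2 := by
      rw [e1]; exact List.mem_append_left _ hx
    rw [Set.mem_insert_iff, Set.mem_singleton_iff] at hx'
    rcases hx' with rfl | rfl
    · exact n1.1 (List.mem_cons_of_mem _ (List.mem_cons_of_mem _ hx2))
    · exact n3.1 hx2
  obtain ⟨c1, hc1, hc1'⟩ := br_greedy Γ hd _ _ hP0 l1 t nn5 ch5 hdis1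
  -- the second path
  have ch6 : List.IsChain Γ.Adj (t :: l2) := ch4.right_of_append
  have ch7 : List.IsChain Γ.Adj ((l2.reverse ++ [t]) ++ [v2]) := by
    have h1 : List.IsChain Γ.Adj (v2 :: t :: l2) := List.isChain_cons_cons.2 ⟨h2t, ch6⟩
    have h2 : ((l2.reverse ++ [t]) ++ [v2]) = (v2 :: t :: l2).reverse := by simp
    rw [h2, List.isChain_reverse]
    exact h1.imp (fun a b h => h.symm)
  have nn7 : ((l2.reverse ++ [t]) ++ [v2]).Nodup := by
    have h2 : ((l2.reverse ++ [t]) ++ [v2]) = (v2 :: t :: l2).reverse := by simp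
    rw [h2, List.nodup_reverse, List.nodup_cons]
    refine ⟨?_, (hnl.of_append_right)⟩
    intro h
    exact n2.1 (List.mem_cons_of_mem _ (List.mem_append_right _ h))
  have hdis2 : ∀ x ∈ (l2.reverse ++ [t]) ++ [v2], x ∉ ({v1, v3} : Set V) ∪ {x | x ∈ l1} := by
    intro x hx hx'
    have hx2 : x = v2 ∨ x ∈ t :: l2 := by
      simp only [List.mem_append, List.mem_reverse, List.mem_singleton] at hx
      rcases hx with (h | h) | h
      · exact Or.inr (List.mem_cons_of_mem _ h)
      · exact Or.inr (h ▸ List.mem_cons_self)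
      · exact Or.inl h
    rcases hx2 with rfl | hx2
    · rcases hx' with h | h
      · rw [Set.mem_insert_iff, Set.mem_singleton_iff] at h
        rcases h with rfl | rfl
        · exact n1.1 List.mem_cons_self
        · exact n2.1 List.mem_cons_self
      · exact n2.1 (List.mem_cons_of_mem _ (List.mem_append_left _ h))
    · rcases hx' with h | h
      · rw [Set.mem_insert_iff, Set.mem_singleton_iff] at h
        rcases h with rfl | rfl
        · exact n1.1 (List.mem_cons_of_mem _ (List.mem_cons_of_mem _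
            (List.mem_append_right _ hx2)))
        · exact n3.1 (List.mem_append_right _ hx2)
      · exact (List.disjoint_of_nodup_append hnl) h hx2
  obtain ⟨c2, hc2, hc2'⟩ := br_greedy Γ hd _ _ hc1' (l2.reverse ++ [t]) v2 nn7 ch7 hdis2
  -- the last vertex
  have hv1 : v1 ∈ ({v1, v3} : Set V) := by simp
  have hv3 : v3 ∈ ({v1, v3} : Set V) := by simp
  have hcol : c2 v1 = c2 v3 := by
    rw [hc2 v1 (Or.inl hv1), hc2 v3 (Or.inl hv3), hc1 v1 hv1, hc1 v3 hv3]
  have hv2 : v2 ∉ ({v1, v3} : Set V) ∪ {x | x ∈ l1} ∪ {x | x ∈ l2.reverse ++ [t]} := by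
    rintro (h | h)
    · exact hdis2 v2 (by simp) h
    · have h' : v2 ∈ l2.reverse ++ [t] := h
      simp only [List.mem_append, List.mem_reverse, List.mem_singleton] at h'
      apply n2.1
      refine List.mem_cons_of_mem _ (List.mem_append_right _ ?_)
      rcases h' with h' | h'
      · exact List.mem_cons_of_mem _ h'
      · exact h' ▸ List.mem_cons_self
  have hne13 : v1 ≠ v3 := by
    rintro rfl
    exact n1.1 (by simp)
  obtain ⟨c3, hc3, hc3'⟩ := br_finish Γ hd _ _ hc2' v2 hv2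
    (Or.inr (Or.inl ⟨v1, v3, hne13, Or.inl (Or.inl hv1), Or.inl (Or.inl hv3), c12.symm, c23, hcol⟩))
  refine ⟨c3, ?_⟩
  have hAe : A = ({v1, v3} : Set V) ∪ {x | x ∈ l1} ∪ {x | x ∈ l2.reverse ++ [t]} ∪ {v2} := by
    ext x
    rw [hA x]
    simp only [List.mem_cons, List.mem_append, Set.mem_union, Set.mem_insert_iff,
      Set.mem_singleton_iff, Set.mem_setOf_eq, List.mem_reverse, List.not_mem_nil, or_false]
    tauto
  rw [hAe]
  exact hc3'

end Pool.Agent.H416R4.PK
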