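import Pool.Agent.H416R4.PK.Defs
import Pool.Agent.H416R4.PK.T25
import Pool.Agent.H416R4.PK.T26

set_option autoImplicit false
open Classical

namespace Pool.Agent.H416R4.PK

namespace T28

/-- last place where a property holds -/
theorem split {α : Type*} (Q : α → Prop) : ∀ (P : List α), (∃ x ∈ P, Q x) →
    (∀ b ∈ P.getLast?, ¬ Q b) → ∃ (L1 : List α) (p q : α) (L2 : List α),
      P = L1 ++ p :: q :: L2 ∧ Q p ∧ ¬ Q q
  | [], ⟨x, hx, _⟩, _ => by simp at hx
  | [x], ⟨y, hy, hQ⟩, hl => by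
    simp only [List.mem_singleton] at hy
    subst hy
    exact absurd hQ (hl y (by simp))
  | x :: y :: P', ⟨z, hz, hQ⟩, hl => by
    by_cases h : ∃ w ∈ y :: P', Q w
    · obtain ⟨L1, p, q, L2, h1, h2, h3⟩ := split Q (y :: P') h (fun b hb => hl b (by
        rw [List.getLast?_cons_cons]
        exact hb))
      exact ⟨x :: L1, p, q, L2, by rw [h1]; rfl, h2, h3⟩
    · push Not at h
      refine ⟨[], x, y, P', rfl, ?_, h y (by simp)⟩
      rw [List.mem_cons] at hz
      rcases hz with rfl | hz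
      · exact hQ
      · exact absurd hQ (h z hz)

end T28

open T28

variable {V : Type*} [Fintype V]

/-- T28 -/
theorem br_caseB (Γ : SimpleGraph V) (hd : ∀ x, dg Γ x ≤ 4) (A : Set V) (a b : V) (l : List V)
    (hn : (a :: (l ++ [b])).Nodup) (hch : List.IsChain Γ.Adj (a :: (l ++ [b])))
    (hL : ∀ x ∈ a :: (l ++ [b]), x ∈ A) (hcl : Γ.Adj b a)
    (hb : ∀ y ∈ A, Γ.Adj b y → y ∈ a :: (l ++ [b]))
    (hu : ∃ x ∈ a :: (l ++ [b]), ∃ y ∈ A, y ∉ a :: (l ++ [b]) ∧ Γ.Adj x y)
    (hc : ∃ c, PO Γ (A \ {x | x ∈ a :: (l ++ [b])}) c) : ∃ c, PO Γ A c := by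
  obtain ⟨c0, hc0⟩ := hc
  have hlast : (a :: (l ++ [b])).getLast? = some b := by
    rw [← List.cons_append, List.getLast?_append]
    simp
  have hhead : (a :: (l ++ [b])).head? = some a := rfl
  obtain ⟨L1, p, q, L2, hP, ⟨u, huA, huP, hpu⟩, hq⟩ :=
    split (fun x => ∃ y ∈ A, y ∉ a :: (l ++ [b]) ∧ Γ.Adj x y) (a :: (l ++ [b])) hu (by
      intro z hz
      rw [hlast] at hz
      simp only [Option.mem_def, Option.some.injEq] at hz
      subst hz
      rintro ⟨y, h1, h2, h3⟩
      exact h2 (hb y h1 h3))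
  push Not at hq
  generalize a :: (l ++ [b]) = P at *
  have hqP : q ∈ P := by rw [hP]; simp
  have hpP : p ∈ P := by rw [hP]; simp
  have hpq : p ≠ q := by
    rintro rfl
    rw [hP] at hn
    have := hn.of_append_right
    simp at this
  rw [hP] at hch
  obtain ⟨ch1, hadj, ch2⟩ := List.isChain_append_cons_cons.1 hch
  -- colour `q`
  set c1 : V → Fin 4 := Function.update c0 q (c0 u) with hc1
  have hne : ∀ x ∈ A \ {x | x ∈ P}, x ≠ q := by
    rintro x hx rfl
    exact hx.2 hqP
  have hA1 : PO Γ ((A \ {x | x ∈ P}) ∪ {q}) c1 := by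
    rintro x (hx | hx) y (hy | hy) hxy
    · rw [hc1, Function.update_of_ne (hne x hx), Function.update_of_ne (hne y hy)]
      exact hc0 x hx y hy hxy
    · rw [Set.mem_singleton_iff] at hy
      subst hy
      exact absurd hxy.symm (hq x hx.1 hx.2)
    · rw [Set.mem_singleton_iff] at hx
      subst hx
      exact absurd hxy (hq y hy.1 hy.2)
    · rw [Set.mem_singleton_iff] at hx hy
      subst hx
      subst hy
      exact absurd hxy (Γ.loopless.irrefl _)
  -- the greedy list
  have hchain : List.IsChain Γ.Adj ((L2 ++ L1) ++ [p]) := by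
    rw [List.append_assoc, List.isChain_append]
    refine ⟨ch2.tail, ch1, ?_⟩
    intro x hx y hy
    have e1 : P.getLast? = some x := by
      rw [hP, show L1 ++ p :: q :: L2 = (L1 ++ [p, q]) ++ L2 by simp, List.getLast?_append]
      rw [Option.mem_def] at hx
      rw [hx]
      rfl
    have e2 : P.head? = some y := by
      rw [hP, show L1 ++ p :: q :: L2 = (L1 ++ [p]) ++ (q :: L2) by simp, List.head?_append]
      rw [Option.mem_def] at hy
      rw [hy]
      rfl
    rw [hlast] at e1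
    rw [hhead] at e2
    simp only [Option.some.injEq] at e1 e2
    subst e1
    subst e2
    exact hcl
  have hperm : (L1 ++ p :: q :: L2).Perm (q :: ((L2 ++ L1) ++ [p])) := by
    calc (L1 ++ p :: q :: L2) = (L1 ++ [p]) ++ (q :: L2) := by simp
      _ |>.Perm ((q :: L2) ++ (L1 ++ [p])) := List.perm_append_comm
      _ = q :: ((L2 ++ L1) ++ [p]) := by simp
  have hn2 : (q :: ((L2 ++ L1) ++ [p])).Nodup := by
    rw [hP] at hn
    exact hperm.nodup_iff.1 hn
  rw [List.nodup_cons] at hn2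
  have hmem : ∀ x, x ∈ P ↔ x = q ∨ x ∈ (L2 ++ L1) ++ [p] := by
    intro x
    rw [hP, hperm.mem_iff, List.mem_cons]
  have hdis : ∀ x ∈ (L2 ++ L1) ++ [p], x ∉ (A \ {x | x ∈ P}) ∪ {q} := by
    rintro x hx (h | h)
    · exact h.2 ((hmem x).2 (Or.inr hx))
    · rw [Set.mem_singleton_iff] at h
      subst h
      exact hn2.1 hx
  obtain ⟨c2, h21, h22⟩ := br_greedy Γ hd _ c1 hA1 (L2 ++ L1) p hn2.2 hchain hdis
  have huq : u ≠ q := by
    rintro rfl
    exact huP hqP
  obtain ⟨c3, h31, h32⟩ := br_finish Γ hd _ c2 h22 p (by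
      rintro (h | h)
      · exact hdis p (by simp) h
      · have := (List.nodup_append.1 hn2.2).2.2 p h p (by simp)
        exact this rfl) (Or.inr (Or.inl ⟨u, q, huq, Or.inl (Or.inl ⟨huA, huP⟩),
      Or.inl (Or.inr rfl), hpu, hadj, by
        rw [h21 u (Or.inl ⟨huA, huP⟩), h21 q (Or.inr rfl), hc1, Function.update_self,
          Function.update_of_ne huq]⟩))
  have hsub : ∀ x ∈ A, x ∈ (((A \ {x | x ∈ P}) ∪ {q}) ∪ {x | x ∈ L2 ++ L1}) ∪ {p} := by
    intro x hx
    by_cases hxP : x ∈ P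
    · rcases (hmem x).1 hxP with h | h
      · exact Or.inl (Or.inl (Or.inr h))
      · rw [List.mem_append] at h
        rcases h with h | h
        · exact Or.inl (Or.inr h)
        · exact Or.inr (by simpa using h)
    · exact Or.inl (Or.inl (Or.inl ⟨hx, hxP⟩))
  exact ⟨c3, fun x hx y hy => h32 x (hsub x hx) y (hsub y hy)⟩

end Pool.Agent.H416R4.PK
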