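import Pool.Agent.H416R4.PK.Defs

/-!
# T29: a maximal path extending `l0`
-/

set_option autoImplicit false
open Classical

namespace Pool.Agent.H416R4.PK

variable {V : Type*} [Fintype V]

/-- T29 -/
theorem br_maxpath (Γ : SimpleGraph V) (A : Set V) (l0 : List V) (hne : l0 ≠ [])
    (hn : l0.Nodup) (hch : List.IsChain Γ.Adj l0) (hA : ∀ x ∈ l0, x ∈ A) :
    ∃ (L : List V) (b : V), (L ++ [b]).Nodup ∧ List.IsChain Γ.Adj (L ++ [b]) ∧
      l0 <+: (L ++ [b]) ∧ (∀ x ∈ L ++ [b], x ∈ A) ∧ ∀ y ∈ A, Γ.Adj b y → y ∈ L ++ [b] := by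
  -- lengths of admissible lists
  let P : ℕ → Prop := fun n => ∃ l : List V, l.length = n ∧ l.Nodup ∧ List.IsChain Γ.Adj l ∧
    l0 <+: l ∧ ∀ x ∈ l, x ∈ A
  have hP0 : P l0.length := ⟨l0, rfl, hn, hch, List.prefix_refl l0, hA⟩
  have hb : ∀ n, P n → n ≤ Fintype.card V := by
    rintro n ⟨l, rfl, hl, -⟩
    exact hl.length_le_card
  have hmax : P (Nat.findGreatest P (Fintype.card V)) :=
    Nat.findGreatest_spec (hb _ hP0) hP0
  obtain ⟨l, hlen, hl, hlc, hlp, hlA⟩ := hmax
  have hlne : l ≠ [] := by
    rintro rfl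
    exact hne (List.prefix_nil.mp hlp)
  have hdec : l.dropLast ++ [l.getLast hlne] = l := List.dropLast_append_getLast hlne
  refine ⟨l.dropLast, l.getLast hlne, ?_, ?_, ?_, ?_, ?_⟩
  · rw [hdec]; exact hl
  · rw [hdec]; exact hlc
  · rw [hdec]; exact hlp
  · rw [hdec]; exact hlA
  · rw [hdec]
    intro y hy hadj
    by_contra hyl
    have hP : P (l ++ [y]).length := by
      refine ⟨l ++ [y], rfl, ?_, ?_, ?_, ?_⟩
      · rw [List.nodup_append]
        refine ⟨hl, List.nodup_singleton y, ?_⟩
        intro a ha b hb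
        rw [List.mem_singleton] at hb
        rintro rfl
        exact hyl (hb ▸ ha)
      · rw [List.isChain_append]
        refine ⟨hlc, List.isChain_singleton y, ?_⟩
        intro x hx z hz
        rw [List.getLast?_eq_getLast_of_ne_nil hlne] at hx
        simp only [Option.mem_def, Option.some.injEq] at hx
        simp only [List.head?_cons, Option.mem_def, Option.some.injEq] at hz
        subst hx; subst hz
        exact hadj
      · exact hlp.trans (List.prefix_append l [y])
      · intro x hx
        rw [List.mem_append, List.mem_singleton] at hx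
        rcases hx with hx | hx
        · exact hlA x hx
        · exact hx ▸ hy
    have h1 : (l ++ [y]).length ≤ Nat.findGreatest P (Fintype.card V) :=
      Nat.le_findGreatest (hb _ hP) hP
    rw [← hlen, List.length_append, List.length_singleton] at h1
    omega

end Pool.Agent.H416R4.PK
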