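import Pool.Agent.H416R4.PK.Defs
import Pool.Agent.H416R4.PK.T25
import Pool.Agent.H416R4.PK.T26
import Pool.Agent.H416R4.PK.T27
import Pool.Agent.H416R4.PK.T28
import Pool.Agent.H416R4.PK.T29

/-! Task T30: Brooks' theorem for maximum degree four. -/

set_option autoImplicit false
open Classical

namespace Pool.Agent.H416R4.PK


variable {V : Type*} [Fintype V]

namespace T30

omit [Fintype V] in
theorem split_first (p : V → Prop) : ∀ (L : List V), (∃ x ∈ L, p x) →
    ∃ L1 a l, L = L1 ++ a :: l ∧ p a ∧ ∀ x ∈ L1, ¬ p x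
  | [], h => by simp at h
  | x :: L, h => by
    by_cases hx : p x
    · exact ⟨[], x, L, rfl, hx, by simp⟩
    · have h' : ∃ y ∈ L, p y := by
        obtain ⟨y, hy, hy'⟩ := h
        rcases List.mem_cons.1 hy with rfl | hy
        · exact absurd hy' hx
        · exact ⟨y, hy, hy'⟩
      obtain ⟨L1, a, l, h1, h2, h3⟩ := split_first p L h'
      refine ⟨x :: L1, a, l, by rw [h1, List.cons_append], h2, fun y hy => ?_⟩
      rcases List.mem_cons.1 hy with rfl | hy
      · exact hx
      · exact h3 y hy

theorem exists_nonadj (Γ : SimpleGraph V) (hk : Γ.CliqueFree 5) (v : V) (hv : dg Γ v = 4) :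
    ∃ x y, x ≠ y ∧ Γ.Adj v x ∧ Γ.Adj v y ∧ ¬ Γ.Adj x y := by
  by_contra hcon
  push Not at hcon
  set N : Finset V := Finset.univ.filter (fun x => Γ.Adj v x) with hN
  have hc : N.card = 4 := by
    rw [← hv]
    unfold dg
    rw [← Set.ncard_coe_finset]
    congr 1
    ext x
    simp [hN]
  have h1 : Γ.IsNClique 4 N := by
    refine ⟨fun x hx y hy hne => ?_, hc⟩
    have hx' : Γ.Adj v x := by simpa [hN] using hx
    have hy' : Γ.Adj v y := by simpa [hN] using hy
    exact hcon x y hne hx' hy'
  have h2 : Γ.IsNClique (4 + 1) (insert v N) := h1.insert fun x hx => by simpa [hN] using hx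
  exact hk _ h2

end T30

theorem brooks (Γ : SimpleGraph V) (hd : ∀ x, dg Γ x ≤ 4) (hk : Γ.CliqueFree 5) :
    ∃ c : V → Fin 4, ∀ x y, Γ.Adj x y → c x ≠ c y := by
  have key : ∀ (n : ℕ) (A : Set V), A.ncard = n → ∃ c, PO Γ A c := by
    intro n
    induction n using Nat.strong_induction_on with
    | _ n ih =>
    intro A hA
    have ih' : ∀ B : Set V, B.ncard < A.ncard → ∃ c, PO Γ B c := fun B hB =>
      ih B.ncard (hA ▸ hB) B rfl
    by_cases hne : A.Nonempty
    swap
    · rw [Set.not_nonempty_iff_eq_empty] at hne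
      subst hne
      exact ⟨fun _ => 0, fun x hx => absurd hx (Set.notMem_empty x)⟩
    by_cases h1 : ∃ v ∈ A, (∃ y, Γ.Adj v y ∧ y ∉ A) ∨ dg Γ v ≤ 3
    · obtain ⟨v, hv, hv'⟩ := h1
      obtain ⟨c, hc⟩ := ih' (A \ {v}) (Set.ncard_sdiff_singleton_lt_of_mem hv)
      obtain ⟨c', -, hc'⟩ := br_finish Γ hd (A \ {v}) c hc v (fun h => h.2 rfl) (by
        rcases hv' with ⟨y, hy, hy'⟩ | h
        · exact Or.inl ⟨y, hy, fun h => hy' h.1⟩
        · exact Or.inr (Or.inr h))
      refine ⟨c', ?_⟩
      rwa [Set.sdiff_union_self, Set.union_eq_self_of_subset_right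
        (Set.singleton_subset_iff.2 hv)] at hc'
    · push Not at h1
      have hcl : ∀ v ∈ A, ∀ y, Γ.Adj v y → y ∈ A := fun v hv y hy => by
        by_contra h
        exact h ((h1 v hv).1 y hy)
      have hdg : ∀ v ∈ A, dg Γ v = 4 := fun v hv =>
        le_antisymm (hd v) (h1 v hv).2
      obtain ⟨v2, hv2⟩ := hne
      obtain ⟨v1, v3, h13, ha1, ha3, hna⟩ := T30.exists_nonadj Γ hk v2 (hdg v2 hv2)
      have hv1 := hcl v2 hv2 v1 ha1
      have hv3 := hcl v2 hv2 v3 ha3
      obtain ⟨L, b, hn, hch, hpre, hLA, hb⟩ := br_maxpath Γ A [v1, v2, v3] (by simp)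
        (by simp [ha1.ne', h13, ha3.ne]) (by simp [ha1.symm, ha3])
        (by simp [hv1, hv2, hv3])
      have hbA : b ∈ A := hLA b (by simp)
      have hbn : ∃ x ∈ L, Γ.Adj b x := by
        have h2 : 0 < (Γ.neighborSet b).ncard := by
          have := hdg b hbA
          unfold dg at this
          omega
        obtain ⟨x, hx⟩ := (Set.ncard_pos (Set.toFinite _)).1 h2
        have hx' : Γ.Adj b x := hx
        have h3 := hb x (hcl b hbA x hx') hx'
        rw [List.mem_append, List.mem_singleton] at h3
        rcases h3 with h3 | h3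
        · exact ⟨x, h3, hx'⟩
        · exact absurd h3 hx'.ne'
      obtain ⟨L1, a, l, hL, hba, hL1⟩ := T30.split_first (fun x => Γ.Adj b x) L hbn
      have hP : L ++ [b] = L1 ++ (a :: (l ++ [b])) := by
        rw [hL]
        simp
      rw [hP] at hn hch hpre hLA hb
      obtain ⟨-, hCn, hdis⟩ := List.nodup_append.1 hn
      have hCch : List.IsChain Γ.Adj (a :: (l ++ [b])) := (List.isChain_append.1 hch).2.1
      have hCA : ∀ x ∈ a :: (l ++ [b]), x ∈ A := fun x hx => hLA x (List.mem_append_right _ hx)
      have hbC : ∀ y ∈ A, Γ.Adj b y → y ∈ a :: (l ++ [b]) := by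
        intro y hy hby
        rcases List.mem_append.1 (hb y hy hby) with h | h
        · exact absurd hby (hL1 y h)
        · exact h
      have hbmem : b ∈ a :: (l ++ [b]) := by simp
      have hlt : (A \ {x | x ∈ a :: (l ++ [b])}).ncard < A.ncard := by
        apply Set.ncard_lt_ncard _ (Set.toFinite _)
        refine ⟨Set.sdiff_subset, fun h => ?_⟩
        exact (h hbA).2 hbmem
      by_cases hu : ∃ x ∈ a :: (l ++ [b]), ∃ y ∈ A, y ∉ a :: (l ++ [b]) ∧ Γ.Adj x y
      · exact br_caseB Γ hd A a b l hCn hCch hCA hba hbC hu (ih' _ hlt)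
      · push Not at hu
        by_cases hall : ∀ y ∈ A, y ∈ a :: (l ++ [b])
        · -- everything is on the cycle
          have hL1' : L1 = [] := by
            rw [List.eq_nil_iff_forall_not_mem]
            intro x hx
            exact hdis x hx x (hall x (hLA x (List.mem_append_left _ hx))) rfl
          subst hL1'
          rw [List.nil_append] at hpre
          obtain ⟨t, ht⟩ := hpre
          have ht' : a :: (l ++ [b]) = v1 :: v2 :: v3 :: t := by
            rw [← ht]
            simp
          rw [ht'] at hCn hCch hCA hall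
          refine br_caseA Γ hd A v1 v2 v3 t hCn hCch (fun x => ⟨hall x, hCA x⟩) hna ?_
          by_contra hcon
          push Not at hcon
          have hsub : Γ.neighborSet v2 ⊆ {v1, v3} := by
            intro x hx
            have hx' : Γ.Adj v2 x := hx
            have h4 := hall x (hcl v2 hv2 x hx')
            simp only [List.mem_cons] at h4
            rcases h4 with h4 | h4 | h4 | h4
            · exact Or.inl h4
            · exact absurd h4 hx'.ne'
            · exact Or.inr h4
            · exact absurd hx' (hcon x h4)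
          have h5 : (Γ.neighborSet v2).ncard ≤ 2 :=
            (Set.ncard_le_ncard hsub (Set.toFinite _)).trans (Set.ncard_pair h13).le
          have h6 := hdg v2 hv2
          unfold dg at h6
          omega
        · -- the cycle is a union of components
          push Not at hall
          obtain ⟨y0, hy0, hy0'⟩ := hall
          have hlt2 : {x | x ∈ a :: (l ++ [b])}.ncard < A.ncard := by
            apply Set.ncard_lt_ncard _ (Set.toFinite _)
            refine ⟨fun x hx => hCA x hx, fun h => ?_⟩
            exact hy0' (h hy0)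
          obtain ⟨c1, hc1⟩ := ih' _ hlt2
          obtain ⟨c2, hc2⟩ := ih' _ hlt
          refine ⟨fun x => if x ∈ a :: (l ++ [b]) then c1 x else c2 x, ?_⟩
          intro x hx y hy hxy
          by_cases hxC : x ∈ a :: (l ++ [b])
          · have hyC : y ∈ a :: (l ++ [b]) := by
              by_contra h
              exact hu x hxC y hy h hxy
            simp only [if_pos hxC, if_pos hyC]
            exact hc1 x hxC y hyC hxy
          · have hyC : y ∉ a :: (l ++ [b]) := by
              intro h
              exact hu y h x hx hxC hxy.symm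
            simp only [if_neg hxC, if_neg hyC]
            exact hc2 x ⟨hx, hxC⟩ y ⟨hy, hyC⟩ hxy
  obtain ⟨c, hc⟩ := key _ Set.univ rfl
  exact ⟨c, fun x y hxy => hc x (Set.mem_univ x) y (Set.mem_univ y) hxy⟩

end Pool.Agent.H416R4.PK
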