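import Pool.Agent.H416R4.PK.Defs
import Pool.Agent.H416R4.PK.T20
import Pool.Agent.H416R4.PK.T30

set_option autoImplicit false
open Classical

namespace Pool.Agent.H416R4.PK

variable {V : Type*} [Fintype V]

namespace T31

/-- the canonical end of a matching edge -/
noncomputable def rho (m : V → V) (χ : V → Bool) (x : V) : V := if χ x = true then x else m x

omit [Fintype V] in
theorem rho_m (m : V → V) (hm : ∀ x, m (m x) = x) (χ : V → Bool)
    (hχ : ∀ x, m x ≠ x → χ (m x) ≠ χ x) (x : V) : rho m χ (m x) = rho m χ x := by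
  unfold rho
  by_cases h : m x = x
  · simp [h]
  · have h1 := hχ x h
    rw [hm]
    cases h2 : χ x <;> cases h3 : χ (m x) <;> simp_all

omit [Fintype V] in
theorem rho_or (m : V → V) (χ : V → Bool) (x : V) : rho m χ x = x ∨ rho m χ x = m x := by
  unfold rho
  split_ifs
  · exact Or.inl rfl
  · exact Or.inr rfl

omit [Fintype V] in
theorem rho_rho (m : V → V) (hm : ∀ x, m (m x) = x) (χ : V → Bool)
    (hχ : ∀ x, m x ≠ x → χ (m x) ≠ χ x) (x : V) : rho m χ (rho m χ x) = rho m χ x := by
  rcases rho_or m χ x with h | h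
  · rw [h, h]
  · rw [h, rho_m m hm χ hχ, h]

/-- the graph of the matching edges -/
def Gam (H : SimpleGraph V) (m : V → V) (χ : V → Bool) : SimpleGraph V where
  Adj a b := a ≠ b ∧ rho m χ a = a ∧ rho m χ b = b ∧ m a ≠ a ∧ m b ≠ b ∧
    ∃ x y, (x = a ∨ x = m a) ∧ (y = b ∨ y = m b) ∧ (rm H m).Adj x y
  symm := ⟨by
    rintro a b ⟨h1, h2, h3, h4, h5, x, y, hx, hy, hxy⟩
    exact ⟨h1.symm, h3, h2, h5, h4, y, x, hy, hx, hxy.symm⟩⟩
  loopless := ⟨fun a h => h.1 rfl⟩

theorem dg_rm (H : SimpleGraph V) (m : V → V) (U : Set V) (hC : Core H m U) (x : V)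
    (hx : m x ≠ x) : dg (rm H m) x ≤ 2 := by
  have h1 := hC.deg3 x
  have h2 : dg (rm H m) x + 1 ≤ dg H x := by
    unfold dg
    rw [← Set.ncard_insert_of_notMem (a := m x) (s := (rm H m).neighborSet x)
      (fun h => h.2.1 rfl) (Set.toFinite _)]
    apply Set.ncard_le_ncard _ (Set.toFinite _)
    intro y hy
    rcases hy with rfl | hy
    · exact hC.adj x hx
    · exact hy.1
  omega

theorem Gam_deg (H : SimpleGraph V) (m : V → V) (U : Set V) (hC : Core H m U) (χ : V → Bool)
    (hχ : ∀ x, m x ≠ x → χ (m x) ≠ χ x) (a : V) : dg (Gam H m χ) a ≤ 4 := by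
  by_cases ha : m a = a
  · have : (Gam H m χ).neighborSet a = ∅ := by
      ext b
      simp only [Set.mem_empty_iff_false, iff_false]
      intro hb
      exact hb.2.2.2.1 ha
    unfold dg
    rw [this, Set.ncard_empty]
    omega
  · have hma : m (m a) ≠ m a := by
      rw [hC.inv]
      exact fun h => ha h.symm
    have h1 := dg_rm H m U hC a ha
    have h2 := dg_rm H m U hC (m a) hma
    have hsub : (Gam H m χ).neighborSet a ⊆
        rho m χ '' ((rm H m).neighborSet a ∪ (rm H m).neighborSet (m a)) := by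
      rintro b ⟨_, _, hb, _, _, x, y, hx, hy, hxy⟩
      refine ⟨y, ?_, ?_⟩
      · rcases hx with rfl | rfl
        · exact Or.inl hxy
        · exact Or.inr hxy
      · rcases hy with rfl | rfl
        · exact hb
        · rw [rho_m m hC.inv χ hχ, hb]
    have h3 := Set.ncard_le_ncard hsub (Set.toFinite _)
    have h4 := Set.ncard_image_le (f := rho m χ)
      (s := (rm H m).neighborSet a ∪ (rm H m).neighborSet (m a)) (Set.toFinite _)
    have h5 := Set.ncard_union_le ((rm H m).neighborSet a) ((rm H m).neighborSet (m a))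
    unfold dg at *
    omega

end T31

open T31 in
/-- T31 -/
theorem col_or_k5 (H : SimpleGraph V) (m : V → V) (U : Set V) (hC : Core H m U) :
    (∃ c, Col (rm H m) m c) ∨ ∃ e : Fin 5 → V, K5in H m e := by
  obtain ⟨χ, hχ, _⟩ := two_inv m m hC.inv hC.inv
  by_cases hk : (Gam H m χ).CliqueFree 5
  · left
    obtain ⟨c0, hc0⟩ := brooks (Gam H m χ) (Gam_deg H m U hC χ hχ) hk
    refine ⟨fun x => c0 (rho m χ x), fun x => ?_, fun x y hxy hx hy => hc0 _ _ ?_⟩
    · simp only [rho_m m hC.inv χ hχ]
    · have hmr : ∀ z, m z ≠ z → m (rho m χ z) ≠ rho m χ z := by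
        intro z hz
        rcases rho_or m χ z with h | h
        · rw [h]; exact hz
        · rw [h, hC.inv]; exact hz.symm
      have hor : ∀ z, z = rho m χ z ∨ z = m (rho m χ z) := by
        intro z
        rcases rho_or m χ z with h | h
        · exact Or.inl h.symm
        · right; rw [h, hC.inv]
      refine ⟨?_, rho_rho m hC.inv χ hχ x, rho_rho m hC.inv χ hχ y, hmr x hx, hmr y hy,
        x, y, hor x, hor y, hxy⟩
      intro he
      have hne : x ≠ y := hxy.1.ne
      have h1 : m x ≠ y := hxy.2.1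
      have h2 : m y ≠ x := hxy.2.2
      rcases rho_or m χ x with h | h <;> rcases rho_or m χ y with h' | h'
      · exact hne (by rw [← h, he, h'])
      · exact h2 (by rw [← h', ← he, h])
      · exact h1 (by rw [← h, he, h'])
      · apply hne
        have : m x = m y := by rw [← h, he, h']
        rw [← hC.inv x, this, hC.inv]
  · right
    rw [SimpleGraph.not_cliqueFree_iff_top_isContained] at hk
    obtain ⟨f⟩ := hk
    have hadj : ∀ i j, i ≠ j → (Gam H m χ).Adj (f i) (f j) := by
      intro i j hij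
      exact f.toHom.map_adj hij
    refine ⟨fun i => f i, ?_, ?_, ?_⟩
    · intro i
      obtain ⟨j, hj⟩ : ∃ j : Fin 5, i ≠ j := by
        refine ⟨if i = 0 then 1 else 0, ?_⟩
        split_ifs with h
        · rw [h]; decide
        · exact h
      exact (hadj i j hj).2.2.2.1
    · intro i j hij
      have h := hadj i j hij
      refine ⟨h.1, fun he => h.1 ?_⟩
      rw [← h.2.1, ← rho_m m hC.inv χ hχ, he, h.2.2.1]
    · intro i j hij
      obtain ⟨_, _, _, _, _, x, y, hx, hy, hxy⟩ := hadj i j hij
      exact ⟨x, y, hx, hy, hxy.1⟩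

end Pool.Agent.H416R4.PK
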