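import Pool.Agent.H416R4.PK.Defs

set_option autoImplicit false
open Classical

namespace Pool.Agent.H416R4.PK

variable {V : Type*} [Fintype V]

namespace T32

/-- the ten vertices -/
def P (m : V → V) (e : Fin 5 → V) (p : Fin 5 × Fin 2) : V := if p.2 = 0 then e p.1 else m (e p.1)

omit [Fintype V] in
theorem P_flip (G : SimpleGraph V) (m : V → V) (hi : Inv G m) (e : Fin 5 → V) (i : Fin 5)
    (a : Fin 2) : P m e (i, a + 1) = m (P m e (i, a)) := by
  fin_cases a
  · simp [P]
  · simp [P, hi.inv]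

omit [Fintype V] in
theorem P_inj (G : SimpleGraph V) (m : V → V) (hi : Inv G m) (e : Fin 5 → V) (hK : K5in G m e) :
    Function.Injective (P m e) := by
  rintro ⟨i, a⟩ ⟨j, b⟩ h
  by_cases hij : i = j
  · subst hij
    have h1 := hK.1 i
    have : a = b := by
      fin_cases a <;> fin_cases b <;> simp [P] at h ⊢
      · exact h1 h.symm
      · exact h1 h
    rw [this]
  · exfalso
    have h1 := hK.2.1 i j hij
    have h2 := hK.2.1 j i (Ne.symm hij)
    fin_cases a <;> fin_cases b <;> simp [P] at h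
    · exact h1.1 h
    · exact h2.2 h.symm
    · exact h1.2 h
    · apply h1.1
      have := congrArg m h
      rwa [hi.inv, hi.inv] at this

/-- the neighbours of `P (i,a)` in other matching edges -/
noncomputable def D (G : SimpleGraph V) (m : V → V) (e : Fin 5 → V) (i : Fin 5) (a : Fin 2) :
    Finset (Fin 5 × Fin 2) :=
  Finset.univ.filter (fun q => q.1 ≠ i ∧ G.Adj (P m e (i, a)) (P m e q))

omit [Fintype V] in
theorem P_ne (G : SimpleGraph V) (m : V → V) (hi : Inv G m) (e : Fin 5 → V) (hK : K5in G m e)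
    (p : Fin 5 × Fin 2) : m (P m e p) ≠ P m e p := by
  obtain ⟨i, a⟩ := p
  rw [← P_flip G m hi e i a]
  intro h
  have := P_inj G m hi e hK h
  simp only [Prod.mk.injEq, true_and] at this
  fin_cases a <;> simp at this

theorem Y_card (G : SimpleGraph V) (hd : ∀ x, dg G x ≤ 3) (m : V → V) (hi : Inv G m)
    (e : Fin 5 → V) (hK : K5in G m e) (i : Fin 5) (a : Fin 2) :
    (G.neighborSet (P m e (i, a)) \ {m (P m e (i, a))}).ncard ≤ 2 := by
  have h1 : m (P m e (i, a)) ∈ G.neighborSet (P m e (i, a)) :=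
    hi.adj _ (P_ne G m hi e hK _)
  have h2 := Set.ncard_sdiff_singleton_add_one h1 (Set.toFinite _)
  have h3 : (G.neighborSet (P m e (i, a))).ncard ≤ 3 := hd (P m e (i, a))
  omega

theorem D_sub (G : SimpleGraph V) (m : V → V) (hi : Inv G m)
    (e : Fin 5 → V) (hK : K5in G m e) (i : Fin 5) (a : Fin 2) :
    P m e '' (D G m e i a : Set (Fin 5 × Fin 2)) ⊆
      G.neighborSet (P m e (i, a)) \ {m (P m e (i, a))} := by
  rintro _ ⟨q, hq, rfl⟩
  simp only [D, Finset.coe_filter, Finset.mem_univ, true_and, Set.mem_setOf_eq] at hq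
  refine ⟨hq.2, ?_⟩
  intro h
  rw [Set.mem_singleton_iff, ← P_flip G m hi e i a] at h
  have := P_inj G m hi e hK h
  exact hq.1 (by rw [this])

theorem D_ncard (G : SimpleGraph V) (m : V → V) (hi : Inv G m)
    (e : Fin 5 → V) (hK : K5in G m e) (i : Fin 5) (a : Fin 2) :
    (P m e '' (D G m e i a : Set (Fin 5 × Fin 2))).ncard = (D G m e i a).card := by
  rw [Set.ncard_image_of_injective _ (P_inj G m hi e hK), Set.ncard_coe_finset]

theorem D_le (G : SimpleGraph V) (hd : ∀ x, dg G x ≤ 3) (m : V → V) (hi : Inv G m)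
    (e : Fin 5 → V) (hK : K5in G m e) (i : Fin 5) (a : Fin 2) : (D G m e i a).card ≤ 2 := by
  rw [← D_ncard G m hi e hK i a]
  exact (Set.ncard_le_ncard (D_sub G m hi e hK i a) (Set.toFinite _)).trans
    (Y_card G hd m hi e hK i a)

theorem D_union_ge (G : SimpleGraph V) (m : V → V)
    (e : Fin 5 → V) (hK : K5in G m e) (i : Fin 5) :
    Finset.univ.erase i ⊆ (D G m e i 0 ∪ D G m e i 1).image Prod.fst := by
  intro j hj
  have hji : j ≠ i := (Finset.mem_erase.1 hj).1
  obtain ⟨a, b, ha, hb, hab⟩ := hK.2.2 i j (Ne.symm hji)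
  rw [Finset.mem_image]
  have key : ∃ (a' b' : Fin 2), a = P m e (i, a') ∧ b = P m e (j, b') := by
    rcases ha with rfl | rfl <;> rcases hb with rfl | rfl
    · exact ⟨0, 0, by simp [P], by simp [P]⟩
    · exact ⟨0, 1, by simp [P], by simp [P]⟩
    · exact ⟨1, 0, by simp [P], by simp [P]⟩
    · exact ⟨1, 1, by simp [P], by simp [P]⟩
  obtain ⟨a', b', rfl, rfl⟩ := key
  refine ⟨(j, b'), ?_, rfl⟩
  rw [Finset.mem_union]
  have hh : ∀ a'' : Fin 2, a'' = 0 ∨ a'' = 1 := by decide
  rcases hh a' with rfl | rfl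
  · left
    simp only [D, Finset.mem_filter, Finset.mem_univ, true_and]
    exact ⟨hji, hab⟩
  · right
    simp only [D, Finset.mem_filter, Finset.mem_univ, true_and]
    exact ⟨hji, hab⟩

theorem D_facts (G : SimpleGraph V) (hd : ∀ x, dg G x ≤ 3) (m : V → V) (hi : Inv G m)
    (e : Fin 5 → V) (hK : K5in G m e) (i : Fin 5) :
    (∀ a, (D G m e i a).card = 2) ∧ Disjoint (D G m e i 0) (D G m e i 1) ∧
      Set.InjOn Prod.fst ((D G m e i 0 ∪ D G m e i 1 : Finset (Fin 5 × Fin 2)) :
        Set (Fin 5 × Fin 2)) := by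
  have h0 := D_le G hd m hi e hK i 0
  have h1 := D_le G hd m hi e hK i 1
  have h2 := Finset.card_le_card (D_union_ge G m e hK i)
  have h3 : (Finset.univ.erase i).card = 4 := by
    rw [Finset.card_erase_of_mem (Finset.mem_univ _)]
    simp
  have h4 := Finset.card_image_le (s := D G m e i 0 ∪ D G m e i 1) (f := Prod.fst)
  have h5 := Finset.card_union_add_card_inter (D G m e i 0) (D G m e i 1)
  refine ⟨?_, ?_, ?_⟩
  · intro a
    have hh : ∀ a'' : Fin 2, a'' = 0 ∨ a'' = 1 := by decide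
    rcases hh a with rfl | rfl <;> omega
  · rw [Finset.disjoint_iff_inter_eq_empty, ← Finset.card_eq_zero]
    omega
  · rw [← Finset.card_image_iff]
    omega

theorem uniq (G : SimpleGraph V) (hd : ∀ x, dg G x ≤ 3) (m : V → V) (hi : Inv G m)
    (e : Fin 5 → V) (hK : K5in G m e) (i j : Fin 5) (hij : i ≠ j) (a a' b b' : Fin 2)
    (h : G.Adj (P m e (i, a)) (P m e (j, b))) (h' : G.Adj (P m e (i, a')) (P m e (j, b'))) :
    a = a' ∧ b = b' := by
  obtain ⟨-, hdis, hinj⟩ := D_facts G hd m hi e hK i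
  have hD : ∀ (a b : Fin 2), G.Adj (P m e (i, a)) (P m e (j, b)) → (j, b) ∈ D G m e i a := by
    intro a b h
    simp only [D, Finset.mem_filter, Finset.mem_univ, true_and]
    exact ⟨Ne.symm hij, h⟩
  have hU : ∀ (a b : Fin 2), G.Adj (P m e (i, a)) (P m e (j, b)) →
      (j, b) ∈ D G m e i 0 ∪ D G m e i 1 := by
    intro a b h
    have hh : ∀ a'' : Fin 2, a'' = 0 ∨ a'' = 1 := by decide
    rw [Finset.mem_union]
    rcases hh a with rfl | rfl
    · exact Or.inl (hD _ _ h)
    · exact Or.inr (hD _ _ h)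
  have hb : b = b' := by
    have := hinj (Finset.mem_coe.2 (hU a b h)) (Finset.mem_coe.2 (hU a' b' h')) rfl
    exact (Prod.mk.inj this).2
  subst hb
  refine ⟨?_, rfl⟩
  by_contra hne
  have h1 := hD a b h
  have h2 := hD a' b h'
  rw [Finset.disjoint_left] at hdis
  have hh : ∀ a'' : Fin 2, a'' = 0 ∨ a'' = 1 := by decide
  rcases hh a with rfl | rfl <;> rcases hh a' with rfl | rfl
  · exact hne rfl
  · exact hdis h1 h2
  · exact hdis h2 h1
  · exact hne rfl

theorem clos (G : SimpleGraph V) (hd : ∀ x, dg G x ≤ 3) (m : V → V) (hi : Inv G m)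
    (e : Fin 5 → V) (hK : K5in G m e) (p : Fin 5 × Fin 2) (y : V) (h : G.Adj (P m e p) y) :
    y ∈ Set.range (P m e) := by
  obtain ⟨i, a⟩ := p
  by_cases hy : y = m (P m e (i, a))
  · rw [hy, ← P_flip G m hi e i a]
    exact ⟨_, rfl⟩
  · have h1 := (D_facts G hd m hi e hK i).1 a
    have h2 : P m e '' (D G m e i a : Set (Fin 5 × Fin 2)) =
        G.neighborSet (P m e (i, a)) \ {m (P m e (i, a))} := by
      apply Set.eq_of_subset_of_ncard_le (D_sub G m hi e hK i a) _ (Set.toFinite _)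
      rw [D_ncard G m hi e hK i a, h1]
      exact Y_card G hd m hi e hK i a
    have h3 : y ∈ G.neighborSet (P m e (i, a)) \ {m (P m e (i, a))} := ⟨h, hy⟩
    rw [← h2] at h3
    obtain ⟨q, -, rfl⟩ := h3
    exact ⟨q, rfl⟩

theorem surj (G : SimpleGraph V) (hcon : G.Connected) (hd : ∀ x, dg G x ≤ 3) (m : V → V)
    (hi : Inv G m) (e : Fin 5 → V) (hK : K5in G m e) : Function.Surjective (P m e) := by
  intro v
  obtain ⟨w⟩ := hcon.preconnected (P m e (0, 0)) v
  have key : ∀ (a b : V) (w : G.Walk a b), a ∈ Set.range (P m e) → b ∈ Set.range (P m e) := by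
    intro a b w
    induction w with
    | nil => exact id
    | cons h p ih =>
      rintro ⟨q, rfl⟩
      exact ih (clos G hd m hi e hK q _ h)
  exact key _ _ w ⟨_, rfl⟩

/-- the end of `i` used towards `j` -/
noncomputable def sgm (G : SimpleGraph V) (m : V → V) (e : Fin 5 → V) (i j : Fin 5) : Fin 2 :=
  if h : ∃ a b, G.Adj (P m e (i, a)) (P m e (j, b)) then h.choose else 0

theorem sgm_ex (G : SimpleGraph V) (m : V → V) (e : Fin 5 → V) (hK : K5in G m e) (i j : Fin 5)
    (hij : i ≠ j) : ∃ b, G.Adj (P m e (i, sgm G m e i j)) (P m e (j, b)) := by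
  have h : ∃ a b, G.Adj (P m e (i, a)) (P m e (j, b)) := by
    have hh := D_union_ge G m e hK i (Finset.mem_erase.2 ⟨Ne.symm hij, Finset.mem_univ j⟩)
    rw [Finset.mem_image] at hh
    obtain ⟨⟨j', b⟩, hq, hq2⟩ := hh
    simp only at hq2
    subst hq2
    rw [Finset.mem_union] at hq
    rcases hq with hq | hq
    · exact ⟨0, b, (Finset.mem_filter.1 hq).2.2⟩
    · exact ⟨1, b, (Finset.mem_filter.1 hq).2.2⟩
  unfold sgm
  rw [dif_pos h]
  exact h.choose_spec

theorem sgm_adj (G : SimpleGraph V) (hd : ∀ x, dg G x ≤ 3) (m : V → V) (hi : Inv G m)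
    (e : Fin 5 → V) (hK : K5in G m e) (i j : Fin 5)
    (hij : i ≠ j) : G.Adj (P m e (i, sgm G m e i j)) (P m e (j, sgm G m e j i)) := by
  obtain ⟨b, hb⟩ := sgm_ex G m e hK i j hij
  obtain ⟨a, ha⟩ := sgm_ex G m e hK j i (Ne.symm hij)
  have := (uniq G hd m hi e hK i j hij _ _ _ _ hb ha.symm).2
  rwa [this] at hb

end T32

/-- T32 -/
theorem k5_coord (G : SimpleGraph V) (hcon : G.Connected) (hd : ∀ x, dg G x ≤ 3) (m : V → V)
    (hi : Inv G m) (e : Fin 5 → V) (hK : K5in G m e) :
    ∃ (x : Fin 5 × Fin 2 ≃ V) (σ : Fin 5 → Fin 5 → Fin 2),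
      (∀ i, (Finset.univ.filter (fun j => j ≠ i ∧ σ i j = 0)).card = 2) ∧
      ∀ p q, G.Adj (x p) (x q) ↔ (p.1 = q.1 ∧ p.2 ≠ q.2) ∨
        (p.1 ≠ q.1 ∧ p.2 = σ p.1 q.1 ∧ q.2 = σ q.1 p.1) := by
  refine ⟨Equiv.ofBijective (T32.P m e) ⟨T32.P_inj G m hi e hK, T32.surj G hcon hd m hi e hK⟩,
    T32.sgm G m e, ?_, ?_⟩
  · intro i
    refine Eq.trans ?_ ((T32.D_facts G hd m hi e hK i).1 0)
    symm
    apply Finset.card_bij (fun q _ => q.1)
    · rintro ⟨j, b⟩ hq
      simp only [T32.D, Finset.mem_filter, Finset.mem_univ, true_and] at hq ⊢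
      refine ⟨hq.1, ?_⟩
      have h1 := T32.sgm_adj G hd m hi e hK i j (Ne.symm hq.1)
      exact (T32.uniq G hd m hi e hK i j (Ne.symm hq.1) _ _ _ _ h1 hq.2).1
    · rintro ⟨j, b⟩ hq ⟨j', b'⟩ hq' h
      simp only at h
      subst h
      simp only [T32.D, Finset.mem_filter, Finset.mem_univ, true_and] at hq hq'
      rw [(T32.uniq G hd m hi e hK i j (Ne.symm hq.1) _ _ _ _ hq.2 hq'.2).2]
    · intro j hj
      simp only [Finset.mem_filter, Finset.mem_univ, true_and] at hj
      have h1 := T32.sgm_adj G hd m hi e hK i j (Ne.symm hj.1)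
      rw [hj.2] at h1
      refine ⟨(j, T32.sgm G m e j i), ?_, rfl⟩
      simp only [T32.D, Finset.mem_filter, Finset.mem_univ, true_and]
      exact ⟨hj.1, h1⟩
  · rintro ⟨i, a⟩ ⟨j, b⟩
    show G.Adj (T32.P m e (i, a)) (T32.P m e (j, b)) ↔ _
    by_cases hij : i = j
    · subst hij
      simp only [true_and, ne_eq, not_true_eq_false, false_and, or_false]
      constructor
      · intro h hab
        subst hab
        exact G.loopless.irrefl _ h
      · intro hab
        have hb : b = a + 1 := by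
          revert hab
          revert a b
          decide
        rw [hb, T32.P_flip G m hi e i a]
        exact hi.adj _ (T32.P_ne G m hi e hK _)
    · simp only [hij, false_and, ne_eq, not_false_eq_true, true_and, false_or]
      have h1 := T32.sgm_adj G hd m hi e hK i j hij
      constructor
      · intro h
        exact T32.uniq G hd m hi e hK i j hij _ _ _ _ h h1
      · rintro ⟨rfl, rfl⟩
        exact h1

end Pool.Agent.H416R4.PK
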