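import Pool.Agent.H416R4.PK.Defs

/-!
# T33: normal form of the splittings of K5
-/

set_option autoImplicit false

namespace Pool.Agent.H416R4.PK
namespace T33

theorem aux : ∀ i : Fin 5, ∀ s : Fin 5 → Fin 2,
    (Finset.univ.filter (fun j => j ≠ i ∧ s j = 0)).card = 2 →
    ∃ ch : Fin 3, ∃ t : Fin 2, ∀ j, j ≠ i →
      s j = t + (if (if j.val < i.val then j.val else j.val - 1) = 0 ∨
        (if j.val < i.val then j.val else j.val - 1) = 1 + ch.val then 0 else 1) := by
  decide

end T33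

open Classical

/-- T33 -/
theorem k5_norm (σ : Fin 5 → Fin 5 → Fin 2)
    (h : ∀ i, (Finset.univ.filter (fun j => j ≠ i ∧ σ i j = 0)).card = 2) :
    ∃ (ch : Fin 5 → Fin 3) (t : Fin 5 → Fin 2), ∀ i j, j ≠ i → σ i j = t i + sg ch i j := by
  have key : ∀ i, ∃ ch : Fin 3, ∃ t : Fin 2, ∀ j, j ≠ i →
      σ i j = t + (if pos5 i j = 0 ∨ pos5 i j = 1 + ch.val then 0 else 1) := by
    intro i
    have h0 : (Finset.univ.filter (fun j => j ≠ i ∧ σ i j = 0)).card = 2 := h i
    have h1 := T33.aux i (σ i) (by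
      refine Eq.trans ?_ h0
      congr!)
    obtain ⟨ch, t, hh⟩ := h1
    refine ⟨ch, t, fun j hj => ?_⟩
    have := hh j hj
    rw [this]
    unfold pos5
    congr!
  choose ch t hct using key
  refine ⟨ch, t, fun i j hij => ?_⟩
  rw [hct i j hij]
  unfold sg
  congr!

end Pool.Agent.H416R4.PK
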