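import Pool.Agent.H416R4.PK.Defs

set_option autoImplicit false
open Classical

namespace Pool.Agent.H416R4.PK

namespace T35

theorem fin2 {a b c : Fin 2} (h1 : a ≠ b) (h2 : b ≠ c) : a = c := by
  revert a b c; decide

/-- the relation on coordinates -/
def R (σ : Fin 5 → Fin 5 → Fin 2) (p q : Fin 5 × Fin 2) : Prop :=
  (p.1 = q.1 ∧ p.2 ≠ q.2) ∨ (p.1 ≠ q.1 ∧ p.2 = σ p.1 q.1 ∧ q.2 = σ q.1 p.1)

theorem sig {σ σ' : Fin 5 → Fin 5 → Fin 2} {t : Fin 5 → Fin 2}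
    (hσ : ∀ i j, j ≠ i → σ i j = t i + σ' i j) {i h k : Fin 5} (hh : h ≠ i) (hk : k ≠ i)
    (he : σ i h = σ i k) : σ' i h = σ' i k := by
  rw [hσ i h hh, hσ i k hk] at he
  exact add_left_cancel he

theorem proper {σ σ' : Fin 5 → Fin 5 → Fin 2} {t : Fin 5 → Fin 2}
    (hσ : ∀ i j, j ≠ i → σ i j = t i + σ' i j) {c : Fin 5 → Fin 5 → Fin 6} (hc : K5ok σ' c)
    {p q q' : Fin 5 × Fin 2} (h1 : R σ p q) (h2 : R σ p q') (hne : q ≠ q') :
    c p.1 q.1 ≠ c p.1 q'.1 := by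
  obtain ⟨c1, c2, c3, c4, c5, c6⟩ := hc
  obtain ⟨i, s⟩ := p
  obtain ⟨j, u⟩ := q
  obtain ⟨k, v⟩ := q'
  rcases h1 with ⟨h1, h1'⟩ | ⟨h1, h1', h1''⟩ <;> rcases h2 with ⟨h2, h2'⟩ | ⟨h2, h2', h2''⟩ <;>
    simp only at h1 h1' h2 h2' ⊢
  · exact absurd (Prod.ext (h1.symm.trans h2) (fin2 (Ne.symm h1') h2')) hne
  · rw [← h1]
    exact c2 i k h2
  · rw [← h2]
    exact fun h => c2 i j h1 h.symm
  · simp only at h1'' h2''
    intro h
    by_cases hjk : j = k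
    · subst hjk
      exact hne (Prod.ext rfl (h1''.trans h2''.symm))
    · exact (c3 i j k (Ne.symm h1) (Ne.symm h2) hjk h).2
        (sig hσ (Ne.symm h1) (Ne.symm h2) (h1'.symm.trans h2'))

theorem path {σ σ' : Fin 5 → Fin 5 → Fin 2} {t : Fin 5 → Fin 2}
    (hσ : ∀ i j, j ≠ i → σ i j = t i + σ' i j) {c : Fin 5 → Fin 5 → Fin 6} (hc : K5ok σ' c)
    {p q r s : Fin 5 × Fin 2} (h1 : R σ p q) (h2 : R σ q r) (h3 : R σ r s) (hpr : p ≠ r)
    (hqs : q ≠ s) (hv : 2 ≤ (c p.1 q.1).val) : c p.1 q.1 ≠ c r.1 s.1 := by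
  obtain ⟨c1, c2, c3, c4, c5, c6⟩ := hc
  obtain ⟨h, p2⟩ := p
  obtain ⟨i, q2⟩ := q
  obtain ⟨j, r2⟩ := r
  obtain ⟨k, s2⟩ := s
  intro he
  rcases h1 with ⟨h1, h1'⟩ | ⟨h1, h1', h1''⟩ <;> rcases h2 with ⟨h2, h2'⟩ | ⟨h2, h2', h2''⟩ <;>
    rcases h3 with ⟨h3, h3'⟩ | ⟨h3, h3', h3''⟩ <;> simp only at h1 h1' h2 h2' h3 h3' he hv
  · exact hpr (Prod.ext (h1.trans h2) (fin2 h1' h2'))
  · exact hpr (Prod.ext (h1.trans h2) (fin2 h1' h2'))
  · -- M X M
    subst h1; subst h3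
    have := c4 h j h2 he
    omega
  · -- M X X
    simp only at h2'' h3''
    subst h1
    have hkh : k ≠ h := by
      rintro rfl
      exact hqs (Prod.ext rfl (h2'.trans h3''.symm))
    have := c5 h j k (Ne.symm h2) (Ne.symm h3) hkh
      (sig hσ (Ne.symm h3) h2 (h3'.symm.trans h2'')) he
    omega
  · -- X M M
    exact hqs (Prod.ext (h2.trans h3) (fin2 h2' h3'))
  · -- X M X
    simp only at h1'' h3''
    subst h2
    have hhk : h ≠ k := by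
      rintro rfl
      exact h2' (h1''.trans h3'.symm)
    have := c3 i h k h1 (Ne.symm h3) hhk ((c1 i h).trans he)
    rw [c1 h i] at hv
    omega
  · -- X X M
    simp only at h1'' h2''
    subst h3
    have hhj : h ≠ j := by
      rintro rfl
      exact hpr (Prod.ext rfl (h1'.trans h2''.symm))
    have := c5 j i h h2 h1 hhj (sig hσ h1 (Ne.symm h2) (h1''.symm.trans h2'))
      (he.symm.trans (c1 h i))
    rw [← he] at this
    omega
  · -- X X X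
    simp only at h1'' h2'' h3''
    have hhj : h ≠ j := by
      rintro rfl
      exact hpr (Prod.ext rfl (h1'.trans h2''.symm))
    have hki : k ≠ i := by
      rintro rfl
      exact hqs (Prod.ext rfl (h2'.trans h3''.symm))
    have := c6 h i j k h1 (Ne.symm h2) hhj (Ne.symm h3) hki
      (sig hσ h1 (Ne.symm h2) (h1''.symm.trans h2'))
      (sig hσ (Ne.symm h3) h2 (h3'.symm.trans h2'')) he
    omega

end T35

variable {V : Type*} [Fintype V]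

/-- T35 -/
theorem k5_lift (G : SimpleGraph V) (x : Fin 5 × Fin 2 ≃ V) (σ σ' : Fin 5 → Fin 5 → Fin 2)
    (t : Fin 5 → Fin 2) (hσ : ∀ i j, j ≠ i → σ i j = t i + σ' i j)
    (hG : ∀ p q, G.Adj (x p) (x q) ↔ (p.1 = q.1 ∧ p.2 ≠ q.2) ∨
        (p.1 ≠ q.1 ∧ p.2 = σ p.1 q.1 ∧ q.2 = σ q.1 p.1))
    (c : Fin 5 → Fin 5 → Fin 6) (hc : K5ok σ' c) :
    LP G (fun a b => c (x.symm a).1 (x.symm b).1) := by
  have hR : ∀ a b, G.Adj a b → T35.R σ (x.symm a) (x.symm b) := by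
    intro a b hab
    have := (hG (x.symm a) (x.symm b)).1 (by simpa using hab)
    exact this
  refine ⟨fun a b _ => hc.1 _ _, ?_, ?_⟩
  · intro a b b' h1 h2 hne
    exact T35.proper hσ hc (hR _ _ h1) (hR _ _ h2) (fun h => hne (x.symm.injective h))
  · intro a b y z h1 h2 h3 h4 h5 hv
    exact T35.path hσ hc (hR _ _ h1) (hR _ _ h2) (hR _ _ h3) (fun h => h4 (x.symm.injective h))
      (fun h => h5 (x.symm.injective h)) hv

end Pool.Agent.H416R4.PK
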