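import Pool.Agent.H416R4.PK.Defs

set_option autoImplicit false
open Classical

namespace Pool.Agent.H416R4.PK

variable {V : Type*} [Fintype V]

theorem T36.aux (G : SimpleGraph V) (hd : ∀ x, dg G x ≤ 3) (vv : V → V) (U : Set V)
    (hadj : ∀ u ∈ U, G.Adj u (vv u)) (g : V → V → Fin 6) (v : V)
    (hv : PW (gc G U vv) g v) :
    ∃ f : V → Fin 6, (∀ u ∈ U, vv u = v → (f u).val < 2) ∧
      (∀ u ∈ U, ∀ w ∈ U, vv u = v → vv w = v → u ≠ w → f u ≠ f w) ∧
      ∀ u ∈ U, vv u = v → ∀ y, (gc G U vv).Adj v y → g v y ≠ f u := by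
  obtain ⟨w, hw1, hw2, hw3⟩ := hv
  set B : Set V := {u | u ∈ U ∧ vv u = v} with hB
  set N : Set V := {y | (gc G U vv).Adj v y ∧ y ≠ w} with hN
  set T : Set (Fin 6) := {i : Fin 6 | i.val < 2} \ (g v '' N) with hT
  have nB : ∀ y, (gc G U vv).Adj v y → y ∉ B := by
    intro y hy hyB
    exact hy.2.2 ⟨hyB.1, hyB.2.symm⟩
  have c1 : B.ncard + (N.ncard + 1) ≤ 3 := by
    have e1 : (insert w N).ncard = N.ncard + 1 :=
      Set.ncard_insert_of_notMem (fun h => h.2 rfl) (Set.toFinite _)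
    have e2 : Disjoint B (insert w N) := by
      rw [Set.disjoint_right]
      intro y hy
      rcases Set.mem_insert_iff.1 hy with rfl | hy
      · exact nB _ hw1
      · exact nB _ hy.1
    have e3 : B ∪ insert w N ⊆ G.neighborSet v := by
      intro y hy
      rw [SimpleGraph.mem_neighborSet]
      rcases hy with hy | hy
      · have := hadj y hy.1
        rw [hy.2] at this
        exact this.symm
      · rcases Set.mem_insert_iff.1 hy with rfl | hy
        · exact hw1.1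
        · exact hy.1.1
    have e4 := Set.ncard_le_ncard e3 (Set.toFinite _)
    rw [Set.ncard_union_eq e2 (Set.toFinite _) (Set.toFinite _), e1] at e4
    exact e4.trans (hd v)
  have c2 : ({i : Fin 6 | i.val < 2}).ncard = 2 := by
    have : {i : Fin 6 | i.val < 2} = {0, 1} := by
      ext i
      fin_cases i <;> simp
    rw [this]
    exact Set.ncard_pair (by decide)
  have c3 : 2 - N.ncard ≤ T.ncard := by
    have h1 := Set.le_ncard_sdiff (g v '' N) {i : Fin 6 | i.val < 2} (Set.toFinite _)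
    have h2 := Set.ncard_image_le (f := g v) (Set.toFinite N)
    rw [c2, ← hT] at h1
    omega
  have c4 : B.encard ≤ T.encard := by
    rw [← (Set.toFinite B).cast_ncard_eq, ← (Set.toFinite T).cast_ncard_eq]
    have : B.ncard ≤ T.ncard := by omega
    exact_mod_cast this
  obtain ⟨f, hf1, hf2⟩ := (Set.toFinite B).exists_injOn_of_encard_le c4
  refine ⟨f, fun u hu huv => (hf1 ⟨hu, huv⟩).1, fun u hu u' hu' huv huv' hne heq =>
    hne (hf2 ⟨hu, huv⟩ ⟨hu', huv'⟩ heq), fun u hu huv y hy heq => ?_⟩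
  have h3 : f u ∈ T := hf1 ⟨hu, huv⟩
  by_cases hyw : y = w
  · subst hyw
    rw [heq] at hw2
    have h4 : (f u).val < 2 := h3.1
    omega
  · exact h3.2 ⟨y, ⟨hy, hyw⟩, heq⟩

/-- T36 -/
theorem glue_bc (G : SimpleGraph V) (hd : ∀ x, dg G x ≤ 3) (m vv : V → V) (U : Set V)
    (K : V → Set V) (hS : Str G m vv U K) (g : V → V → Fin 6)
    (hPW : ∀ u ∈ U, PW (gc G U vv) g (vv u)) :
    ∃ bc : V → Fin 6, (∀ u ∈ U, (bc u).val < 2) ∧
      (∀ u ∈ U, ∀ w ∈ U, u ≠ w → vv u = vv w → bc u ≠ bc w) ∧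
      (∀ u ∈ U, ∀ y, (gc G U vv).Adj (vv u) y → g (vv u) y ≠ bc u) := by
  have key : ∀ v : V, ∃ f : V → Fin 6, PW (gc G U vv) g v → (∀ u ∈ U, vv u = v → (f u).val < 2) ∧
      (∀ u ∈ U, ∀ w ∈ U, vv u = v → vv w = v → u ≠ w → f u ≠ f w) ∧
      ∀ u ∈ U, vv u = v → ∀ y, (gc G U vv).Adj v y → g v y ≠ f u := by
    intro v
    by_cases hv : PW (gc G U vv) g v
    · obtain ⟨f, hf⟩ := T36.aux G hd vv U hS.adjv g v hv
      exact ⟨f, fun _ => hf⟩
    · exact ⟨fun _ => 0, fun h => absurd h hv⟩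
  choose f hf using key
  refine ⟨fun u => f (vv u) u, fun u hu => (hf _ (hPW u hu)).1 u hu rfl,
    fun u hu w hw hne hvv => ?_, fun u hu y hy => (hf _ (hPW u hu)).2.2 u hu rfl y hy⟩
  have := (hf _ (hPW u hu)).2.1 u hu w hw rfl hvv.symm hne
  show f (vv u) u ≠ f (vv w) w
  rw [← hvv]
  exact this

end Pool.Agent.H416R4.PK
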