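import Pool.Agent.H416R4.PK.Defs
import Pool.Agent.H416R4.PK.T36

set_option autoImplicit false
open Classical

namespace Pool.Agent.H416R4.PK

variable {V : Type*} [Fintype V]

namespace T37

/-- explicit permutation of the colours: `s` swaps `0, 1`, and `t` moves `γ` -/
def pf (s t : Bool) (γ x : Fin 6) : Fin 6 :=
  if x.val < 2 then (if s = true then (if x = 0 then 1 else 0) else x)
  else if t = true then
    (if x = γ then (if γ = 2 then 3 else 2) else if x = (if γ = 2 then 3 else 2) then γ else x)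
  else x

theorem pf_inj : ∀ (s t : Bool) (γ x y : Fin 6), 2 ≤ γ.val → pf s t γ x = pf s t γ y →
    x = y := by decide

theorem pf_lt : ∀ (s t : Bool) (γ x : Fin 6), 2 ≤ γ.val → ((pf s t γ x).val < 2 ↔ x.val < 2) := by
  decide

theorem pf_s : ∀ (t : Bool) (γ b : Fin 6), b.val < 2 → pf true t γ b ≠ b := by decide

theorem pf_s' : ∀ (t : Bool) (γ b : Fin 6), b.val < 2 → pf false t γ b = b := by decide

theorem pf_t : ∀ (s : Bool) (γ : Fin 6), 2 ≤ γ.val → pf s true γ γ ≠ γ := by decide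

theorem pf_t' : ∀ (s : Bool) (γ x : Fin 6), 2 ≤ x.val → pf s false γ x = x := by decide

theorem exists_pi (H : SimpleGraph V) (g : V → V → Fin 6) (u : V) (hPU : PU H g u)
    (b γ : Fin 6) (hb : b.val < 2) (hγ : 2 ≤ γ.val) :
    ∃ π : Fin 6 → Fin 6, Function.Injective π ∧ (∀ x, (π x).val < 2 ↔ x.val < 2) ∧
      (∀ y, H.Adj u y → (g u y).val < 2 → π (g u y) ≠ b) ∧
      (∀ y, H.Adj u y → 2 ≤ (g u y).val → π (g u y) ≠ γ) := by
  obtain ⟨h1, h2⟩ := hPU
  obtain ⟨a, ha⟩ : ∃ a, ∀ y, H.Adj u y → (g u y).val < 2 → g u y = a := by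
    by_cases h : ∃ y, H.Adj u y ∧ (g u y).val < 2
    · obtain ⟨y0, hy0, hy0'⟩ := h
      exact ⟨g u y0, fun y hy hy' => by rw [h1 y y0 hy hy0 hy' hy0']⟩
    · exact ⟨0, fun y hy hy' => absurd ⟨y, hy, hy'⟩ h⟩
  obtain ⟨d, hd⟩ : ∃ d, ∀ y, H.Adj u y → 2 ≤ (g u y).val → g u y = d := by
    by_cases h : ∃ y, H.Adj u y ∧ 2 ≤ (g u y).val
    · obtain ⟨y0, hy0, hy0'⟩ := h
      exact ⟨g u y0, fun y hy hy' => by rw [h2 y y0 hy hy0 hy' hy0']⟩
    · exact ⟨0, fun y hy hy' => absurd ⟨y, hy, hy'⟩ h⟩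
  refine ⟨pf (decide (a = b)) (decide (d = γ)) γ, fun x y h => pf_inj _ _ _ _ _ hγ h,
    fun x => pf_lt _ _ _ _ hγ, ?_, ?_⟩
  · intro y hy hy'
    have e := ha y hy hy'
    by_cases hab : a = b
    · rw [e, hab, decide_eq_true rfl]
      exact pf_s _ _ _ hb
    · rw [decide_eq_false hab, pf_s' _ _ _ hy', e]
      exact hab
  · intro y hy hy'
    have e := hd y hy hy'
    by_cases hab : d = γ
    · rw [e, hab, decide_eq_true rfl]
      exact pf_t _ _ hγ
    · rw [decide_eq_false hab, pf_t' _ _ _ hy', e]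
      exact hab

end T37

/-- T37 -/
theorem glue (G : SimpleGraph V) (hd : ∀ x, dg G x ≤ 3) (m vv : V → V) (U : Set V)
    (K : V → Set V) (hS : Str G m vv U K) (g : V → V → Fin 6) (hg : LP (gc G U vv) g)
    (hPU : ∀ u ∈ U, PU (gc G U vv) g u) (hPW : ∀ u ∈ U, PW (gc G U vv) g (vv u)) :
    ∃ c, LP G c := by
  obtain ⟨bc, B1, B2, B3⟩ := glue_bc G hd m vv U K hS g hPW
  -- the colour `γ u`
  have hγ : ∀ u, ∃ γ : Fin 6, 2 ≤ γ.val ∧ (u ∈ U → ∀ y, (gc G U vv).Adj (vv u) y →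
      2 ≤ (g (vv u) y).val → g (vv u) y = γ) := by
    intro u
    by_cases hu : u ∈ U
    · obtain ⟨w, hw1, hw2, hw3⟩ := hPW u hu
      refine ⟨g (vv u) w, hw2, fun _ y hy hy' => ?_⟩
      by_cases hyw : y = w
      · rw [hyw]
      · have := hw3 y hy hyw; omega
    · exact ⟨2, by decide, fun h => absurd h hu⟩
  choose γ hγ1 hγ2 using hγ
  have hπ : ∀ u, ∃ π : Fin 6 → Fin 6, u ∈ U → (Function.Injective π ∧
      (∀ x, (π x).val < 2 ↔ x.val < 2) ∧
      (∀ y, (gc G U vv).Adj u y → (g u y).val < 2 → π (g u y) ≠ bc u) ∧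
      (∀ y, (gc G U vv).Adj u y → 2 ≤ (g u y).val → π (g u y) ≠ γ u)) := by
    intro u
    by_cases hu : u ∈ U
    · obtain ⟨π, h⟩ := T37.exists_pi (gc G U vv) g u (hPU u hu) (bc u) (γ u) (B1 u hu) (hγ1 u)
      exact ⟨π, fun _ => h⟩
    · exact ⟨id, fun h => absurd h hu⟩
  choose π hπ using hπ
  obtain ⟨P, hP1, hP2⟩ : ∃ P : V → Fin 6 → Fin 6, (∀ a, ∀ u ∈ U, a ∈ K u → P a = π u) ∧
      (∀ a, (∀ u ∈ U, a ∉ K u) → P a = id) := by
    refine ⟨fun a => if h : ∃ u, u ∈ U ∧ a ∈ K u then π (Classical.choose h) else id, ?_, ?_⟩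
    · intro a u hu ha
      have h : ∃ u, u ∈ U ∧ a ∈ K u := ⟨u, hu, ha⟩
      simp only [dif_pos h]
      obtain ⟨h1, h2⟩ := Classical.choose_spec h
      by_cases h3 : Classical.choose h = u
      · rw [h3]
      · exact absurd ha (Set.disjoint_left.1 (hS.disj _ h1 u hu h3) h2)
    · intro a ha
      have h : ¬ ∃ u, u ∈ U ∧ a ∈ K u := fun ⟨u, hu, hau⟩ => ha u hu hau
      simp only [dif_neg h]
  have hPinj : ∀ a, Function.Injective (P a) := by
    intro a
    by_cases h : ∃ u ∈ U, a ∈ K u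
    · obtain ⟨u, hu, ha⟩ := h
      rw [hP1 a u hu ha]; exact (hπ u hu).1
    · push Not at h
      rw [hP2 a h]; exact Function.injective_id
  have hPlt : ∀ a x, (P a x).val < 2 ↔ x.val < 2 := by
    intro a x
    by_cases h : ∃ u ∈ U, a ∈ K u
    · obtain ⟨u, hu, ha⟩ := h
      rw [hP1 a u hu ha]; exact (hπ u hu).2.1 x
    · push Not at h
      rw [hP2 a h]; rfl
  have hPu : ∀ u ∈ U, P u = π u := fun u hu => hP1 u u hu (hS.mem u hu)
  have hPv : ∀ u ∈ U, P (vv u) = id := fun u hu => hP2 _ fun w hw => hS.out u hu w hw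
  have hvU : ∀ u ∈ U, vv u ∉ U := fun u hu h => hS.out u hu _ h (hS.mem _ h)
  have step : ∀ a b, (gc G U vv).Adj a b → ∀ u ∈ U, a ∈ K u → b ∈ K u := by
    intro a b hab u hu ha
    by_contra hb
    obtain ⟨h1, h2⟩ := hS.cut u hu a ha b hb hab.1
    subst h1
    exact hab.2.1 ⟨hu, h2⟩
  have hPe : ∀ a b, (gc G U vv).Adj a b → P a = P b := by
    intro a b hab
    by_cases h : ∃ u ∈ U, a ∈ K u
    · obtain ⟨u, hu, ha⟩ := h
      rw [hP1 a u hu ha, hP1 b u hu (step a b hab u hu ha)]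
    · push Not at h
      rw [hP2 a h, hP2 b fun u hu hb => h u hu (step b a hab.symm u hu hb)]
  set c : V → V → Fin 6 := fun a b => if a ∈ U ∧ b = vv a then bc a
    else if b ∈ U ∧ a = vv b then bc b else P a (g a b) with hc
  have c1 : ∀ u ∈ U, c u (vv u) = bc u := by
    intro u hu
    simp only [hc]
    rw [if_pos ⟨hu, trivial⟩]
  have c2 : ∀ u ∈ U, c (vv u) u = bc u := by
    intro u hu
    simp only [hc]
    rw [if_neg (fun h => hvU u hu h.1), if_pos ⟨hu, trivial⟩]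
  have c3 : ∀ a b, (gc G U vv).Adj a b → c a b = P a (g a b) := by
    intro a b hab
    simp only [hc]
    rw [if_neg hab.2.1, if_neg hab.2.2]
  have tri : ∀ a b, G.Adj a b → (a ∈ U ∧ b = vv a) ∨ (b ∈ U ∧ a = vv b) ∨
      (gc G U vv).Adj a b := by
    intro a b hab
    by_cases h1 : a ∈ U ∧ b = vv a
    · exact Or.inl h1
    · by_cases h2 : b ∈ U ∧ a = vv b
      · exact Or.inr (Or.inl h2)
      · exact Or.inr (Or.inr ⟨hab, h1, h2⟩)
  obtain ⟨g1, g2, g3⟩ := hg
  -- a bridge and another edge at the same vertex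
  have mix : ∀ a b b', ((a ∈ U ∧ b = vv a) ∨ (b ∈ U ∧ a = vv b)) → (gc G U vv).Adj a b' →
      c a b ≠ c a b' := by
    rintro a b b' (⟨ha, rfl⟩ | ⟨hb, rfl⟩) h'
    · rw [c1 a ha, c3 a b' h', hPu a ha]
      by_cases hlt : (g a b').val < 2
      · exact ((hπ a ha).2.2.1 b' h' hlt).symm
      · intro h
        have h4 := B1 a ha
        rw [h] at h4
        exact hlt (((hπ a ha).2.1 _).1 h4)
    · rw [c2 b hb, c3 _ b' h', hPv b hb]
      exact (B3 b hb b' h').symm
  refine ⟨c, ?_, ?_, ?_⟩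
  · intro a b hab
    rcases tri a b hab with ⟨ha, rfl⟩ | ⟨hb, rfl⟩ | h
    · rw [c1 a ha, c2 a ha]
    · rw [c1 b hb, c2 b hb]
    · rw [c3 a b h, c3 b a h.symm, hPe a b h, g1 a b h]
  · intro a b b' hab hab' hbb
    rcases tri a b hab with h | h | h
    · rcases tri a b' hab' with h' | h' | h'
      · exact absurd (h.2.trans h'.2.symm) hbb
      · obtain ⟨ha, rfl⟩ := h
        obtain ⟨hb', e⟩ := h'
        rw [e] at ha
        exact absurd ha (hvU b' hb')
      · exact mix a b b' (Or.inl h) h'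
    · rcases tri a b' hab' with h' | h' | h'
      · obtain ⟨ha, e'⟩ := h'
        obtain ⟨hb, e⟩ := h
        rw [e] at ha
        exact absurd ha (hvU b hb)
      · obtain ⟨hb, rfl⟩ := h
        obtain ⟨hb', e⟩ := h'
        have h5 := c2 b hb
        have h6 := c2 b' hb'
        rw [← e] at h6
        rw [h5, h6]
        exact B2 b hb b' hb' hbb e
      · exact mix a b b' (Or.inr h) h'
    · rcases tri a b' hab' with h' | h' | h'
      · exact (mix a b' b (Or.inl h') h).symm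
      · exact (mix a b' b (Or.inr h') h).symm
      · rw [c3 a b h, c3 a b' h']
        exact fun e => g2 a b b' h h' hbb (hPinj a e)
  · intro a b x y hab hbx hxy hax hby h2 heq
    -- `ab` is not a bridge
    have hab' : (gc G U vv).Adj a b := by
      rcases tri a b hab with ⟨ha, rfl⟩ | ⟨hb, rfl⟩ | h
      · rw [c1 a ha] at h2
        have := B1 a ha; omega
      · rw [c2 b hb] at h2
        have := B1 b hb; omega
      · exact h
    have hxy' : (gc G U vv).Adj x y := by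
      rw [heq] at h2
      rcases tri x y hxy with ⟨ha, rfl⟩ | ⟨hb, rfl⟩ | h
      · rw [c1 x ha] at h2
        have := B1 x ha; omega
      · rw [c2 y hb] at h2
        have := B1 y hb; omega
      · exact h
    have e1 : c a b = P b (g b a) := by rw [c3 a b hab', hPe a b hab', g1 a b hab']
    have e2 : c x y = P x (g x y) := c3 x y hxy'
    have l1 : 2 ≤ (g b a).val := by
      by_contra h
      have h3 := (hPlt b (g b a)).2 (by omega)
      rw [← e1] at h3
      omega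
    have l2 : 2 ≤ (g x y).val := by
      by_contra h
      have h3 := (hPlt x (g x y)).2 (by omega)
      rw [← e2, ← heq] at h3
      omega
    rcases tri b x hbx with ⟨hb, rfl⟩ | ⟨hx, rfl⟩ | h
    · rw [e1, e2, hPu b hb, hPv b hb] at heq
      have h4 := hγ2 b hb y hxy' l2
      exact (hπ b hb).2.2.2 a hab'.symm l1 (heq.trans h4)
    · rw [e1, e2, hPu x hx, hPv x hx] at heq
      have h4 := hγ2 x hx a hab'.symm l1
      exact (hπ x hx).2.2.2 y hxy' l2 (heq.symm.trans h4)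
    · rw [e1, e2, hPe b x h] at heq
      have h4 := hPinj x heq
      have h5 : g a b = g x y := by rw [g1 a b hab', h4]
      exact g3 a b x y hab' h hxy' hax hby (by rw [g1 a b hab']; exact l1) h5

end Pool.Agent.H416R4.PK
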