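import Pool.Agent.H416R4.PK.Defs

/-! # T38: setup -/

set_option autoImplicit false
open Classical

namespace Pool.Agent.H416R4.PK

variable {V : Type*} [Fintype V]

namespace T38

theorem dg_le_of_sub (G H : SimpleGraph V) (x : V) (S : Set V)
    (h : H.neighborSet x ⊆ G.neighborSet x \ S) (hS : S ⊆ G.neighborSet x) :
    dg H x + S.ncard ≤ dg G x := by
  unfold dg
  have h1 := Set.ncard_le_ncard h (Set.toFinite _)
  have h2 := Set.ncard_sdiff_add_ncard_of_subset hS (Set.toFinite _)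
  omega

theorem closed_reach (H : SimpleGraph V) (S : Set V) (hS : ∀ x ∈ S, ∀ y, H.Adj x y → y ∈ S)
    {x y : V} (h : H.Reachable x y) (hx : x ∈ S) : y ∈ S := by
  obtain ⟨p⟩ := h
  induction p with
  | nil => exact hx
  | cons hadj _ ih => exact ih (hS _ hx _ hadj)

theorem inv0 (G : SimpleGraph V) (m0 vv : V → V) (U : Set V)
    (K : V → Set V) (hS : Str G m0 vv U K) : Inv (gc G U vv) m0 := by
  refine ⟨hS.inv, ?_⟩
  intro x hx
  refine ⟨hS.adj x hx, ?_, ?_⟩
  · rintro ⟨h1, -⟩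
    exact hx (hS.fixU x h1)
  · rintro ⟨h1, -⟩
    have h2 := hS.fixU _ h1
    rw [hS.inv x] at h2
    exact hx h2.symm

theorem K_closed (G : SimpleGraph V) (m0 vv : V → V) (U : Set V)
    (K : V → Set V) (hS : Str G m0 vv U K) (u : V) (hu : u ∈ U) :
    ∀ x ∈ K u, ∀ y, (gc G U vv).Adj x y → y ∈ K u := by
  intro x hx y hxy
  by_contra hy
  obtain ⟨h1, h2⟩ := hS.cut u hu x hx y hy hxy.1
  refine hxy.2.1 ⟨?_, ?_⟩
  · rw [h1]; exact hu
  · rw [h1]; exact h2

end T38

open T38

/-- T38 -/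
theorem setup (G : SimpleGraph V) (hd : ∀ x, dg G x ≤ 3) (m0 vv : V → V) (U : Set V)
    (K : V → Set V) (hS : Str G m0 vv U K) :
    ∃ m : V → V, Mini (gc G U vv) m ∧ Core (gc G U vv) m U ∧ (∀ x, m x = x ↔ m0 x = x) ∧
      ∀ u ∈ U, m (vv u) ≠ vv u ∧ dg (rm (gc G U vv) m) (vv u) ≤ 1 ∧
        ∀ w ∈ U, ¬ (gc G U vv).Reachable (vv u) w := by
  -- the choice of `m`
  have hex : ∃ k : ℕ, ∃ m : V → V, Inv (gc G U vv) m ∧ (∀ x, m x = x ↔ m0 x = x) ∧
      Nat.card (rm (gc G U vv) m).ConnectedComponent = k :=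
    ⟨_, m0, inv0 G m0 vv U K hS, fun x => Iff.rfl, rfl⟩
  obtain ⟨m, hm1, hm2, hm3⟩ := Nat.find_spec hex
  have hmini : Mini (gc G U vv) m := by
    intro m' h1 h2
    rw [hm3]
    exact Nat.find_min' hex ⟨m', h1, fun x => (h2 x).trans (hm2 x), rfl⟩
  have hsub : ∀ x, dg (gc G U vv) x ≤ dg G x := by
    intro x
    unfold dg
    exact Set.ncard_le_ncard (fun y hy => hy.1) (Set.toFinite _)
  have hfixU : ∀ u ∈ U, m u = u := fun u hu => (hm2 u).mpr (hS.fixU u hu)
  refine ⟨m, hmini, ⟨hm1.inv, hm1.adj, fun x => (hsub x).trans (hd x), ?_, ?_, hfixU⟩, hm2, ?_⟩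
  · intro x hx
    by_cases hU : x ∈ U
    · have h1 := dg_le_of_sub G (gc G U vv) x {vv x} (by
        intro y hy
        refine ⟨hy.1, ?_⟩
        intro hy2
        exact hy.2.1 ⟨hU, hy2⟩) (by
        intro y hy
        rw [Set.mem_singleton_iff] at hy
        rw [hy]
        exact hS.adjv x hU)
      rw [Set.ncard_singleton] at h1
      have := hd x
      omega
    · exact (hsub x).trans (hS.free x ((hm2 x).mp hx) hU)
  · intro u hu w hw hr
    by_contra hne
    have h1 := closed_reach _ (K u) (K_closed G m0 vv U K hS u hu) hr (hS.mem u hu)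
    exact Set.disjoint_left.mp (hS.disj u hu w hw hne) h1 (hS.mem w hw)
  · intro u hu
    have hmv : m (vv u) ≠ vv u := fun h => hS.cov u hu ((hm2 _).mp h)
    refine ⟨hmv, ?_, ?_⟩
    · have hadj := hS.adjv u hu
      have hne : u ≠ m (vv u) := by
        intro h
        have h1 := hm1.inv (vv u)
        rw [← h, hfixU u hu] at h1
        rw [← h1] at hadj
        exact G.loopless.irrefl u hadj
      have h1 := dg_le_of_sub G (rm (gc G U vv) m) (vv u) {u, m (vv u)} (by
        intro y hy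
        have hy' : (gc G U vv).Adj (vv u) y ∧ m (vv u) ≠ y ∧ m y ≠ vv u := hy
        refine ⟨hy'.1.1, ?_⟩
        intro hy2
        rcases hy2 with rfl | hy2
        · exact hy'.1.2.2 ⟨hu, rfl⟩
        · exact hy'.2.1 hy2.symm) (by
        intro y hy
        rcases hy with rfl | hy
        · exact hadj.symm
        · rw [hy]
          exact (hm1.adj _ hmv).1)
      rw [Set.ncard_pair hne] at h1
      have := hd (vv u)
      omega
    · intro w hw hr
      have h1 := closed_reach _ (K w) (K_closed G m0 vv U K hS w hw) hr.symm (hS.mem w hw)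
      exact hS.out u hu w hw h1

end Pool.Agent.H416R4.PK
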