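import Pool.Agent.H416R4.PK.T01
import Pool.Agent.H416R4.PK.T02
import Pool.Agent.H416R4.PK.T03
import Pool.Agent.H416R4.PK.T04
import Pool.Agent.H416R4.PK.T05
import Pool.Agent.H416R4.PK.T06
import Pool.Agent.H416R4.PK.T07
import Pool.Agent.H416R4.PK.T08
import Pool.Agent.H416R4.PK.T09
import Pool.Agent.H416R4.PK.T10
import Pool.Agent.H416R4.PK.T11
import Pool.Agent.H416R4.PK.T12
import Pool.Agent.H416R4.PK.T13
import Pool.Agent.H416R4.PK.T14
import Pool.Agent.H416R4.PK.T15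
import Pool.Agent.H416R4.PK.T16
import Pool.Agent.H416R4.PK.T17
import Pool.Agent.H416R4.PK.T18
import Pool.Agent.H416R4.PK.T19
import Pool.Agent.H416R4.PK.T20
import Pool.Agent.H416R4.PK.T21
import Pool.Agent.H416R4.PK.T22
import Pool.Agent.H416R4.PK.T23
import Pool.Agent.H416R4.PK.T24
import Pool.Agent.H416R4.PK.T25
import Pool.Agent.H416R4.PK.T26
import Pool.Agent.H416R4.PK.T27
import Pool.Agent.H416R4.PK.T28
import Pool.Agent.H416R4.PK.T29
import Pool.Agent.H416R4.PK.T30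
import Pool.Agent.H416R4.PK.T31
import Pool.Agent.H416R4.PK.T32
import Pool.Agent.H416R4.PK.T33
import Pool.Agent.H416R4.PK.T34
import Pool.Agent.H416R4.PK.T35
import Pool.Agent.H416R4.PK.T36
import Pool.Agent.H416R4.PK.T37
import Pool.Agent.H416R4.PK.T38

set_option autoImplicit false
open Classical

namespace Pool.Agent.H416R4.PK

section
variable {V : Type*} [Fintype V]

theorem dg_rm_le (H : SimpleGraph V) (m : V → V) (U : Set V) (hC : Core H m U) (x : V) :
    dg (rm H m) x ≤ 2 := by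
  by_cases hx : m x = x
  · refine le_trans (Set.ncard_le_ncard ?_ (Set.toFinite _)) (hC.deg2 x hx)
    intro y hy
    exact hy.1
  · have h1 : (rm H m).neighborSet x ⊆ H.neighborSet x \ {m x} := by
      intro y hy
      exact ⟨hy.1, fun h => hy.2.1 h.symm⟩
    have h2 : m x ∈ H.neighborSet x := hC.adj x hx
    have h3 := Set.ncard_le_ncard h1 (Set.toFinite _)
    have h4 := Set.ncard_sdiff_singleton_of_mem h2
    have h5 := hC.deg3 x
    unfold dg at *
    omega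

theorem k5_case (G : SimpleGraph V) (hcon : G.Connected) (hd : ∀ x, dg G x ≤ 3) (m : V → V)
    (hi : Inv G m) (e : Fin 5 → V) (hK : K5in G m e) : ∃ c, LP G c := by
  obtain ⟨x, σ, h1, h2⟩ := k5_coord G hcon hd m hi e hK
  obtain ⟨ch, t, h3⟩ := k5_norm σ h1
  obtain ⟨c, hc⟩ := k5_table ch
  exact ⟨_, k5_lift G x σ (sg ch) t h3 h2 c hc⟩

theorem core (H : SimpleGraph V) (m : V → V) (U : Set V) (hC : Core H m U) (hmin : Mini H m)
    (c : V → Fin 4) (hc : Col (rm H m) m c) :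
    ∃ g : V → V → Fin 6, LP H g ∧ (∀ u ∈ U, PU H g u) ∧
      ∀ v, m v ≠ v → dg (rm H m) v ≤ 1 → (∀ u ∈ U, ¬ H.Reachable v u) → PW H g v := by
  have hF := dg_rm_le H m U hC
  have hle : rm H m ≤ H := fun a b h => h.1
  have hmF : ∀ x, ¬ (rm H m).Adj x (m x) := fun x h => h.2.1 rfl
  have huni : ∀ u ∈ U, ∀ w ∈ U, (rm H m).Reachable u w → u = w :=
    fun u hu w hw h => hC.uni u hu w hw (h.mono hle)
  obtain ⟨δ, β, hs⟩ := slots_of_data (rm H m) m U c hF hC.inv
    (fun x0 => comp_data (rm H m) m U c hF hC.fixU huni hc x0)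
  have ha : Acy (rm H m) m δ := acy_of_mini H m δ ⟨hC.inv, hC.adj⟩ hmin hs.inv hs.adj hs.one
  obtain ⟨f, hf1, hf2, hf3, hf4⟩ := list_app (rm H m) m δ U β c hF hC.inv hmF hc hs ha
  obtain ⟨col, h1, h2⟩ := F2_col (rm H m) m δ U β c hF hC.inv hmF hs ha
  exact core_col H m δ U β c f col hC hc hs hf1 hf2 hf3 hf4 h1 h2

theorem connected_case (G : SimpleGraph V) (hcon : G.Connected) (hd : ∀ x, dg G x ≤ 3) :
    ∃ c, LP G c := by
  obtain ⟨m0, vv, U, K, hS⟩ := structure_exists G hd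
  obtain ⟨m, hmin, hC, -, hU⟩ := setup G hd m0 vv U K hS
  rcases col_or_k5 (gc G U vv) m U hC with ⟨c, hc⟩ | ⟨e, he⟩
  · obtain ⟨g, hg, hPU, hPW⟩ := core (gc G U vv) m U hC hmin c hc
    exact glue G hd m0 vv U K hS g hg hPU
      (fun u hu => hPW (vv u) (hU u hu).1 (hU u hu).2.1 (hU u hu).2.2)
  · refine k5_case G hcon hd m ⟨hC.inv, fun x hx => (hC.adj x hx).1⟩ e ⟨he.1, he.2.1, ?_⟩
    intro i j hij
    obtain ⟨a, b, ha, hb, hab⟩ := he.2.2 i j hij
    exact ⟨a, b, ha, hb, hab.1⟩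

end

theorem all_graphs (V : Type) [Fintype V] (G : SimpleGraph V) (hd : ∀ x, dg G x ≤ 3) :
    ∃ c, LP G c :=
  of_connected (fun W _ G hcon hd => connected_case G hcon hd) V G hd

theorem packing (V : Type) [Fintype V] (G : SimpleGraph V)
    (hd : ∀ v : V, Set.ncard (G.neighborSet v) ≤ 3) :
    ∃ c : V → V → Fin 6,
      (∀ a b : V, G.Adj a b → c a b = c b a) ∧
        ∀ a b x y : V, G.Adj a b → G.Adj x y →
          ¬ (a = x ∧ b = y) → ¬ (a = y ∧ b = x) →
          c a b = c x y →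
            (a ≠ x ∧ a ≠ y ∧ b ≠ x ∧ b ≠ y) ∧
            (2 ≤ (c a b).val →
              (¬ G.Adj a x ∧ ¬ G.Adj a y ∧ ¬ G.Adj b x ∧ ¬ G.Adj b y)) := by
  obtain ⟨c, hsym, hprop, hstr⟩ := all_graphs V G hd
  refine ⟨c, hsym, ?_⟩
  intro a b x y hab hxy h1 h2 hc
  have hba := hab.symm
  have hyx := hxy.symm
  have e1 := hsym a b hab
  have e2 := hsym x y hxy
  have n1 : a ≠ x := by
    intro h
    subst h
    exact hprop a b y hab hxy (fun h => h1 ⟨rfl, h⟩) hc
  have n2 : a ≠ y := by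
    intro h
    subst h
    exact hprop a b x hab hyx (fun h => h2 ⟨rfl, h⟩) (hc.trans e2)
  have n3 : b ≠ x := by
    intro h
    subst h
    exact hprop b a y hba hxy (fun h => h2 ⟨h, rfl⟩) (e1.symm.trans hc)
  have n4 : b ≠ y := by
    intro h
    subst h
    exact hprop b a x hba hyx (fun h => h1 ⟨h, rfl⟩) (e1.symm.trans (hc.trans e2))
  refine ⟨⟨n1, n2, n3, n4⟩, ?_⟩
  intro h6
  refine ⟨fun h => ?_, fun h => ?_, fun h => ?_, fun h => ?_⟩
  · exact hstr b a x y hba h hxy n3 n2 (by rw [← e1]; exact h6) (e1.symm.trans hc)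
  · exact hstr b a y x hba h hyx n4 n1 (by rw [← e1]; exact h6) (e1.symm.trans (hc.trans e2))
  · exact hstr a b x y hab h hxy n1 n4 h6 hc
  · exact hstr a b y x hab h hyx n2 n3 h6 (hc.trans e2)

end Pool.Agent.H416R4.PK
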