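import Pool.Agent.H416R4.PK.Defs

set_option autoImplicit false
open Classical

namespace Pool.Agent.H416R4.PK

namespace T01

/-- `LP` restricted to the edges starting in the set `A`. -/
def LPon {V : Type} (G : SimpleGraph V) (A : Set V) (c : V → V → Fin 6) : Prop :=
  (∀ a b, a ∈ A → G.Adj a b → c a b = c b a) ∧
  (∀ a b b', a ∈ A → G.Adj a b → G.Adj a b' → b ≠ b' → c a b ≠ c a b') ∧
  (∀ a b x y, a ∈ A → G.Adj a b → G.Adj b x → G.Adj x y → a ≠ x → b ≠ y → 2 ≤ (c a b).val →
    c a b ≠ c x y)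

lemma mem_of_adj {V : Type} (G : SimpleGraph V) (C : G.ConnectedComponent) {a b : V}
    (ha : a ∈ C.supp) (h : G.Adj a b) : b ∈ C.supp := by
  rw [SimpleGraph.ConnectedComponent.mem_supp_iff] at ha ⊢
  rw [← ha]
  exact (SimpleGraph.ConnectedComponent.sound h.reachable).symm

lemma on_comp
    (h : ∀ (W : Type) [Fintype W] (G : SimpleGraph W), G.Connected → (∀ x, dg G x ≤ 3) →
      ∃ c, LP G c) (V : Type) [Fintype V] (G : SimpleGraph V) (hd : ∀ x, dg G x ≤ 3)
    (C : G.ConnectedComponent) : ∃ g : V → V → Fin 6, LPon G C.supp g := by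
  have hconn : (G.induce C.supp).Connected := C.connected_toSimpleGraph
  have hdeg : ∀ x, dg (G.induce C.supp) x ≤ 3 := by
    intro x
    refine le_trans ?_ (hd x.1)
    unfold dg
    rw [← Set.ncard_image_of_injective _ Subtype.val_injective]
    apply Set.ncard_le_ncard _ (Set.toFinite _)
    rintro y ⟨z, hz, rfl⟩
    exact hz
  obtain ⟨c, h1, h2, h3⟩ := h C.supp (G.induce C.supp) hconn hdeg
  let g : V → V → Fin 6 := fun a b =>
    if ha : a ∈ C.supp then (if hb : b ∈ C.supp then c ⟨a, ha⟩ ⟨b, hb⟩ else 0) else 0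
  have hg : ∀ a b (ha : a ∈ C.supp) (hb : b ∈ C.supp), g a b = c ⟨a, ha⟩ ⟨b, hb⟩ := by
    intro a b ha hb
    simp only [g, dif_pos ha, dif_pos hb]
  refine ⟨g, ?_, ?_, ?_⟩
  · intro a b ha hab
    have hb := mem_of_adj G C ha hab
    rw [hg a b ha hb, hg b a hb ha]
    exact h1 ⟨a, ha⟩ ⟨b, hb⟩ hab
  · intro a b b' ha hab hab' hbb
    have hb := mem_of_adj G C ha hab
    have hb' := mem_of_adj G C ha hab'
    rw [hg a b ha hb, hg a b' ha hb']
    exact h2 ⟨a, ha⟩ ⟨b, hb⟩ ⟨b', hb'⟩ hab hab' (fun he => hbb (congrArg Subtype.val he))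
  · intro a b x y ha hab hbx hxy hax hby hc
    have hb := mem_of_adj G C ha hab
    have hx := mem_of_adj G C hb hbx
    have hy := mem_of_adj G C hx hxy
    rw [hg a b ha hb] at hc
    rw [hg a b ha hb, hg x y hx hy]
    exact h3 ⟨a, ha⟩ ⟨b, hb⟩ ⟨x, hx⟩ ⟨y, hy⟩ hab hbx hxy
      (fun he => hax (congrArg Subtype.val he)) (fun he => hby (congrArg Subtype.val he)) hc

end T01

open T01 in
/-- T01 -/
theorem of_connected
    (h : ∀ (W : Type) [Fintype W] (G : SimpleGraph W), G.Connected → (∀ x, dg G x ≤ 3) →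
      ∃ c, LP G c) :
    ∀ (V : Type) [Fintype V] (G : SimpleGraph V), (∀ x, dg G x ≤ 3) → ∃ c, LP G c := by
  intro V _ G hd
  choose g h1 h2 h3 using fun C : G.ConnectedComponent => on_comp h V G hd C
  have hm : ∀ a : V, a ∈ (G.connectedComponentMk a).supp := fun a => rfl
  have he : ∀ a b : V, G.Adj a b → G.connectedComponentMk a = G.connectedComponentMk b :=
    fun a b hab => SimpleGraph.ConnectedComponent.sound hab.reachable
  refine ⟨fun a b => g (G.connectedComponentMk a) a b, ?_, ?_, ?_⟩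
  · intro a b hab
    show g (G.connectedComponentMk a) a b = g (G.connectedComponentMk b) b a
    rw [← he a b hab]
    exact h1 _ a b (hm a) hab
  · intro a b b' hab hab' hbb
    exact h2 _ a b b' (hm a) hab hab' hbb
  · intro a b x y hab hbx hxy hax hby hc
    show g (G.connectedComponentMk a) a b ≠ g (G.connectedComponentMk x) x y
    rw [← he b x hbx, ← he a b hab]
    exact h3 _ a b x y (hm a) hab hbx hxy hax hby hc

end Pool.Agent.H416R4.PK
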